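import Mathlib
import Pool.Prelude.Def_H_3587d628

/-! The existential theory of the reals: quantifier-free formulas of ordered rings, their
satisfiability over the reals, and their binary encoding (reverse Polish). -/

namespace Pool.Agent.Work.MP_fae5c8_lc.ER

/-- Terms of the language of rings, with variables `x_0, x_1, ...`. -/
inductive Tm : Type
  | var (i : ℕ)
  | zero
  | one
  | add (s t : Tm)
  | mul (s t : Tm)
  | neg (s : Tm)

/-- Quantifier-free formulas of the language of ordered rings. -/
inductive Fm : Type
  | lt (s t : Tm)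
  | eq (s t : Tm)
  | not (p : Fm)
  | and (p q : Fm)
  | or (p q : Fm)

/-- The value of a term at a real point. -/
def Tm.eval (x : ℕ → ℝ) : Tm → ℝ
  | .var i => x i
  | .zero => 0
  | .one => 1
  | .add s t => s.eval x + t.eval x
  | .mul s t => s.eval x * t.eval x
  | .neg s => -s.eval x

/-- The truth of a formula at a real point. -/
def Fm.Holds (x : ℕ → ℝ) : Fm → Prop
  | .lt s t => s.eval x < t.eval x
  | .eq s t => s.eval x = t.eval x
  | .not p => ¬ p.Holds x
  | .and p q => p.Holds x ∧ q.Holds x
  | .or p q => p.Holds x ∨ q.Holds x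

/-- A term in reverse Polish form: a list of symbols `(opcode, variable index)`. -/
def Tm.toks : Tm → List (ℕ × ℕ)
  | .var i => [(0, i)]
  | .zero => [(1, 0)]
  | .one => [(2, 0)]
  | .add s t => s.toks ++ t.toks ++ [(3, 0)]
  | .mul s t => s.toks ++ t.toks ++ [(4, 0)]
  | .neg s => s.toks ++ [(5, 0)]

/-- A formula in reverse Polish form. -/
def Fm.toks : Fm → List (ℕ × ℕ)
  | .lt s t => s.toks ++ t.toks ++ [(6, 0)]
  | .eq s t => s.toks ++ t.toks ++ [(7, 0)]
  | .not p => p.toks ++ [(8, 0)]
  | .and p q => p.toks ++ q.toks ++ [(9, 0)]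
  | .or p q => p.toks ++ q.toks ++ [(10, 0)]

/-- One step of the parser, with a stack of terms and a stack of formulas. -/
def parseStep : List Tm × List Fm → ℕ × ℕ → List Tm × List Fm
  | (T, F), (0, i) => (.var i :: T, F)
  | (T, F), (1, _) => (.zero :: T, F)
  | (T, F), (2, _) => (.one :: T, F)
  | (t :: s :: T, F), (3, _) => (.add s t :: T, F)
  | (t :: s :: T, F), (4, _) => (.mul s t :: T, F)
  | (s :: T, F), (5, _) => (.neg s :: T, F)
  | (t :: s :: T, F), (6, _) => (T, .lt s t :: F)
  | (t :: s :: T, F), (7, _) => (T, .eq s t :: F)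
  | (T, p :: F), (8, _) => (T, .not p :: F)
  | (T, q :: p :: F), (9, _) => (T, .and p q :: F)
  | (T, q :: p :: F), (10, _) => (T, .or p q :: F)
  | S, _ => S

theorem parse_tm (t : Tm) (T : List Tm) (F : List Fm) :
    t.toks.foldl parseStep (T, F) = (t :: T, F) := by
  induction t generalizing T with
  | var i => rfl
  | zero => rfl
  | one => rfl
  | add s t hs ht => simp only [Tm.toks, List.foldl_append, hs, ht]; rfl
  | mul s t hs ht => simp only [Tm.toks, List.foldl_append, hs, ht]; rfl
  | neg s hs => simp only [Tm.toks, List.foldl_append, hs]; rfl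

theorem parse_fm (p : Fm) (T : List Tm) (F : List Fm) :
    p.toks.foldl parseStep (T, F) = (T, p :: F) := by
  induction p generalizing F with
  | lt s t => simp only [Fm.toks, List.foldl_append, parse_tm]; rfl
  | eq s t => simp only [Fm.toks, List.foldl_append, parse_tm]; rfl
  | not p hp => simp only [Fm.toks, List.foldl_append, hp]; rfl
  | and p q hp hq => simp only [Fm.toks, List.foldl_append, hp, hq]; rfl
  | or p q hp hq => simp only [Fm.toks, List.foldl_append, hp, hq]; rfl

/-- The binary encoding of formulas: the prelude encoding of the list of symbols (numbers in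
binary). -/
def fmEnc : Computability.Encoding Fm Bool where
  encode p := N487b59b3.bitEncode p.toks
  decode w := (N487b59b3.bitDecode w : Option (List (ℕ × ℕ))).bind
    fun l => (l.foldl parseStep ([], [])).2.head?
  decode_encode p := by simp [parse_fm]

end Pool.Agent.Work.MP_fae5c8_lc.ER
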