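import Pool.Agent.Work.MP_fae5c8_lc.Defs
import Pool.Agent.Work.MP_fae5c8_lc.ER.Etr
import Pool.Prelude.Def_F_458e953d

/-! The languages and the class `∃ℝ`. -/

namespace Pool.Agent.Work.MP_fae5c8_lc.ER

open Classical in
/-- The existential theory of the reals: codes of quantifier-free formulas that are satisfiable
over the reals. -/
noncomputable def ETR : N68a2faeb.DecisionProblem := fun w =>
  decide (∃ φ : Fm, N487b59b3.bitEncode φ.toks = w ∧ ∃ x : ℕ → ℝ, φ.Holds x)

/-- The class `∃ℝ`: languages that reduce to `ETR` in polynomial time. -/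
def ExR : N68a2faeb.DecisionComplexityClass := {L | N793a5b8e.ManyOneReducible L ETR}

open Classical in
/-- The loading problem with at most `c k` labelled points of `{0,1}^k`. -/
noncomputable def LOAD (c : ℕ) : N68a2faeb.DecisionProblem := fun w =>
  decide (∃ I : ℕ × List (List Bool × Bool), N487b59b3.bitEncode I = w ∧
    (∀ p ∈ I.2, p.1.length = I.1) ∧ I.2.length ≤ c * I.1 ∧ Loadable I)

end Pool.Agent.Work.MP_fae5c8_lc.ER
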