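import Pool.Agent.Work.MP_fae5c8_lc.ER.ParNet
import Pool.Agent.Lib.Poly.Arith
import Pool.Agent.Work.MP_fae5c8_lc.Sound
import Pool.Agent.Lib.Poly.CookLevin
import Pool.Agent.Lib.Poly.BinNat
import Pool.Agent.Work.MP_fae5c8_lc.ER.Lang
import Pool.Agent.Work.MP_4489ea_co.Bridge

-- merged part: Pool.Agent.Work.MP_fae5c8_lc.ER.Final
section
-- merged part: Pool.Agent.Work.MP_fae5c8_lc.ER.ZLim
section
/-! From the relation to an equation for the minimum value of `zT`. -/

namespace Pool.Agent.Work.MP_fae5c8_lc.ER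

open Filter Topology

theorem ZLim_upd {n : ℕ} (x : Fin n → ℝ) (i j : Fin n) :
    HasDerivAt (fun s => Function.update x i s j) (if j = i then 1 else 0) (x i) := by
  by_cases h : j = i
  · simp only [h, Function.update_self, if_true]
    exact hasDerivAt_id _
  · simp only [Function.update_of_ne h, if_neg h]
    exact hasDerivAt_const _ _

theorem ZLim_ev {n : ℕ} (x : Fin n → ℝ) (i : Fin n) (e : Eqn (Fin n)) :
    HasDerivAt (fun s => ev (Function.update x i s) e) (dv x i e) (x i) := by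
  have h := ((((ZLim_upd x i e.1).fun_mul (ZLim_upd x i e.2.1)).fun_add
    (ZLim_upd x i e.2.2.1)).fun_sub (ZLim_upd x i e.2.2.2.1)).sub_const
    (if e.2.2.2.2 then (1 : ℝ) else 0)
  refine h.congr_deriv ?_
  simp only [dv, Function.update_eq_self, ite_mul, mul_ite, one_mul, zero_mul, mul_one, mul_zero]

theorem ZLim_zF {n : ℕ} (E : List (Eqn (Fin n))) (x : Fin n → ℝ) (i : Fin n) :
    HasDerivAt (fun s => zF E (Function.update x i s))
      (E.map fun e => 2 * ev x e * dv x i e).sum (x i) := by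
  induction E with
  | nil => simpa [zF] using hasDerivAt_const (x i) (0 : ℝ)
  | cons e E ih =>
    simp only [zF, List.map_cons, List.sum_cons] at ih ⊢
    refine HasDerivAt.fun_add (((ZLim_ev x i e).fun_pow 2).congr_deriv ?_) ih
    simp

theorem ZLim_zT {n : ℕ} (E : List (Eqn (Fin n))) (x : Fin n → ℝ) (ε : ℝ) (i : Fin n) :
    HasDerivAt (fun s => zT E (Function.update x i s) ε) (zY E x ε i) (x i) := by
  refine ((ZLim_zF E x i).fun_add ((HasDerivAt.fun_sum (u := Finset.univ)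
    fun j _ => (ZLim_upd x i j).fun_pow 2).const_mul ε)).congr_deriv ?_
  simp [zY]
  ring

theorem ZLim_cont {n : ℕ} (E : List (Eqn (Fin n))) (ε : ℝ) :
    Continuous fun x : Fin n → ℝ => zT E x ε := by
  have h : Continuous fun x : Fin n → ℝ => zF E x := by
    induction E with
    | nil => simpa [zF] using continuous_const
    | cons e E ih =>
      simp only [zF, List.map_cons, List.sum_cons] at ih ⊢
      refine Continuous.add ?_ ih
      unfold ev
      fun_prop
  unfold zT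
  fun_prop

theorem ZLim_nonneg {n : ℕ} (E : List (Eqn (Fin n))) (x : Fin n → ℝ) : 0 ≤ zF E x :=
  List.sum_nonneg fun a ha => by
    obtain ⟨e, -, rfl⟩ := List.mem_map.1 ha
    exact sq_nonneg _

theorem ZLim_dot {n : ℕ} {δ : ℝ} {y : Fin n → ℝ} (hy : ∀ i, |y i| ≤ δ) (x : Fin n → ℝ) :
    |∑ i, y i * x i| ≤ δ * (n + ∑ i, x i ^ 2) := by
  have h : ∑ i, |y i * x i| ≤ ∑ i, δ * (1 + x i ^ 2) := Finset.sum_le_sum fun i _ => by
    rw [abs_mul]
    refine mul_le_mul (hy i) ?_ (abs_nonneg _) ((abs_nonneg _).trans (hy i))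
    rw [← sq_abs]
    linarith only [sq_nonneg (|x i| - 1), abs_nonneg (x i), sq_nonneg (|x i| - (1 : ℝ)), sq_nonneg |x i|]
  rw [← Finset.mul_sum, Finset.sum_add_distrib] at h
  simpa using (Finset.abs_sum_le_sum_abs _ _).trans h

/-- Minimisers of the linearly perturbed function. -/
theorem ZLim_min {n : ℕ} (E : List (Eqn (Fin n))) {ε : ℝ} (hε : 0 < ε) (x₀ : Fin n → ℝ) :
    ∃ C : ℝ, ∀ δ : ℝ, 0 ≤ δ → δ ≤ ε / 2 → ∀ y : Fin n → ℝ, (∀ i, |y i| ≤ δ) →
      ∃ x, (∀ i, zY E x ε i = y i) ∧ zT E x ε ≤ zT E x₀ ε + δ * C := by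
  set S0 : ℝ := ∑ i, x₀ i ^ 2 with hS0
  set B : ℝ := 2 * (zT E x₀ ε + ε * (2 * n + S0)) / ε with hB
  refine ⟨2 * n + S0 + B, fun δ h0 h1 y hy => ?_⟩
  have s0 : 0 ≤ 2 * n + S0 := by positivity
  have key : ∀ x, zT E x ε - ∑ i, y i * x i ≤ zT E x₀ ε - ∑ i, y i * x₀ i →
      ∑ i, x i ^ 2 ≤ B ∧ zT E x ε ≤ zT E x₀ ε + δ * (2 * n + S0 + B) := fun x hx => by
    have a1 := (abs_le.1 (ZLim_dot hy x)).2
    have a2 := (abs_le.1 (ZLim_dot hy x₀)).1
    have a3 : ε * ∑ i, x i ^ 2 ≤ zT E x ε := le_add_of_nonneg_left (ZLim_nonneg E x)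
    have a4 : 0 ≤ ∑ i, x i ^ 2 := by positivity
    have a5 := mul_le_mul_of_nonneg_right h1 a4
    have a6 := mul_le_mul_of_nonneg_right (h1.trans (half_le_self hε.le)) s0
    have a7 : ∑ i, x i ^ 2 ≤ B := by
      rw [hB, le_div_iff₀ hε]
      linarith only [hx, a1, a2, a3, a5, a6]
    have a8 := mul_le_mul_of_nonneg_left a7 h0
    exact ⟨a7, by linarith only [hx, a1, a2, a8]⟩
  have hc : Continuous fun x : Fin n → ℝ => zT E x ε - ∑ i, y i * x i :=
    (ZLim_cont E ε).sub (by fun_prop)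
  obtain ⟨x, hx⟩ := hc.exists_forall_le_of_isBounded x₀ (by
    refine (Metric.isBounded_closedBall (x := 0) (r := 1 + |B|)).subset fun x hx => ?_
    rw [mem_closedBall_zero_iff, pi_norm_le_iff_of_nonneg (by positivity)]
    intro i
    have a1 := (Finset.single_le_sum (f := fun i => x i ^ 2) (fun _ _ => sq_nonneg _)
      (Finset.mem_univ i)).trans ((key x hx).1.trans (le_abs_self B))
    rw [← sq_abs] at a1
    rw [Real.norm_eq_abs]
    linarith only [a1, sq_nonneg (|x i| - 1), abs_nonneg (x i), sq_nonneg (|x i| - (1 : ℝ)), sq_nonneg |x i|])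
  refine ⟨x, fun i => ?_, (key x (hx x₀)).2⟩
  have d := (ZLim_zT E x ε i).fun_sub (HasDerivAt.fun_sum (u := Finset.univ)
    fun j _ => (ZLim_upd x i j).const_mul (y j))
  have m : IsLocalMin (fun s => zT E (Function.update x i s) ε -
      ∑ j, y j * Function.update x i s j) (x i) := Filter.Eventually.of_forall fun s => by
    simpa only [Function.update_eq_self] using hx (Function.update x i s)
  have := m.hasDerivAt_eq_zero d
  simpa [sub_eq_zero] using this

theorem z_lim {n N : ℕ} (E : List (Eqn (Fin n))) (w : Fin N × Fin N × (Fin n → Fin N) → ℤ)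
    (hw : w ≠ 0) (h : ∀ (x : Fin n → ℝ) (ε : ℝ), ∑ k, (w k : ℝ) * zMon E x ε k = 0) :
    ∃ α : Fin n → Fin N, (∃ a b, w (a, b, α) ≠ 0) ∧
      ∀ (ε : ℝ) (x₀ : Fin n → ℝ), 0 < ε → (∀ x, zT E x₀ ε ≤ zT E x ε) →
        ∑ a : Fin N, ∑ b : Fin N,
          (w (a, b, α) : ℝ) * (zT E x₀ ε ^ (a : ℕ) * ε ^ (b : ℕ)) = 0 := by
  classical
  obtain ⟨k0, hk0⟩ := Function.ne_iff.1 hw
  have hN : 0 < N := Fin.pos k0.1
  let e : (Fin n → Fin N) → ℕ := fun β => finFunctionFinEquiv β
  obtain ⟨α, hα, hmin⟩ := Finset.exists_min_image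
    (Finset.univ.filter fun β => ∃ a b, w (a, b, β) ≠ 0) e
    ⟨k0.2.2, Finset.mem_filter.2 ⟨Finset.mem_univ _, k0.1, k0.2.1, hk0⟩⟩
  refine ⟨α, (Finset.mem_filter.1 hα).2, fun ε x₀ hε hx₀ => ?_⟩
  obtain ⟨C, hC⟩ := ZLim_min E hε x₀
  let W : (Fin n → Fin N) → ℝ → ℝ := fun β t =>
    ∑ a : Fin N, ∑ b : Fin N, (w (a, b, β) : ℝ) * (t ^ (a : ℕ) * ε ^ (b : ℕ))
  have ex : ∀ δ : ℝ, ∃ t : ℝ, 0 < δ → δ ≤ min 1 (ε / 2) → zT E x₀ ε ≤ t ∧
      t ≤ zT E x₀ ε + δ * C ∧ ∑ β, δ ^ (e β - e α) * W β t = 0 := fun δ => by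
    by_cases hδ : 0 < δ ∧ δ ≤ min 1 (ε / 2)
    swap
    · exact ⟨0, fun a b => absurd ⟨a, b⟩ hδ⟩
    obtain ⟨d0, d1⟩ := hδ
    obtain ⟨x, x1, x2⟩ := hC δ d0.le (d1.trans (min_le_right _ _)) (fun i => δ ^ N ^ (i : ℕ))
      fun i => by
        rw [abs_of_pos (pow_pos d0 _)]
        exact pow_le_of_le_one d0.le (d1.trans (min_le_left _ _)) (pow_pos hN _).ne'
    refine ⟨zT E x ε, fun _ _ => ⟨hx₀ x, x2, ?_⟩⟩
    refine mul_left_cancel₀ (pow_pos d0 (e α)).ne' ?_
    rw [mul_zero, ← h x ε, Finset.mul_sum, Fintype.sum_prod_type]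
    simp only [Fintype.sum_prod_type]
    rw [Finset.sum_congr rfl fun a _ => Finset.sum_comm, Finset.sum_comm (γ := Fin N)]
    refine Finset.sum_congr rfl fun β _ => ?_
    simp only [W, Finset.mul_sum]
    refine Finset.sum_congr rfl fun a _ => Finset.sum_congr rfl fun b _ => ?_
    by_cases hw0 : w (a, b, β) = 0
    · simp [hw0]
    · have h1 := hmin β (Finset.mem_filter.2 ⟨Finset.mem_univ _, a, b, hw0⟩)
      have h2 : ∏ i, zY E x ε i ^ (β i : ℕ) = δ ^ e β := by
        simp only [x1, e, finFunctionFinEquiv_apply, ← pow_mul, Finset.prod_pow_eq_pow_sum,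
          mul_comm]
      rw [zMon, ← mul_assoc, ← pow_add, Nat.add_sub_cancel' h1]
      simp only [h2]
      ring
  choose t ht using ex
  have ev0 : ∀ᶠ δ in 𝓝[>] (0 : ℝ), 0 < δ ∧ δ ≤ min 1 (ε / 2) :=
    Filter.mem_of_superset (Ioc_mem_nhdsGT (lt_min one_pos (half_pos hε))) fun _ h => h
  have id0 : Tendsto (fun δ : ℝ => δ) (𝓝[>] 0) (𝓝 0) := tendsto_id.mono_left nhdsWithin_le_nhds
  have lt : Tendsto t (𝓝[>] 0) (𝓝 (zT E x₀ ε)) :=
    tendsto_of_tendsto_of_tendsto_of_le_of_le' tendsto_const_nhds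
      (by simpa using (id0.mul_const C).const_add (zT E x₀ ε))
      (ev0.mono fun δ d => (ht δ d.1 d.2).1) (ev0.mono fun δ d => (ht δ d.1 d.2).2.1)
  have cW : ∀ β, Continuous (W β) := fun β => by
    simp only [W]
    fun_prop
  have l1 : Tendsto (fun δ => ∑ β, δ ^ (e β - e α) * W β (t δ)) (𝓝[>] 0)
      (𝓝 (∑ β, 0 ^ (e β - e α) * W β (zT E x₀ ε))) :=
    tendsto_finsetSum _ fun β _ => (id0.pow _).mul (((cW β).tendsto _).comp lt)
  have l2 := tendsto_nhds_unique l1
    (tendsto_const_nhds.congr' (ev0.mono fun δ d => (ht δ d.1 d.2).2.2.symm))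
  rw [Finset.sum_eq_single α, Nat.sub_self, pow_zero, one_mul] at l2
  · exact l2
  · intro β _ hβ
    by_cases h1 : ∃ a b, w (a, b, β) ≠ 0
    · have h2 := hmin β (Finset.mem_filter.2 ⟨Finset.mem_univ _, h1⟩)
      have h3 : e β ≠ e α := fun h3 => hβ (finFunctionFinEquiv.injective (Fin.ext h3))
      rw [zero_pow (by omega), zero_mul]
    · push Not at h1
      simp [W, h1]
  · exact fun h1 => absurd (Finset.mem_univ _) h1

end Pool.Agent.Work.MP_fae5c8_lc.ER
end

-- merged part: Pool.Agent.Work.MP_fae5c8_lc.ER.ZMain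
section
/-! The separation bound: a bounded approximate solution yields an exact solution. -/

namespace Pool.Agent.Work.MP_fae5c8_lc.ER

open Finset

theorem zmain_N (m : ℕ) : zN (4 * m) ≤ 2 ^ (17 * (m + 1) ^ 2) := by
  have h1 : 5 * (4 * m + 2) ≤ 2 ^ (4 * m + 4) := by
    have := Nat.lt_two_pow_self (n := 4 * m)
    rw [pow_add]; omega
  calc zN (4 * m) ≤ 2 * (2 ^ (4 * m + 4)) ^ (4 * m + 1) := by unfold zN; gcongr
    _ = 2 ^ ((4 * m + 4) * (4 * m + 1) + 1) := by rw [← pow_mul, pow_succ]; ring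
    _ ≤ _ := Nat.pow_le_pow_right two_pos (by linarith only [sq_nonneg (↑m + (1 : ℤ))])

theorem zmain_H' (m s N : ℕ) (s1 : m + 1 ≤ s) (N1 : 0 < N) (hN : N ≤ 2 ^ (17 * s)) :
    N ^ (4 * m + 2) * ((12 * m + 4 * m + 2) * (5 * (4 * m + 2) * N) ^ 4) ^ ((4 * m + 2) * N) + 2 ≤
      2 ^ 2 ^ (200 * s) := by
  have h1 : 5 * (4 * m + 2) ≤ 2 ^ (4 * s) := by
    have := Nat.lt_two_pow_self (n := 4 * m)
    have h : 2 ^ (4 * m + 4) ≤ 2 ^ (4 * s) := Nat.pow_le_pow_right two_pos (by omega)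
    rw [pow_add] at h; omega
  have h2 : 12 * m + 4 * m + 2 ≤ 2 ^ (4 * s) := by omega
  have h3 : (12 * m + 4 * m + 2) * (5 * (4 * m + 2) * N) ^ 4 ≤ 2 ^ (88 * s) := by
    refine (Nat.mul_le_mul h2 (Nat.pow_le_pow_left (Nat.mul_le_mul h1 hN) 4)).trans (le_of_eq ?_)
    rw [← pow_add, ← pow_mul, ← pow_add, show 4 * s + (4 * s + 17 * s) * 4 = 88 * s by ring]
  have h4 : N ^ (4 * m + 2) * ((12 * m + 4 * m + 2) * (5 * (4 * m + 2) * N) ^ 4) ^
      ((4 * m + 2) * N) ≤ 2 ^ (105 * s * ((4 * m + 2) * N)) := by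
    refine (Nat.mul_le_mul ((Nat.pow_le_pow_left hN _).trans
      (Nat.pow_le_pow_right (by positivity) (Nat.le_mul_of_pos_right _ N1)))
      (Nat.pow_le_pow_left h3 _)).trans (le_of_eq ?_)
    rw [← mul_pow, ← pow_add, ← pow_mul, show 17 * s + 88 * s = 105 * s by ring]
  have h5 : 105 * s * ((4 * m + 2) * N) ≤ 2 ^ (126 * s) := by
    refine (Nat.mul_le_mul (Nat.lt_two_pow_self (n := 105 * s)).le
      (Nat.mul_le_mul (show 4 * m + 2 ≤ 2 ^ (4 * s) by omega) hN)).trans (le_of_eq ?_)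
    rw [← pow_add, ← pow_add, show 105 * s + (4 * s + 17 * s) = 126 * s by ring]
  have h6 : 2 ^ (126 * s) + 2 ≤ 2 ^ (200 * s) := by
    have : 2 ^ (126 * s + 2) ≤ 2 ^ (200 * s) := Nat.pow_le_pow_right two_pos (by omega)
    have p := Nat.one_le_two_pow (n := 126 * s)
    rw [pow_add] at this; omega
  have h7 := Nat.pow_le_pow_right two_pos h6
  have h8 := Nat.pow_le_pow_right two_pos h5
  have p := Nat.one_le_two_pow (n := 2 ^ (126 * s))
  rw [pow_add] at h7
  omega

theorem zmain_H (m : ℕ) : zH (4 * m) m + 2 ≤ 2 ^ 2 ^ bZ m :=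
  zmain_H' m ((m + 1) ^ 2) (zN (4 * m)) (by linarith only [mul_nonneg_of_nonpos_of_nonpos (Mathlib.Tactic.Linarith.sub_nonpos_of_le (Mathlib.Tactic.Linarith.natCast_nonneg ℤ m)) (Mathlib.Tactic.Linarith.sub_nonpos_of_le (Mathlib.Tactic.Linarith.natCast_nonneg ℤ m))]) (by unfold zN; positivity) (zmain_N m)

theorem zmain_N' (m : ℕ) : 3 * zN (4 * m) + 4 < 2 * 2 ^ bZ m ∧ 4 * m + 1 ≤ 2 ^ bZ m := by
  have hN := zmain_N m
  have s1 : m + 1 ≤ (m + 1) ^ 2 := by linarith only [mul_nonneg_of_nonpos_of_nonpos (Mathlib.Tactic.Linarith.sub_nonpos_of_le (Mathlib.Tactic.Linarith.natCast_nonneg ℤ m)) (Mathlib.Tactic.Linarith.sub_nonpos_of_le (Mathlib.Tactic.Linarith.natCast_nonneg ℤ m))]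
  have h1 : 2 ^ (17 * (m + 1) ^ 2 + 2) ≤ 2 ^ bZ m :=
    Nat.pow_le_pow_right two_pos (by unfold bZ; omega)
  have p := Nat.lt_two_pow_self (n := 17 * (m + 1) ^ 2)
  rw [pow_add] at h1
  omega

theorem zmain_core {n N Q : ℕ} (E : List (Eqn (Fin n))) (H R : ℝ)
    (w : Fin N × Fin N × (Fin n → Fin N) → ℤ) (w0 : w ≠ 0) (w1 : ∀ k, (|w k| : ℝ) ≤ H)
    (w2 : ∀ (x : Fin n → ℝ) (ε : ℝ), ∑ k, (w k : ℝ) * zMon E x ε k = 0) (H0 : 0 ≤ H)
    (r1 : H + 2 ≤ R) (r2 : (n : ℝ) + 1 ≤ R) (r3 : (N : ℝ) ≤ R) (r4 : (E.length : ℝ) ≤ R)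
    (n1 : 3 * N + 4 < 2 * Q) (x : Fin n → ℝ) (hx : ∀ i, |x i| ≤ R)
    (hf : ∀ e ∈ E, |ev x e| * R ^ Q ≤ 1) : ESat E := by
  by_contra hno
  have pos : ∀ y : Fin n → ℝ, 0 < zF E y := by
    intro y
    refine (zF_nonneg E y).lt_of_ne fun h => hno ⟨y, fun e he => ?_⟩
    have := List.single_le_sum (l := E.map fun e => ev y e ^ 2)
      (fun _ h => by obtain ⟨e, -, rfl⟩ := List.mem_map.1 h; positivity) _
      (List.mem_map_of_mem he)
    exact pow_eq_zero_iff (two_ne_zero) |>.1 (le_antisymm (this.trans h.symm.le) (sq_nonneg _))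
  have n0 : (0 : ℝ) ≤ n := Nat.cast_nonneg _
  have R1 : 1 < R := by linarith only [H0, r1]
  have hs : ∑ i, x i ^ 2 ≤ n * R ^ 2 := by
    refine (sum_le_sum fun i _ => (show x i ^ 2 ≤ R ^ 2 from
      sq_le_sq' (abs_le.1 (hx i)).1 (abs_le.1 (hx i)).2)).trans (le_of_eq ?_)
    simp
  have RR : R ≤ R ^ 2 := by linarith only [H0, r1, mul_nonneg_of_nonpos_of_nonpos (Mathlib.Tactic.Linarith.sub_nonpos_of_le H0) (Mathlib.Tactic.Linarith.sub_nonpos_of_le H0), mul_nonneg_of_nonpos_of_nonpos (Mathlib.Tactic.Linarith.sub_nonpos_of_le H0) (Mathlib.Tactic.Linarith.sub_nonpos_of_le r1), mul_nonneg_of_nonpos_of_nonpos (Mathlib.Tactic.Linarith.sub_nonpos_of_le r1) (Mathlib.Tactic.Linarith.sub_nonpos_of_le r1)]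
  obtain ⟨ε, x₀, e0, e1, e2, e3⟩ := z_eps E pos ((n + 1) * R ^ 2) x (by linarith only [H0, r1, hs, RR])
  obtain ⟨α, a0, a1⟩ := z_lim E w w0 w2
  have hF : zF E x * (R ^ Q) ^ 2 ≤ E.length := by
    rw [zF, ← List.sum_map_mul_right]
    refine (List.sum_le_card_nsmul _ 1 fun y hy => ?_).trans (by simp)
    obtain ⟨e, he, rfl⟩ := List.mem_map.1 hy
    rw [← sq_abs (ev x e), ← mul_pow]
    exact pow_le_one₀ (by positivity) (hf e he)
  have hε : ε * (R ^ Q) ^ 2 ≤ R :=
    (mul_le_mul_of_nonneg_right e3 (sq_nonneg _)).trans (hF.trans r4)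
  rw [← pow_mul] at hε
  have ε1 : ε ≤ 1 := by
    have : R ^ 1 ≤ R ^ (Q * 2) := pow_le_pow_right₀ R1.le (by omega)
    (refine le_of_not_gt fun h_nl => ?_; linarith only [h_nl, hε, H0, r1, e0, this, mul_nonneg_of_nonpos_of_nonpos (Mathlib.Tactic.Linarith.sub_nonpos_of_le H0) (le_of_lt (Mathlib.Tactic.Linarith.sub_neg_of_lt h_nl)), mul_nonneg_of_nonpos_of_nonpos (Mathlib.Tactic.Linarith.sub_nonpos_of_le r1) (le_of_lt (Mathlib.Tactic.Linarith.sub_neg_of_lt h_nl)), mul_nonneg_of_nonpos_of_nonpos (le_of_lt (Mathlib.Tactic.Linarith.sub_neg_of_lt e0)) (Mathlib.Tactic.Linarith.sub_nonpos_of_le this)])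
  have root := z_root (fun a b => w (a, b, α)) a0 H ((n + 1) * R ^ 2) ε
    (fun a b => w1 (a, b, α)) (by linarith only [r1, RR, mul_nonneg_of_nonpos_of_nonpos (Mathlib.Tactic.Linarith.sub_nonpos_of_le (sq_nonneg R)) (Mathlib.Tactic.Linarith.sub_nonpos_of_le (Mathlib.Tactic.Linarith.natCast_nonneg ℝ n))]) e0 ε1 (by rw [← e2]; exact a1 ε x₀ e0 e1)
  have b1 : ((N : ℝ) ^ 2 * H * ((n + 1) * R ^ 2) ^ N) ≤ R ^ 2 * R * (R * R ^ 2) ^ N := by
    gcongr; linarith only [r1]
  have b2 : R ^ (Q * 2) ≤ R ^ (3 * N + 4) := by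
    have k1 := mul_le_mul_of_nonneg_right (root.trans (mul_le_mul_of_nonneg_left b1 e0.le))
      (show 0 ≤ R ^ (Q * 2) by positivity)
    have k2 := mul_le_mul_of_nonneg_right hε
      (show 0 ≤ R ^ 2 * R * (R * R ^ 2) ^ N by positivity)
    have k3 : R ^ (3 * N + 4) = R * (R ^ 2 * R * (R * R ^ 2) ^ N) := by
      rw [pow_add, pow_mul]; ring
    linarith only [k1, k2, k3]
  have := (pow_le_pow_iff_right₀ R1).1 b2
  omega

theorem zmain_fin {m : ℕ} (E : List (Eqn (Fin (4 * m)))) (hm : E.length = m)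
    (x : Fin (4 * m) → ℝ) (R : ℝ) (hR : 2 ^ 2 ^ bZ m ≤ R) (hx : ∀ i, |x i| ≤ R)
    (hf : ∀ e ∈ E, |ev x e| * R ^ 2 ^ bZ m ≤ 1) : ESat E := by
  have cast : ∀ k : ℕ, k ≤ 2 ^ 2 ^ bZ m → (k : ℝ) ≤ R := fun k hk =>
    le_trans (by exact_mod_cast hk) hR
  obtain ⟨n1, n2⟩ := zmain_N' m
  have p := Nat.lt_two_pow_self (n := 2 ^ bZ m)
  have r1 := cast _ (zmain_H m)
  have r2 := cast (4 * m + 1) (by omega)
  have r3 := cast (zN (4 * m)) (by omega)
  have r4 := cast E.length (by omega)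
  rw [Nat.cast_add] at r1 r2
  obtain ⟨w, w0, w1, w2⟩ := z_rel E
  exact zmain_core E (zH (4 * m) m) R w w0
    (fun k => by have := w1 k; rw [hm] at this; exact_mod_cast this) w2 (Nat.cast_nonneg _)
    (by exact_mod_cast r1) (by exact_mod_cast r2) r3 r4 n1 x hx hf

theorem lemmaZ {ν : Type} (E : List (Eqn ν)) (x : ν → ℝ) (R : ℝ) (hR : 2 ^ 2 ^ bZ E.length ≤ R)
    (hx : ∀ e ∈ E, ∀ v ∈ [e.1, e.2.1, e.2.2.1, e.2.2.2.1], |x v| ≤ R)
    (hf : ∀ e ∈ E, |ev x e| * R ^ 2 ^ bZ E.length ≤ 1) : ESat E := by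
  classical
  rcases E.eq_nil_or_concat with rfl | ⟨_, e₀, hE⟩
  · exact ⟨x, by simp⟩
  have m0 : 0 < E.length := by rw [hE]; simp
  set V := E.flatMap fun e => [e.1, e.2.1, e.2.2.1, e.2.2.2.1] with hV
  have hlen : V.length = 4 * E.length := by
    rw [hV, List.length_flatMap]; simp [mul_comm]
  let ι : ν → Fin (4 * E.length) := fun v =>
    if h : V.idxOf v < 4 * E.length then ⟨_, h⟩ else ⟨0, by omega⟩
  let y : Fin (4 * E.length) → ℝ := fun i => x (V[(i : ℕ)]'(by rw [hlen]; exact i.2))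
  have hy : ∀ v ∈ V, y (ι v) = x v := by
    intro v hv
    have : V.idxOf v < 4 * E.length := hlen ▸ List.idxOf_lt_length_iff.2 hv
    simp [y, ι, this]
  have hev : ∀ (z : Fin (4 * E.length) → ℝ) (e : Eqn ν),
      ev z (ι e.1, ι e.2.1, ι e.2.2.1, ι e.2.2.2.1, e.2.2.2.2) = ev (fun v => z (ι v)) e :=
    fun _ _ => rfl
  obtain ⟨z, hz⟩ := zmain_fin
    (E.map fun e => (ι e.1, ι e.2.1, ι e.2.2.1, ι e.2.2.2.1, e.2.2.2.2)) (by simp) y R hR
    (fun i => by
      obtain ⟨e, he, hv⟩ := List.mem_flatMap.1 (List.getElem_mem (l := V) (n := i) (by rw [hlen]; exact i.2))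
      exact hx e he _ hv)
    (fun e' he' => by
      obtain ⟨e, he, rfl⟩ := List.mem_map.1 he'
      have k : ∀ v ∈ [e.1, e.2.1, e.2.2.1, e.2.2.2.1], y (ι v) = x v := fun v hv =>
        hy v (List.mem_flatMap.2 ⟨e, he, hv⟩)
      have := hf e he
      unfold ev at this ⊢
      simp only
      rwa [k _ (by simp), k _ (by simp), k _ (by simp), k _ (by simp)])
  exact ⟨fun v => z (ι v), fun e he => (hev z e).symm.trans (hz _ (List.mem_map_of_mem he))⟩

end Pool.Agent.Work.MP_fae5c8_lc.ER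
end

-- merged part: Pool.Agent.Work.MP_fae5c8_lc.ER.QSys
section
/-! Equations are solvable iff the strict system is. -/

namespace Pool.Agent.Work.MP_fae5c8_lc.ER

open Sum

variable {ν : Type}

/-- The comparisons attached to an equation, as inequalities. -/
theorem qCmp_iff (x : QN ν → ℝ) (b : ℕ) (e : Eqn ν) : (∀ c ∈ qCmp b e, CmpH x c) ↔
    (x (inr (inr (e, 0))) + x (inr (inr (e, 1))) + x (inl (e.2.2.1, true)) +
        x (inl (e.2.2.2.1, false)) <
      x (inr (inr (e, 6))) + x (inr (inr (e, 7))) + x (inl (e.2.2.1, false)) +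
        x (inl (e.2.2.2.1, true)) + x (inr (inl (2 * b + 1))) +
        (if e.2.2.2.2 then 1 else 0) * x (inr (inl 0))) ∧
    x (inr (inr (e, 2))) + x (inr (inr (e, 3))) + x (inl (e.2.2.1, false)) +
        x (inl (e.2.2.2.1, true)) + (if e.2.2.2.2 then 1 else 0) * x (inr (inl 0)) <
      x (inr (inr (e, 4))) + x (inr (inr (e, 5))) + x (inl (e.2.2.1, true)) +
        x (inl (e.2.2.2.1, false)) + x (inr (inl (2 * b + 1))) := by
  obtain ⟨a, b, c, d, _ | _⟩ := e <;> simp [qCmp, CmpH, add_assoc]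

theorem qsys_chain (r : ℕ → ℝ) (n : ℕ) (h0 : ∀ i ≤ n, 0 < r i)
    (h : ∀ i < n, r (i + 1) < r i * r i) (j i : ℕ) (hi : j + i ≤ n) : r (j + i) ≤ r j ^ 2 ^ i := by
  induction i with
  | zero => simp
  | succ i ih =>
    have := ih (by omega)
    rw [pow_succ, pow_mul, ← add_assoc, sq]
    exact (h _ (by omega)).le.trans (mul_self_le_mul_self (h0 _ (by omega)).le this)

theorem qOf_sound {E : List (Eqn ν)} (h : QSat (qOf E)) : ESat E := by
  obtain ⟨x, h1, h2⟩ := h
  have b0 : 0 < bZ E.length := by unfold bZ; positivity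
  have c0 : x (inr (inl 1)) + x (inr (inl 1)) < x (inr (inl 0)) := by
    simpa [CmpH] using h1 _ List.mem_cons_self
  have ch := fun i (hi : i < 2 * bZ E.length) =>
    h2 _ (List.mem_append_left _ (List.mem_map_of_mem (List.mem_range.2 hi)))
  have k1 := fun e (he : e ∈ E) => (qCmp_iff x (bZ E.length) e).1 fun c hc =>
    h1 c (List.mem_cons_of_mem _ (List.mem_flatMap.2 ⟨e, he, hc⟩))
  have k2 := fun e (he : e ∈ E) c (hc : c ∈ qPrd (bZ E.length) e) =>
    h2 c (List.mem_append_right _ (List.mem_flatMap.2 ⟨e, he, hc⟩))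
  have Z := lemmaZ E
  generalize bZ E.length = b at *
  simp only [PrdH] at ch
  set u := x (inr (inl 0)) with hu
  have u0 : 0 < u := (ch 0 (by omega)).2.2.2.1
  have p0 : ∀ i ≤ 2 * b, 0 < x (inr (inl (i + 1))) / u := by
    intro i hi
    refine div_pos ?_ u0
    rcases i with _ | i
    · exact (ch 0 (by omega)).1
    · exact (ch i (by omega)).2.2.1
  have chain := qsys_chain (fun i => x (inr (inl (i + 1))) / u) (2 * b) p0 fun i hi => by
    have := (ch i hi).2.2.2.2
    rw [div_mul_div_comm, div_lt_div_iff₀ u0 (by positivity)]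
    linarith only [u0, this, mul_pos_of_neg_of_neg (Mathlib.Tactic.Linarith.sub_neg_of_lt u0) (Mathlib.Tactic.Linarith.sub_neg_of_lt this)]
  have t1 := chain 0 b (by omega)
  have t2 := chain b b (by omega)
  simp only [zero_add, ← two_mul] at t1 t2
  have q0 := p0 b (by omega)
  set ρ := x (inr (inl (b + 1))) / u with hρ
  have half : x (inr (inl 1)) / u ≤ 2⁻¹ := by rw [div_le_iff₀ u0]; linarith only [c0]
  refine Z (fun v => (x (inl (v, true)) - x (inl (v, false))) / u) ρ⁻¹ ?_ ?_ ?_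
  · rw [le_inv_comm₀ (by positivity) q0, ← inv_pow]
    exact t1.trans (pow_le_pow_left₀ (p0 0 (by omega)).le half _)
  · intro e he v hv
    have a1 := k2 e he _ (List.mem_append_left _ (List.mem_flatMap.2 ⟨v, hv, List.mem_cons_self⟩))
    have a2 := k2 e he _ (List.mem_append_left _ (List.mem_flatMap.2 ⟨v, hv,
      List.mem_cons_of_mem _ List.mem_cons_self⟩))
    simp only [PrdH] at a1 a2
    obtain ⟨-, -, a3, a4, a5⟩ := a1
    obtain ⟨-, -, a6, -, a7⟩ := a2
    rw [hρ, inv_div, abs_div, abs_of_pos u0, div_le_div_iff₀ u0 a4, ← abs_of_pos a4, ← abs_mul,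
      abs_le]
    have := mul_pos a3 a4
    have := mul_pos a6 a4
    constructor <;> linarith
  · intro e he
    obtain ⟨a1, a2⟩ := k1 e he
    have m := fun c hc => (k2 e he c (List.mem_append_right _ hc)).2.2.2.2
    simp only [List.mem_cons, List.not_mem_nil, or_false, forall_eq_or_imp, forall_eq] at m
    obtain ⟨m0, m1, m2, m3, m4, m5, m6, m7⟩ := m
    have a3 := mul_lt_mul_of_pos_right a1 u0
    have a4 := mul_lt_mul_of_pos_right a2 u0
    have key : |ev (fun v => (x (inl (v, true)) - x (inl (v, false))) / u) e| ≤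
        x (inr (inl (2 * b + 1))) / u := by
      have e1 : ev (fun v => (x (inl (v, true)) - x (inl (v, false))) / u) e =
          ((x (inl (e.1, true)) - x (inl (e.1, false))) *
            (x (inl (e.2.1, true)) - x (inl (e.2.1, false))) +
            (x (inl (e.2.2.1, true)) - x (inl (e.2.2.1, false))) * u -
            (x (inl (e.2.2.2.1, true)) - x (inl (e.2.2.2.1, false))) * u -
            (if e.2.2.2.2 then 1 else 0) * u * u) / (u * u) := by
        unfold ev
        field_simp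
      rw [← hu] at m0 m1 m2 m3 m4 m5 m6 m7
      rw [e1, abs_div, abs_of_pos (mul_pos u0 u0),
        ← mul_div_mul_right (x (inr (inl (2 * b + 1)))) u u0.ne',
        div_le_div_iff_of_pos_right (mul_pos u0 u0), abs_le]
      constructor <;> linarith only [m2, m3, m4, m5, a4, m0, m1, m6, m7, a3]
    rw [inv_pow, mul_inv_le_iff₀ (by positivity), one_mul]
    exact key.trans t2

theorem qOf_complete {E : List (Eqn ν)} (h : ESat E) : QSat (qOf E) := by
  obtain ⟨x, h⟩ := h
  unfold QSat qOf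
  generalize bZ E.length = b
  obtain ⟨γ, g0, g1, g2⟩ : ∃ γ : ℝ, 0 < γ ∧ γ ≤ 1 / 4 ∧
      ∀ v ∈ E.flatMap fun e => [e.1, e.2.1, e.2.2.1, e.2.2.2.1], (2 * |x v| + 1) * γ < 1 := by
    generalize (E.flatMap fun e => [e.1, e.2.1, e.2.2.1, e.2.2.2.1]) = V
    induction V with
    | nil => exact ⟨1 / 4, by norm_num, le_rfl, by simp⟩
    | cons v V ih =>
      obtain ⟨γ, g0, g1, g2⟩ := ih
      have p : 0 < 2 * |x v| + 2 := by positivity
      refine ⟨min γ (2 * |x v| + 2)⁻¹, lt_min g0 (inv_pos.2 p), (min_le_left _ _).trans g1, ?_⟩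
      intro w hw
      rcases List.mem_cons.1 hw with rfl | hw
      · refine (mul_le_mul_of_nonneg_left (min_le_right _ _) (by positivity)).trans_lt ?_
        rw [mul_inv_lt_iff₀ p]; linarith only [g0, g1]
      · exact (mul_le_mul_of_nonneg_left (min_le_left _ _) (by positivity)).trans_lt (g2 w hw)
  have c0 : ∀ i : ℕ, 0 < γ ^ 3 ^ i := fun i => pow_pos g0 _
  have c1 : ∀ i : ℕ, γ ^ 3 ^ i ≤ γ := fun i => by
    have := pow_le_pow_of_le_one g0.le (by linarith) (Nat.one_le_pow i 3 (by norm_num))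
    rwa [pow_one] at this
  let P : ν × Bool → ℝ := fun p => cond p.2 (x p.1 + |x p.1| + 1) (|x p.1| + 1)
  have P1 : ∀ p, 1 ≤ P p := by
    rintro ⟨v, _ | _⟩
    · exact le_add_of_nonneg_left (abs_nonneg _)
    · exact le_add_of_nonneg_left (by linarith only [neg_abs_le (x v)])
  have P2 : ∀ v, P (v, true) = P (v, false) + x v := fun v => by simp only [P, cond]; ring
  have P3 : ∀ v s, P (v, s) ≤ 2 * |x v| + 1 := by
    rintro v (_ | _) <;> simp only [P, cond] <;> linarith only [abs_nonneg (x v), le_abs_self (x v)]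
  clear_value P
  set τ := γ ^ 3 ^ (2 * b) with hτ
  have τ0 : 0 < τ := c0 _
  have τ1 : τ ≤ γ := c1 _
  refine ⟨Sum.elim P (Sum.elim (fun i => if i = 0 then 1 else γ ^ 3 ^ (i - 1)) fun k =>
    [P (k.1.1, true) * P (k.1.2.1, true) + τ / 8, P (k.1.1, false) * P (k.1.2.1, false) + τ / 8,
     P (k.1.1, true) * P (k.1.2.1, false) + τ / 8, P (k.1.1, false) * P (k.1.2.1, true) + τ / 8,
     P (k.1.1, true) * P (k.1.2.1, true) - τ / 8, P (k.1.1, false) * P (k.1.2.1, false) - τ / 8,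
     P (k.1.1, true) * P (k.1.2.1, false) - τ / 8,
     P (k.1.1, false) * P (k.1.2.1, true) - τ / 8].getD k.2 0), fun c hc => ?_, fun c hc => ?_⟩
  · rcases List.mem_cons.1 hc with rfl | hc
    · simp [CmpH]; linarith only [g0, g1]
    obtain ⟨e, he, hc⟩ := List.mem_flatMap.1 hc
    refine (qCmp_iff _ b e).2 ?_ c hc
    have := h e he
    unfold ev at this
    simp only [elim_inl, elim_inr, List.getD_cons_zero, List.getD_cons_succ, P2, if_true,
      Nat.add_eq_zero_iff, one_ne_zero, and_false, if_false, Nat.add_sub_cancel, ← hτ, mul_one]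
    constructor <;> linarith only [τ0, this]
  · rcases List.mem_append.1 hc with hc | hc
    · obtain ⟨i, -, rfl⟩ := List.mem_map.1 hc
      simp only [PrdH, elim_inr, elim_inl, Nat.add_eq_zero_iff, one_ne_zero, and_false, if_false,
        Nat.add_sub_cancel, if_true, OfNat.ofNat_ne_zero, mul_one]
      refine ⟨c0 _, c0 _, c0 _, one_pos, ?_⟩
      rw [show i + 2 - 1 = i + 1 from rfl, pow_succ, pow_mul]
      have := mul_pos (c0 i) (c0 i)
      linarith only [this, g1, c1, c1 i, mul_nonneg_of_nonpos_of_nonpos (Mathlib.Tactic.Linarith.sub_nonpos_of_le (mul_self_nonneg (γ ^ (3 : ℕ) ^ i))) (Mathlib.Tactic.Linarith.sub_nonpos_of_le g1), mul_nonneg_of_nonpos_of_nonpos (Mathlib.Tactic.Linarith.sub_nonpos_of_le (mul_self_nonneg (γ ^ (3 : ℕ) ^ i))) (Mathlib.Tactic.Linarith.sub_nonpos_of_le (c1 i))]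
    obtain ⟨e, he, hc⟩ := List.mem_flatMap.1 hc
    rcases List.mem_append.1 hc with hc | hc
    · obtain ⟨v, hv, hc⟩ := List.mem_flatMap.1 hc
      have k := g2 v (List.mem_flatMap.2 ⟨e, he, hv⟩)
      have k' : ∀ s, P (v, s) * γ ^ 3 ^ b < 1 := fun s =>
        (mul_le_mul (P3 v s) (c1 b) (c0 b).le (by positivity)).trans_lt k
      simp only [List.mem_cons, List.not_mem_nil, or_false] at hc
      rcases hc with rfl | rfl <;>
      simp only [PrdH, elim_inr, elim_inl, Nat.add_eq_zero_iff, one_ne_zero, and_false, if_false,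
        Nat.add_sub_cancel, if_true, mul_one] <;>
      exact ⟨one_pos, one_pos, one_pos.trans_le (P1 _), c0 _, k' _⟩
    · have m : ∀ p q, 1 ≤ P p * P q := fun p q => one_le_mul_of_one_le_of_one_le (P1 p) (P1 q)
      have p : ∀ p, 0 < P p := fun p => one_pos.trans_le (P1 _)
      simp only [List.mem_cons, List.not_mem_nil, or_false] at hc
      rcases hc with rfl | rfl | rfl | rfl | rfl | rfl | rfl | rfl <;>
      simp only [PrdH, elim_inr, elim_inl, if_true, mul_one, List.getD_cons_zero,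
        List.getD_cons_succ]
      iterate 4 exact ⟨add_pos (mul_pos (p _) (p _)) (by linarith only [τ0]), one_pos, p _, p _, by linarith only [τ0]⟩
      iterate 4 exact ⟨p _, p _, sub_pos.2 (lt_of_lt_of_le (by linarith only [g0, g1, τ1]) (m _ _)), one_pos,
        by linarith only [τ0]⟩

end Pool.Agent.Work.MP_fae5c8_lc.ER
end

-- merged part: Pool.Agent.Work.MP_fae5c8_lc.ER.Window
section
/-! Among nine consecutive windows there is one on which the decision boundary is the graph of a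
function whose second derivative is monotone and keeps its sign. -/

namespace Pool.Agent.Work.MP_fae5c8_lc.ER

open Set

theorem mixed_diff {g g' g'' : ℝ → ℝ} {lo hi : ℝ}
    (h1 : ∀ t ∈ Ioo lo hi, HasDerivAt g (g' t) t) (h2 : ∀ t ∈ Ioo lo hi, HasDerivAt g' (g'' t) t)
    {z a p : ℝ} (ha : 0 < a) (hp : 0 < p) (hlo : lo < z) (hhi : z + a + p < hi) :
    ∃ ζ ∈ Ioo z (z + a + p), g z + g (z + a + p) - g (z + a) - g (z + p) = a * p * g'' ζ := by
  have hd : ∀ x ∈ Icc z (z + p),
      HasDerivAt (fun x => g (x + a) - g x) (g' (x + a) - g' x) x := fun x hx =>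
    ((h1 (x + a) ⟨by linarith [hx.1], by linarith [hx.2]⟩).comp_add_const x a).sub
      (h1 x ⟨by linarith [hx.1], by linarith [hx.2]⟩)
  obtain ⟨ξ, hξ, e⟩ := exists_hasDerivAt_eq_slope (fun x => g (x + a) - g x)
    (fun x => g' (x + a) - g' x) (show z < z + p by linarith)
    (fun x hx => (hd x hx).continuousAt.continuousWithinAt) fun x hx => hd x (Ioo_subset_Icc_self hx)
  have hd' : ∀ x ∈ Icc ξ (ξ + a), HasDerivAt g' (g'' x) x := fun x hx =>
    h2 x ⟨by linarith [hx.1, hξ.1], by linarith [hx.2, hξ.2]⟩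
  obtain ⟨ζ, hζ, e'⟩ := exists_hasDerivAt_eq_slope g' g'' (show ξ < ξ + a by linarith)
    (fun x hx => (hd' x hx).continuousAt.continuousWithinAt)
    fun x hx => hd' x (Ioo_subset_Icc_self hx)
  refine ⟨ζ, ⟨by linarith [hζ.1, hξ.1], by linarith only [hζ, hξ, hζ.2, hξ.2]⟩, ?_⟩
  rw [add_sub_cancel_left, eq_div_iff hp.ne', show z + p + a = z + a + p by ring] at e
  rw [add_sub_cancel_left, eq_div_iff ha.ne'] at e'
  linear_combination (-1 : ℝ) * e - p * e'

/-- constant sign on a set -/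
def Window_Sg (f : ℝ → ℝ) (s : Set ℝ) : Prop :=
  (∀ t ∈ s, f t = 0) ∨ (∀ t ∈ s, 0 < f t) ∨ ∀ t ∈ s, f t < 0

theorem Window_mul {f g h : ℝ → ℝ} {s : Set ℝ} (a : Window_Sg f s) (b : Window_Sg g s)
    (e : ∀ t ∈ s, h t = f t * g t) : Window_Sg h s := by
  rcases a with a | a | a <;> rcases b with b | b | b
  · exact .inl fun t ht => by rw [e t ht, a t ht, zero_mul]
  · exact .inl fun t ht => by rw [e t ht, a t ht, zero_mul]
  · exact .inl fun t ht => by rw [e t ht, a t ht, zero_mul]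
  · exact .inl fun t ht => by rw [e t ht, b t ht, mul_zero]
  · exact .inr (.inl fun t ht => by rw [e t ht]; exact mul_pos (a t ht) (b t ht))
  · exact .inr (.inr fun t ht => by rw [e t ht]; exact mul_neg_of_pos_of_neg (a t ht) (b t ht))
  · exact .inl fun t ht => by rw [e t ht, b t ht, mul_zero]
  · exact .inr (.inr fun t ht => by rw [e t ht]; exact mul_neg_of_neg_of_pos (a t ht) (b t ht))
  · exact .inr (.inl fun t ht => by rw [e t ht]; exact mul_pos_of_neg_of_neg (a t ht) (b t ht))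

theorem Window_of_ne {f : ℝ → ℝ} {lo hi : ℝ} (hf : Continuous f) (h : ∀ t ∈ Ioo lo hi, f t ≠ 0) :
    Window_Sg f (Ioo lo hi) := by
  by_cases a : ∀ t ∈ Ioo lo hi, 0 < f t
  · exact .inr (.inl a)
  refine .inr (.inr fun t ht => ?_)
  push Not at a
  obtain ⟨s, hs, a⟩ := a
  by_contra b
  obtain ⟨u, hu, e⟩ := isPreconnected_Ioo.intermediate_value hs ht hf.continuousOn
    ⟨a, not_lt.1 b⟩
  exact h u hu e

theorem Window_root (q : Polynomial ℝ) (hq : q ≠ 0) (hd : q.natDegree ≤ 8) (G : ℕ → ℝ)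
    (hG : ∀ w < 9, G w < G (w + 1)) :
    ∃ w < 9, ∀ t ∈ Ioo (G w) (G (w + 1)), q.eval (Real.exp t) ≠ 0 := by
  by_contra n
  push Not at n
  choose! T hT hT' using n
  have mono : ∀ i j, i ≤ j → j ≤ 9 → G i ≤ G j := by
    intro i j e
    induction j, e using Nat.le_induction with
    | base => exact fun _ => le_rfl
    | succ j _ ih => exact fun f => (ih (by omega)).trans (hG j (by omega)).le
  have sm : StrictMono fun i : Fin 9 => Real.exp (T i) := fun i j e =>
    Real.exp_lt_exp.2 ((hT i i.2).2.trans_le ((mono _ _ e j.2.le).trans (hT j j.2).1.le))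
  exact hq (Polynomial.eq_zero_of_natDegree_lt_card_of_eval_eq_zero q sm.injective
    (fun i => hT' i i.2) (by rw [Fintype.card_fin]; omega))

open Classical in
theorem Window_ex (p₁ p₂ p₃ p₄ : Polynomial ℝ) (d₁ : p₁.natDegree ≤ 1) (d₂ : p₂.natDegree ≤ 1)
    (d₃ : p₃.natDegree ≤ 2) (d₄ : p₄.natDegree ≤ 4) (G : ℕ → ℝ)
    (hG : ∀ w < 9, G w < G (w + 1)) : ∃ w < 9, ∀ p, p = p₁ ∨ p = p₂ ∨ p = p₃ ∨ p = p₄ →
      Window_Sg (fun t => p.eval (Real.exp t)) (Ioo (G w) (G (w + 1))) := by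
  let u : Polynomial ℝ → Polynomial ℝ := fun p => if p = 0 then 1 else p
  have u0 : ∀ p, u p ≠ 0 := fun p => by
    simp only [u]
    split_ifs with h
    exacts [one_ne_zero, h]
  have ud : ∀ p, (u p).natDegree ≤ p.natDegree := fun p => by
    simp only [u]
    split_ifs with h
    exacts [by simp, le_rfl]
  obtain ⟨w, hw, h⟩ := Window_root (u p₁ * u p₂ * u p₃ * u p₄)
    (mul_ne_zero (mul_ne_zero (mul_ne_zero (u0 _) (u0 _)) (u0 _)) (u0 _)) (by
      have h₁ := Polynomial.natDegree_mul_le (p := u p₁ * u p₂ * u p₃) (q := u p₄)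
      have h₂ := Polynomial.natDegree_mul_le (p := u p₁ * u p₂) (q := u p₃)
      have h₃ := Polynomial.natDegree_mul_le (p := u p₁) (q := u p₂)
      have := ud p₁
      have := ud p₂
      have := ud p₃
      have := ud p₄
      omega) G hG
  refine ⟨w, hw, fun p hp => ?_⟩
  by_cases e : p = 0
  · exact .inl fun t _ => by simp [e]
  refine Window_of_ne (p.continuous.comp Real.continuous_exp) fun t ht f => h t ht ?_
  have : (u p).eval (Real.exp t) = 0 := by simpa only [u, if_neg e] using f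
  simp only [Polynomial.eval_mul]
  rcases hp with rfl | rfl | rfl | rfl <;> simp [this]

theorem Window_d0 (A B t : ℝ) : HasDerivAt (fun t => A * Real.exp t + B) (A * Real.exp t) t :=
  ((Real.hasDerivAt_exp t).const_mul A).add_const B

theorem Window_d1 {A B t : ℝ} (h : A * Real.exp t + B ≠ 0) :
    HasDerivAt (fun t => Real.log (A * Real.exp t + B)) (A * Real.exp t / (A * Real.exp t + B)) t :=
  (Window_d0 A B t).log h

theorem Window_d2 {A B t : ℝ} (h : A * Real.exp t + B ≠ 0) :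
    HasDerivAt (fun t => A * Real.exp t / (A * Real.exp t + B))
      (A * B * Real.exp t / (A * Real.exp t + B) ^ 2) t := by
  refine (((Real.hasDerivAt_exp t).const_mul A).fun_div (Window_d0 A B t) h).congr_deriv ?_
  ring

theorem Window_d3 {A B t : ℝ} (h : A * Real.exp t + B ≠ 0) :
    HasDerivAt (fun t => A * B * Real.exp t / (A * Real.exp t + B) ^ 2)
      (A * B * Real.exp t * (B - A * Real.exp t) / (A * Real.exp t + B) ^ 3) t := by
  refine (((Real.hasDerivAt_exp t).const_mul (A * B)).fun_div ((Window_d0 A B t).fun_pow 2)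
    (pow_ne_zero 2 h)).congr_deriv ?_
  have e : B - A * Real.exp t = (A * Real.exp t + B) - 2 * (A * Real.exp t) := by ring
  rw [e]
  generalize A * Real.exp t + B = N at h ⊢
  field_simp
  ring

theorem Window_mono {f f' : ℝ → ℝ} {lo hi : ℝ} (h : ∀ t ∈ Ioo lo hi, HasDerivAt f (f' t) t)
    (s : Window_Sg f' (Ioo lo hi)) : MonotoneOn f (Ioo lo hi) ∨ AntitoneOn f (Ioo lo hi) := by
  have c : ContinuousOn f (Ioo lo hi) := fun t ht => (h t ht).continuousAt.continuousWithinAt
  have d : ∀ t ∈ interior (Ioo lo hi), HasDerivWithinAt f (f' t) (interior (Ioo lo hi)) t :=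
    fun t ht => (h t (interior_subset ht)).hasDerivWithinAt
  rcases s with s | s | s
  · exact .inl (monotoneOn_of_hasDerivWithinAt_nonneg (convex_Ioo _ _) c d
      fun t ht => (s t (interior_subset ht)).ge)
  · exact .inl (monotoneOn_of_hasDerivWithinAt_nonneg (convex_Ioo _ _) c d
      fun t ht => (s t (interior_subset ht)).le)
  · exact .inr (antitoneOn_of_hasDerivWithinAt_nonpos (convex_Ioo _ _) c d
      fun t ht => (s t (interior_subset ht)).le)

theorem Window_log {N R Y : ℝ} (hN : 0 < N) (hR : 0 < R) :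
    (0 < N - Real.exp Y * R → Y < Real.log N - Real.log R) ∧
      (N - Real.exp Y * R < 0 → Real.log N - Real.log R < Y) := by
  rw [← Real.log_div hN.ne' hR.ne', Real.lt_log_iff_exp_lt (div_pos hN hR),
    Real.log_lt_iff_lt_exp (div_pos hN hR), lt_div_iff₀ hR, div_lt_iff₀ hR]
  exact ⟨fun h => by linarith, fun h => by linarith⟩

/-- the analytic part on a window where both linear forms have the same sign -/
theorem Window_core {A B D E lo hi : ℝ} (ε : ℝ)
    (h : ∀ t ∈ Ioo lo hi, 0 < (A * Real.exp t + B) * (D * Real.exp t + E))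
    (s₃ : Window_Sg (fun t => A * B * (D * Real.exp t + E) ^ 2 - D * E * (A * Real.exp t + B) ^ 2)
      (Ioo lo hi))
    (s₄ : Window_Sg (fun t => A * B * (B - A * Real.exp t) * (D * Real.exp t + E) ^ 3 -
      D * E * (E - D * Real.exp t) * (A * Real.exp t + B) ^ 3) (Ioo lo hi)) :
    ∃ g' g'' : ℝ → ℝ, (∀ t ∈ Ioo lo hi, HasDerivAt
      (fun t => ε * (Real.log (A * Real.exp t + B) - Real.log (D * Real.exp t + E))) (g' t) t) ∧
      (∀ t ∈ Ioo lo hi, HasDerivAt g' (g'' t) t) ∧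
      (MonotoneOn g'' (Ioo lo hi) ∨ AntitoneOn g'' (Ioo lo hi)) ∧
      ∀ s ∈ Ioo lo hi, ∀ t ∈ Ioo lo hi, 0 < g'' s → 0 < g'' t := by
  have hN : ∀ t ∈ Ioo lo hi, A * Real.exp t + B ≠ 0 := fun t ht =>
    left_ne_zero_of_mul (h t ht).ne'
  have hR : ∀ t ∈ Ioo lo hi, D * Real.exp t + E ≠ 0 := fun t ht =>
    right_ne_zero_of_mul (h t ht).ne'
  have sε : Window_Sg (fun _ => ε) (Ioo lo hi) := by
    rcases lt_trichotomy ε 0 with e | e | e
    exacts [.inr (.inr fun _ _ => e), .inl fun _ _ => e, .inr (.inl fun _ _ => e)]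
  have sp : ∀ k : ℕ, Window_Sg
      (fun t => ε * (Real.exp t / ((A * Real.exp t + B) * (D * Real.exp t + E)) ^ k)) (Ioo lo hi) :=
    fun k => Window_mul sε (.inr (.inl fun t ht =>
      div_pos (Real.exp_pos t) (pow_pos (h t ht) k))) fun _ _ => rfl
  refine ⟨fun t => ε * (A * Real.exp t / (A * Real.exp t + B) -
      D * Real.exp t / (D * Real.exp t + E)),
    fun t => ε * (A * B * Real.exp t / (A * Real.exp t + B) ^ 2 -
      D * E * Real.exp t / (D * Real.exp t + E) ^ 2),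
    fun t ht => ((Window_d1 (hN t ht)).sub (Window_d1 (hR t ht))).const_mul ε,
    fun t ht => ((Window_d2 (hN t ht)).sub (Window_d2 (hR t ht))).const_mul ε,
    Window_mono (fun t ht => ((Window_d3 (hN t ht)).sub (Window_d3 (hR t ht))).const_mul ε)
      (Window_mul (sp 3) s₄ fun t ht => ?_), ?_⟩
  · have h₁ := hN t ht
    have h₂ := hR t ht
    generalize A * Real.exp t + B = N at h₁ ⊢
    generalize D * Real.exp t + E = R at h₂ ⊢
    field_simp
  · have : Window_Sg (fun t => ε * (A * B * Real.exp t / (A * Real.exp t + B) ^ 2 -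
        D * E * Real.exp t / (D * Real.exp t + E) ^ 2)) (Ioo lo hi) :=
      Window_mul (sp 2) s₃ fun t ht => by
        have h₁ := hN t ht
        have h₂ := hR t ht
        generalize A * Real.exp t + B = N at h₁ ⊢
        generalize D * Real.exp t + E = R at h₂ ⊢
        field_simp
    intro s hs t ht e
    rcases this with f | f | f
    exacts [(e.ne' (f s hs)).elim, f t ht, (e.not_gt (f s hs)).elim]

theorem window (c : ℝ × ℝ × ℝ × ℝ) (G : ℕ → ℝ) (hG : ∀ w < 9, G w < G (w + 1)) :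
    ∃ w < 9, (∀ T ∈ Ioo (G w) (G (w + 1)), ∀ Y, ¬ Bil c T Y true) ∨
      (∀ T ∈ Ioo (G w) (G (w + 1)), ∀ Y, ¬ Bil c T Y false) ∨
      ∃ (ε : ℝ) (g g' g'' : ℝ → ℝ),
        (∀ t ∈ Ioo (G w) (G (w + 1)), HasDerivAt g (g' t) t) ∧
        (∀ t ∈ Ioo (G w) (G (w + 1)), HasDerivAt g' (g'' t) t) ∧
        (MonotoneOn g'' (Ioo (G w) (G (w + 1))) ∨ AntitoneOn g'' (Ioo (G w) (G (w + 1)))) ∧
        (∀ s ∈ Ioo (G w) (G (w + 1)), ∀ t ∈ Ioo (G w) (G (w + 1)), 0 < g'' s → 0 < g'' t) ∧
        ∀ T ∈ Ioo (G w) (G (w + 1)), ∀ Y,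
          (Bil c T Y true → ε * Y < g T) ∧ (Bil c T Y false → g T < ε * Y) := by
  obtain ⟨c₁, A, c₂, B⟩ := c
  obtain ⟨D, rfl⟩ : ∃ D, c₁ = -D := ⟨-c₁, (neg_neg _).symm⟩
  obtain ⟨E, rfl⟩ : ∃ E, c₂ = -E := ⟨-c₂, (neg_neg _).symm⟩
  have hb : ∀ T Y, bil (-D, A, -E, B) T Y =
      A * Real.exp T + B - Real.exp Y * (D * Real.exp T + E) := fun T Y => by
    simp only [bil]; ring
  have bt : ∀ T Y, Bil (-D, A, -E, B) T Y true ↔
      0 < A * Real.exp T + B - Real.exp Y * (D * Real.exp T + E) := fun T Y => by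
    rw [← hb]; simp [Bil]
  have bf : ∀ T Y, Bil (-D, A, -E, B) T Y false ↔
      A * Real.exp T + B - Real.exp Y * (D * Real.exp T + E) < 0 := fun T Y => by
    rw [← hb]; simp [Bil]
  open Polynomial in
  obtain ⟨w, hw, h⟩ := Window_ex (C A * X + C B) (C D * X + C E)
    (C (A * B) * (C D * X + C E) ^ 2 - C (D * E) * (C A * X + C B) ^ 2)
    (C (A * B) * (C B - C A * X) * (C D * X + C E) ^ 3 -
      C (D * E) * (C E - C D * X) * (C A * X + C B) ^ 3)
    (by compute_degree) (by compute_degree) (by compute_degree) (by compute_degree) G hG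
  have s₁ := h _ (.inl rfl)
  have s₂ := h _ (.inr (.inl rfl))
  have s₃ := h _ (.inr (.inr (.inl rfl)))
  have s₄ := h _ (.inr (.inr (.inr rfl)))
  simp only [Polynomial.eval_add, Polynomial.eval_sub, Polynomial.eval_mul, Polynomial.eval_pow,
    Polynomial.eval_C, Polynomial.eval_X] at s₁ s₂ s₃ s₄
  refine ⟨w, hw, ?_⟩
  have nt : (∀ t ∈ Ioo (G w) (G (w + 1)), A * Real.exp t + B ≤ 0) →
      (∀ t ∈ Ioo (G w) (G (w + 1)), 0 ≤ D * Real.exp t + E) →
      ∀ T ∈ Ioo (G w) (G (w + 1)), ∀ Y, ¬ Bil (-D, A, -E, B) T Y true := fun a b T hT Y => by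
    have := mul_nonneg (Real.exp_pos Y).le (b T hT)
    rw [bt]; linarith only [this, a, hT, a T hT]
  have nf : (∀ t ∈ Ioo (G w) (G (w + 1)), 0 ≤ A * Real.exp t + B) →
      (∀ t ∈ Ioo (G w) (G (w + 1)), D * Real.exp t + E ≤ 0) →
      ∀ T ∈ Ioo (G w) (G (w + 1)), ∀ Y, ¬ Bil (-D, A, -E, B) T Y false := fun a b T hT Y => by
    have := mul_nonpos_of_nonneg_of_nonpos (Real.exp_pos Y).le (b T hT)
    rw [bf]; linarith [a T hT]
  rcases s₁ with s₁ | s₁ | s₁ <;> rcases s₂ with s₂ | s₂ | s₂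
  · exact .inl (nt (fun t ht => (s₁ t ht).le) fun t ht => (s₂ t ht).ge)
  · exact .inl (nt (fun t ht => (s₁ t ht).le) fun t ht => (s₂ t ht).le)
  · exact .inr (.inl (nf (fun t ht => (s₁ t ht).ge) fun t ht => (s₂ t ht).le))
  · exact .inr (.inl (nf (fun t ht => (s₁ t ht).le) fun t ht => (s₂ t ht).le))
  · obtain ⟨g', g'', a, b, c, d⟩ :=
      Window_core 1 (fun t ht => mul_pos (s₁ t ht) (s₂ t ht)) s₃ s₄
    refine .inr (.inr ⟨1, _, g', g'', a, b, c, d, fun T hT Y => ?_⟩)
    rw [bt, bf, one_mul, one_mul]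
    exact Window_log (s₁ T hT) (s₂ T hT)
  · exact .inr (.inl (nf (fun t ht => (s₁ t ht).le) fun t ht => (s₂ t ht).le))
  · exact .inl (nt (fun t ht => (s₁ t ht).le) fun t ht => (s₂ t ht).ge)
  · exact .inl (nt (fun t ht => (s₁ t ht).le) fun t ht => (s₂ t ht).le)
  · obtain ⟨g', g'', a, b, c, d⟩ :=
      Window_core (-1) (fun t ht => mul_pos_of_neg_of_neg (s₁ t ht) (s₂ t ht)) s₃ s₄
    refine .inr (.inr ⟨-1, _, g', g'', a, b, c, d, fun T hT Y => ?_⟩)
    obtain ⟨e, f⟩ := Window_log (Y := Y) (neg_pos.2 (s₁ T hT)) (neg_pos.2 (s₂ T hT))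
    rw [Real.log_neg_eq_log, Real.log_neg_eq_log] at e f
    rw [bt, bf]
    exact ⟨fun i => by linarith only [f, i, f (by linarith)], fun i => by linarith only [e, i, e (by linarith)]⟩

end Pool.Agent.Work.MP_fae5c8_lc.ER
end

-- merged part: Pool.Agent.Work.MP_fae5c8_lc.ER.Prod
section
/-! The product gadget. -/

namespace Pool.Agent.Work.MP_fae5c8_lc.ER

open Sum Set

variable {ν : Type}

/-- The labels of the nine points, as inequalities. -/
def GLab (Lab : ℝ → ℝ → Bool → Prop) (t y : ℕ → ℝ) : Prop :=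
  Lab (t 0) (y 0) true ∧ Lab (t 0 + t 1) (y 0 + y 1) false ∧ Lab (t 0 + t 2) (y 0 + y 2) false ∧
  Lab (t 0 + t 1 + t 2) (y 0 + y 1 + y 2) true ∧
  Lab (t 0 + t 1 + t 2 + t 6) (y 0 + y 1 + y 2 + y 6) true ∧
  Lab (t 3) (y 3) false ∧ Lab (t 3 + t 4) (y 3 + y 4) true ∧ Lab (t 3 + t 5) (y 3 + y 5) true ∧
  Lab (t 3 + t 4 + t 5 + t 6) (y 3 + y 4 + y 5 + y 6) false

/-- The comparisons of the gadget, as inequalities. -/
def GCmp (A P A' P' lo hi : ℝ) (s : Bool) (t : ℕ → ℝ) : Prop :=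
  (0 < t 1 ∧ 0 < t 2 ∧ t 1 < A ∧ t 2 < P ∧ A' < t 4 ∧ P' < t 5 ∧ 0 < A' ∧ 0 < P') ∧
  cond s (lo < t 3 ∧ t 6 < 0 ∧ 0 < t 4 + t 5 + t 6 ∧ t 3 + t 4 + t 5 < t 0 ∧ t 0 + t 1 + t 2 < hi)
    (lo < t 0 ∧ 0 < t 6 ∧ t 0 + t 1 + t 2 + t 6 < t 3 ∧ t 3 + t 4 + t 5 + t 6 < hi)

theorem gPnt_iff (Lab : ℝ → ℝ → Bool → Prop) (τ υ : PN ν → ℝ) (c : Prd ν) (w : ℕ) (s : Bool) :
    (∀ p ∈ gPnt c w s, Lab (sm τ p.1) (sm υ p.1) p.2) ↔
      GLab Lab (fun i => τ (inr (c, w, s, i))) fun i => υ (inr (c, w, s, i)) := by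
  simp [gPnt, GLab, add_assoc]

theorem gCmp_iff (τ : PN ν → ℝ) (c : Prd ν) (w : ℕ) (s : Bool) :
    (∀ k ∈ gCmp c w s, CmpH τ k) ↔
      GCmp (τ (inl c.1)) (τ (inl c.2.1)) (τ (inl c.2.2.1)) (τ (inl c.2.2.2))
        (τ (inr (c, w, false, 7))) (τ (inr (c, w + 1, false, 7))) s
        fun i => τ (inr (c, w, s, i)) := by
  cases s <;> simp [gCmp, GCmp, CmpH, add_assoc, and_assoc]

theorem prod_core {Lab : ℝ → ℝ → Bool → Prop} {lo hi ε : ℝ} {g g' g'' : ℝ → ℝ}
    (h1 : ∀ t ∈ Ioo lo hi, HasDerivAt g (g' t) t) (h2 : ∀ t ∈ Ioo lo hi, HasDerivAt g' (g'' t) t)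
    (h3 : ∀ s ∈ Ioo lo hi, ∀ t ∈ Ioo lo hi, 0 < g'' s → 0 < g'' t)
    (h4 : ∀ T ∈ Ioo lo hi, ∀ Y, (Lab T Y true → ε * Y < g T) ∧ (Lab T Y false → g T < ε * Y))
    {A P A' P' : ℝ} {s : Bool} {t y : ℕ → ℝ} (hc : GCmp A P A' P' lo hi s t) (hl : GLab Lab t y)
    (hm : cond s (AntitoneOn g'' (Ioo lo hi)) (MonotoneOn g'' (Ioo lo hi))) :
    A' * P' < A * P := by
  obtain ⟨⟨c1, c2, c3, c4, c5, c6, c7, c8⟩, hc⟩ := hc
  obtain ⟨l1, l2, l3, l4, l5, l6, l7, l8, l9⟩ := hl
  have r : lo < t 0 ∧ t 0 + t 1 + t 2 < hi ∧ lo < t 3 ∧ t 3 + t 4 + t 5 < hi ∧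
      lo < t 0 + t 1 + t 2 + t 6 ∧ t 0 + t 1 + t 2 + t 6 < hi ∧ lo < t 3 + t 4 + t 5 + t 6 ∧
      t 3 + t 4 + t 5 + t 6 < hi := by
    cases s
    · obtain ⟨d1, d2, d3, d4⟩ := hc
      refine ⟨?_, ?_, ?_, ?_, ?_, ?_, ?_, ?_⟩ <;> linarith only [d1, c5, c6, c7, c8, d2, d3, d4, c1, c2]
    · obtain ⟨d1, d2, d3, d4, d5⟩ := hc
      refine ⟨?_, ?_, ?_, ?_, ?_, ?_, ?_, ?_⟩ <;> linarith only [c5, c6, c7, c8, d1, d4, d5, c1, c2, d3, d2]
  obtain ⟨r1, r2, r3, r4, r5, r6, r7, r8⟩ := r
  replace l1 := (h4 _ ⟨r1, by linarith⟩ _).1 l1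
  replace l2 := (h4 _ ⟨by linarith, by linarith⟩ _).2 l2
  replace l3 := (h4 _ ⟨by linarith, by linarith⟩ _).2 l3
  replace l4 := (h4 _ ⟨by linarith, r2⟩ _).1 l4
  replace l5 := (h4 _ ⟨r5, r6⟩ _).1 l5
  replace l6 := (h4 _ ⟨r3, by linarith only [c5, c6, c7, c8, r4]⟩ _).2 l6
  replace l7 := (h4 _ ⟨by linarith, by linarith only [c6, c8, r4]⟩ _).1 l7
  replace l8 := (h4 _ ⟨by linarith only [c6, c8, r3], by linarith only [c5, c7, r4]⟩ _).1 l8
  replace l9 := (h4 _ ⟨r7, r8⟩ _).2 l9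
  obtain ⟨ζ, hζ, e1⟩ := mixed_diff h1 h2 c1 c2 r1 r2
  obtain ⟨ξ, hξ, e2⟩ := mixed_diff h1 h2 (c7.trans c5) (c8.trans c6) r3 r4
  have mζ : ζ ∈ Ioo lo hi := ⟨r1.trans hζ.1, hζ.2.trans r2⟩
  have mξ : ξ ∈ Ioo lo hi := ⟨r3.trans hξ.1, hξ.2.trans r4⟩
  have p1 : 0 < g'' ζ := (pos_iff_pos_of_mul_pos (a := t 1 * t 2) (by linarith only [l1, l2, l3, l4, e1])).1 (mul_pos c1 c2)
  have k : g (t 0 + t 1 + t 2 + t 6) - g (t 0 + t 1 + t 2) <
      g (t 3 + t 4 + t 5 + t 6) - g (t 3 + t 4 + t 5) ∧ g'' ζ ≤ g'' ξ := by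
    cases s
    · obtain ⟨d1, d2, d3, d4⟩ := hc
      obtain ⟨η, hη, e3⟩ := mixed_diff h1 h2 (z := t 0 + t 1 + t 2) (a := t 6)
        (p := t 3 + t 4 + t 5 - (t 0 + t 1 + t 2)) d2 (by linarith only [c5, c6, c7, c8, d2, d3]) (by linarith only [c1, c2, r1]) (by linarith only [r8])
      have := mul_pos (mul_pos d2 (show 0 < t 3 + t 4 + t 5 - (t 0 + t 1 + t 2) by linarith only [c5, c6, c7, c8, d2, d3]))
        (h3 ζ mζ η ⟨by linarith only [c1, c2, r1, hη, hη.1], by linarith only [r8, hη, hη.2]⟩ p1)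
      rw [show t 0 + t 1 + t 2 + t 6 + (t 3 + t 4 + t 5 - (t 0 + t 1 + t 2)) =
        t 3 + t 4 + t 5 + t 6 by ring, add_sub_cancel] at e3
      exact ⟨by linarith only [e3, this], hm mζ mξ (by linarith only [d2, d3, hζ, hξ, hζ.2, hξ.1])⟩
    · obtain ⟨d1, d2, d3, d4, d5⟩ := hc
      obtain ⟨η, hη, e3⟩ := mixed_diff h1 h2 (z := t 3 + t 4 + t 5 + t 6) (a := -t 6)
        (p := t 0 + t 1 + t 2 - (t 3 + t 4 + t 5)) (by linarith only [d2]) (by linarith only [c1, c2, d4]) (by linarith only [r3, d3])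
        (by linarith only [r2])
      have := mul_pos (mul_pos (neg_pos.2 d2)
        (show 0 < t 0 + t 1 + t 2 - (t 3 + t 4 + t 5) by linarith only [c1, c2, d4]))
        (h3 ζ mζ η ⟨by linarith only [r3, d3, hη, hη.1], by linarith only [r2, hη, hη.2]⟩ p1)
      rw [show t 3 + t 4 + t 5 + t 6 + (t 0 + t 1 + t 2 - (t 3 + t 4 + t 5)) =
        t 0 + t 1 + t 2 + t 6 by ring, add_neg_cancel_right, add_sub_cancel] at e3
      exact ⟨by linarith only [e3, this], hm mξ mζ (by linarith only [d4, hζ, hξ, hζ.1, hξ.2])⟩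
  have k1 : t 4 * t 5 * g'' ξ < t 1 * t 2 * g'' ζ := by linarith only [l1, l2, l3, l5, l6, l7, l8, l9, e1, e2, k, k.1]
  have k2 := mul_le_mul_of_nonneg_left k.2 (mul_pos (c7.trans c5) (c8.trans c6)).le
  have k3 : t 4 * t 5 < t 1 * t 2 := lt_of_mul_lt_mul_right (k2.trans_lt k1) p1.le
  exact (mul_lt_mul'' c5 c6 c7.le c8.le).trans (k3.trans (mul_lt_mul'' c3 c4 c1.le c2.le))

theorem pOf_sound {b : ℝ × ℝ × ℝ × ℝ} {Q : List (Cmp ν) × List (Prd ν)}
    (h : PSat (Bil b) (pOf Q)) : QSat Q := by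
  obtain ⟨τ, υ, h1, h2⟩ := h
  refine ⟨fun a => τ (inl a), fun c hc => ?_, fun c hc => ?_⟩
  · simpa only [CmpH, sm_map] using h1 _ (List.mem_append_left _ (List.mem_map_of_mem hc))
  have k1 : ∀ w < 9, ∀ s, _ := fun w hw s => (gCmp_iff τ c w s).1 fun k hk =>
    h1 k (List.mem_append_right _ (List.mem_flatMap.2 ⟨c, hc, List.mem_flatMap.2
      ⟨w, List.mem_range.2 hw, by cases s <;> simp [hk]⟩⟩))
  have k2 : ∀ w < 9, ∀ s, _ := fun w hw s => (gPnt_iff (Bil b) τ υ c w s).1 fun k hk =>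
    h2 k (List.mem_flatMap.2 ⟨c, hc, List.mem_flatMap.2
      ⟨w, List.mem_range.2 hw, by cases s <;> simp [hk]⟩⟩)
  obtain ⟨⟨c1, c2, c3, c4, -, -, c7, c8⟩, -⟩ := k1 0 (by norm_num) false
  refine ⟨c1.trans c3, c2.trans c4, c7, c8, ?_⟩
  obtain ⟨w, hw, H⟩ := window b (fun w => τ (inr (c, w, false, 7))) fun w hw => by
    obtain ⟨⟨c1, c2, c3, c4, c5, c6, c7, c8⟩, d1, d2, d3, d4⟩ := k1 w hw false
    linarith
  obtain ⟨⟨c1, c2, c3, c4, c5, c6, c7, c8⟩, d1, d2, d3, d4⟩ := k1 w hw false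
  rcases H with H | H | ⟨ε, g, g', g'', H1, H2, H3 | H3, H4, H5⟩
  · exact absurd (k2 w hw false).1 (H _ ⟨d1, by linarith⟩ _)
  · exact absurd (k2 w hw false).2.1 (H _ ⟨by linarith only [c1, d1], by linarith⟩ _)
  · exact prod_core H1 H2 H4 H5 (k1 w hw false) (k2 w hw false) H3
  · exact prod_core H1 H2 H4 H5 (k1 w hw true) (k2 w hw true) H3

/-- Heights for the nine points on the parabola. -/
theorem prod_heights (t : ℕ → ℝ) (h0 : 0 < t 1 * t 2)
    (h : (t 3 + t 4 + t 5 - (t 0 + t 1 + t 2)) * t 6 < t 1 * t 2 - t 4 * t 5) :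
    ∃ y, GLab Par t y := by
  obtain ⟨ε, e0, e1, e2⟩ : ∃ ε : ℝ, 0 < ε ∧ 4 * ε ≤ t 1 * t 2 ∧ 4 * ε ≤
      t 1 * t 2 - t 4 * t 5 - (t 3 + t 4 + t 5 - (t 0 + t 1 + t 2)) * t 6 := by
    have k : ∀ a b : ℝ, 0 < a → 0 < b → ∃ ε : ℝ, 0 < ε ∧ 4 * ε ≤ a ∧ 4 * ε ≤ b := fun a b ha hb =>
      ⟨min a b / 4, div_pos (lt_min ha hb) (by norm_num), by linarith only [min_le_left a b],
        by linarith [min_le_right a b]⟩
    exact k _ _ h0 (by linarith)
  refine ⟨fun i => [t 0 ^ 2 - ε, (t 0 + t 1) ^ 2 - t 0 ^ 2 + 2 * ε, (t 0 + t 2) ^ 2 - t 0 ^ 2 + 2 * ε,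
    t 3 ^ 2 + ε, (t 3 + t 4) ^ 2 - t 3 ^ 2 - 2 * ε, (t 3 + t 5) ^ 2 - t 3 ^ 2 - 2 * ε,
    2 * t 1 * t 2 - 4 * ε + 2 * (t 0 + t 1 + t 2) * t 6 + t 6 ^ 2].getD i 0, ?_⟩
  simp only [GLab, Par, if_true, Bool.false_eq_true, if_false, List.getD_cons_zero,
    List.getD_cons_succ]
  refine ⟨?_, ?_, ?_, ?_, ?_, ?_, ?_, ?_, ?_⟩ <;> linarith only [e0, e1, e2]

theorem prod_complete {A P A' P' : ℝ} (hA : 0 < A) (hP : 0 < P) (hA' : 0 < A') (hP' : 0 < P')
    (h : A' * P' < A * P) : ∃ W : ℝ, ∀ (lo : ℝ) (s : Bool), ∃ t y : ℕ → ℝ,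
      GCmp A P A' P' lo (lo + W) s t ∧ GLab Par t y := by
  obtain ⟨δ, d0, d1, d2, d3⟩ : ∃ δ : ℝ, 0 < δ ∧ δ < A ∧ δ < P ∧
      (A' + δ) * (P' + δ) < (A - δ) * (P - δ) := by
    have hS : 0 < A + P + A' + P' := by linarith
    refine ⟨min (min (A / 2) (P / 2)) ((A * P - A' * P') / (A + P + A' + P') / 2), ?_, ?_, ?_, ?_⟩
    · exact lt_min (lt_min (by linarith only [hA]) (by linarith)) (half_pos (div_pos (by linarith) hS))
    · exact ((min_le_left _ _).trans (min_le_left _ _)).trans_lt (by linarith)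
    · exact ((min_le_left _ _).trans (min_le_right _ _)).trans_lt (by linarith)
    · have k := mul_le_mul_of_nonneg_right (min_le_right (min (A / 2) (P / 2))
        ((A * P - A' * P') / (A + P + A' + P') / 2)) hS.le
      rw [div_mul_eq_mul_div, div_mul_cancel₀ _ hS.ne'] at k
      linarith only [h, k]
  obtain ⟨κ, k0, k1, k2, k3⟩ : ∃ κ : ℝ, 0 < κ ∧ κ < 1 ∧ κ < A' ∧
      (A + P + A' + P' + 1) * κ < (A - δ) * (P - δ) - (A' + δ) * (P' + δ) := by
    have hS : 0 < A + P + A' + P' + 1 := by linarith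
    refine ⟨min (min (1 / 2) (A' / 2)) (((A - δ) * (P - δ) - (A' + δ) * (P' + δ)) /
      (A + P + A' + P' + 1) / 2), ?_, ?_, ?_, ?_⟩
    · exact lt_min (lt_min (by linarith) (by linarith only [hA'])) (half_pos (div_pos (by linarith) hS))
    · exact ((min_le_left _ _).trans (min_le_left _ _)).trans_lt (by linarith)
    · exact ((min_le_left _ _).trans (min_le_right _ _)).trans_lt (by linarith)
    · have k := mul_le_mul_of_nonneg_right (min_le_right (min (1 / 2) (A' / 2))
        (((A - δ) * (P - δ) - (A' + δ) * (P' + δ)) / (A + P + A' + P' + 1) / 2)) hS.le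
      rw [div_mul_eq_mul_div, div_mul_cancel₀ _ hS.ne'] at k
      linarith only [d3, k]
  have m0 : 0 < (A - δ) * (P - δ) := mul_pos (by linarith) (by linarith)
  have m1 := mul_pos k0 (sub_pos.2 d1)
  have m2 := mul_pos k0 (sub_pos.2 d2)
  have m3 := mul_pos k0 hA'
  have m4 := mul_pos k0 hP'
  have m5 := mul_pos k0 d0
  refine ⟨A + P + A' + P' + 4, fun lo s => ?_⟩
  cases s
  · obtain ⟨y, hy⟩ := prod_heights (fun i => [lo + 1, A - δ, P - δ, lo + 2 + (A - δ) + (P - δ),
      A' + δ, P' + δ, κ].getD i 0) m0 (by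
        simp only [List.getD_cons_zero, List.getD_cons_succ]; linarith only [k3, m1, m2])
    refine ⟨_, y, ?_, hy⟩
    simp only [GCmp, cond_false, List.getD_cons_zero, List.getD_cons_succ]
    refine ⟨⟨?_, ?_, ?_, ?_, ?_, ?_, ?_, ?_⟩, ?_, ?_, ?_, ?_⟩ <;> linarith only [d1, d2, d0, k0, k2, hP', k1]
  · obtain ⟨y, hy⟩ := prod_heights (fun i => [lo + 2 + (A' + δ) + (P' + δ), A - δ, P - δ, lo + 1,
      A' + δ, P' + δ, -κ].getD i 0) m0 (by
        simp only [List.getD_cons_zero, List.getD_cons_succ]; linarith only [k3, m3, m4, m5])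
    refine ⟨_, y, ?_, hy⟩
    simp only [GCmp, cond_true, List.getD_cons_zero, List.getD_cons_succ]
    refine ⟨⟨?_, ?_, ?_, ?_, ?_, ?_, ?_, ?_⟩, ?_, ?_, ?_, ?_, ?_⟩ <;> linarith only [d1, d2, d0, k0, k2, hP', k1]

theorem pOf_complete {Q : List (Cmp ν) × List (Prd ν)} (h : QSat Q) : PSat Par (pOf Q) := by
  obtain ⟨x, h1, h2⟩ := h
  have k : ∀ c : Prd ν, ∃ W : ℝ, ∀ (lo : ℝ) (s : Bool), ∃ t y : ℕ → ℝ, c ∈ Q.2 →
      GCmp (x c.1) (x c.2.1) (x c.2.2.1) (x c.2.2.2) lo (lo + W) s t ∧ GLab Par t y := by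
    intro c
    by_cases hc : c ∈ Q.2
    · obtain ⟨a1, a2, a3, a4, a5⟩ := h2 c hc
      obtain ⟨W, hW⟩ := prod_complete a1 a2 a3 a4 a5
      refine ⟨W, fun lo s => ?_⟩
      obtain ⟨t, y, H⟩ := hW lo s
      exact ⟨t, y, fun _ => H⟩
    · exact ⟨0, fun _ _ => ⟨0, 0, fun h => absurd h hc⟩⟩
  choose W t y H using k
  refine ⟨Sum.elim x fun k => if k.2.2.2 = 7 then k.2.1 * W k.1 else
      t k.1 (k.2.1 * W k.1) k.2.2.1 k.2.2.2,
    Sum.elim x fun k => y k.1 (k.2.1 * W k.1) k.2.2.1 k.2.2.2, fun d hd => ?_, fun p hp => ?_⟩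
  · rcases List.mem_append.1 hd with hd | hd
    · obtain ⟨c, hc, rfl⟩ := List.mem_map.1 hd
      simpa only [CmpH, sm_map, elim_inl] using h1 c hc
    obtain ⟨c, hc, hd⟩ := List.mem_flatMap.1 hd
    obtain ⟨w, -, hd⟩ := List.mem_flatMap.1 hd
    obtain ⟨s, hd⟩ : ∃ s, d ∈ gCmp c w s := by
      rcases List.mem_append.1 hd with hd | hd <;> exact ⟨_, hd⟩
    refine (gCmp_iff _ c w s).2 ?_ d hd
    have := (H c (w * W c) s hc).1
    simpa [GCmp, add_mul] using this
  · obtain ⟨c, hc, hp⟩ := List.mem_flatMap.1 hp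
    obtain ⟨w, -, hp⟩ := List.mem_flatMap.1 hp
    obtain ⟨s, hp⟩ : ∃ s, p ∈ gPnt c w s := by
      rcases List.mem_append.1 hp with hp | hp <;> exact ⟨_, hp⟩
    refine (gPnt_iff Par _ _ c w s).2 ?_ p hp
    have := (H c (w * W c) s hc).2
    simpa [GLab] using this

theorem pOf_nodup (Q : List (Cmp ν) × List (Prd ν)) : ∀ p ∈ (pOf Q).2, p.1.Nodup := by
  intro p hp
  obtain ⟨c, -, hp⟩ := List.mem_flatMap.1 hp
  obtain ⟨w, -, hp⟩ := List.mem_flatMap.1 hp
  obtain ⟨s, hp⟩ : ∃ s, p ∈ gPnt c w s := by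
    rcases List.mem_append.1 hp with hp | hp <;> exact ⟨_, hp⟩
  simp only [gPnt, List.mem_cons, List.not_mem_nil, or_false] at hp
  rcases hp with rfl | rfl | rfl | rfl | rfl | rfl | rfl | rfl | rfl <;> simp

end Pool.Agent.Work.MP_fae5c8_lc.ER
end

-- merged part: Pool.Agent.Work.MP_fae5c8_lc.ER.Copy
section
/-! Fresh copies of the compared columns. -/

namespace Pool.Agent.Work.MP_fae5c8_lc.ER

open Sum

variable {ν μ : Type}

theorem copy_le (x : ν → ℝ) (y : μ → ℝ) (l : List ν) (l' : List μ) (hl : l.length = l'.length)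
    (h : ∀ p ∈ l.zip l', x p.1 ≤ y p.2) : sm x l ≤ sm y l' := by
  induction l generalizing l' with
  | nil => cases l' with
    | nil => simp
    | cons _ _ => simp at hl
  | cons a l ih => cases l' with
    | nil => simp at hl
    | cons b l' =>
      have h1 := h (a, b) (by simp)
      have h2 := ih l' (by simpa using hl) fun p hp => h p (by simp [hp])
      simp only [sm_cons]
      linarith only [h1, h2]

theorem copy_ge (x : ν → ℝ) (y : μ → ℝ) (l : List ν) (l' : List μ) (hl : l.length = l'.length)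
    (h : ∀ p ∈ l.zip l', y p.2 ≤ x p.1) : sm y l' ≤ sm x l := by
  induction l generalizing l' with
  | nil => cases l' with
    | nil => simp
    | cons _ _ => simp at hl
  | cons a l ih => cases l' with
    | nil => simp at hl
    | cons b l' =>
      have h1 := h (a, b) (by simp)
      have h2 := ih l' (by simpa using hl) fun p hp => h p (by simp [hp])
      simp only [sm_cons]
      linarith only [h1, h2]

theorem copy_sum (x : ν → ℝ) (l : List ν) (δ : ℝ) :
    sm (fun i => (l.map x).getD i 0 + δ) (List.range l.length) = sm x l + l.length * δ := by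
  induction l using List.reverseRecOn with
  | nil => simp
  | append_singleton l a ih =>
    rw [List.length_append, List.length_singleton, List.range_succ, sm_append, sm_append]
    have : sm (fun i => ((l ++ [a]).map x).getD i 0 + δ) (List.range l.length) =
        sm (fun i => (l.map x).getD i 0 + δ) (List.range l.length) := by
      unfold sm
      congr 1
      refine List.map_congr_left fun i hi => ?_
      rw [List.map_append, List.getD_append _ _ _ _ (by simpa using hi)]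
    rw [this, ih]
    simp
    ring

theorem copy_mem {c : Cmp ν} {s : Bool} {l : List ν} {p : ν × CN ν}
    (h : p ∈ l.zip (cp c s l.length)) (x : ν → ℝ) :
    ∃ i, p.2 = inr (c, s, i) ∧ (l.map x).getD i 0 = x p.1 := by
  obtain ⟨i, hi, rfl⟩ := List.mem_iff_getElem.1 h
  have hi' : i < l.length := by simpa [cp] using hi
  exact ⟨i, by simp [cp], by simp [hi']⟩

theorem cOf_iff (Lab : ℝ → ℝ → Bool → Prop) (P : List (Cmp ν) × List (Pnt ν)) :
    PSat Lab (cOf P) ↔ PSat Lab P := by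
  constructor
  · rintro ⟨τ, υ, h1, h2⟩
    refine ⟨fun a => τ (inl a), fun a => υ (inl a), fun c hc => ?_, fun p hp => ?_⟩
    · have k := fun d hd => h1 d (List.mem_flatMap.2 ⟨c, hc, hd⟩)
      have k0 : sm τ (cp c false c.1.length) < sm τ (cp c true c.2.length) :=
        k _ List.mem_cons_self
      have k1 := copy_le (fun a => τ (inl a)) τ c.1 (cp c false c.1.length) (by simp [cp])
        fun p hp => by
          have := k _ (List.mem_cons_of_mem _ (List.mem_append_left _ (List.mem_map_of_mem hp)))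
          simpa [CmpH] using this.le
      have k2 := copy_ge (fun a => τ (inl a)) τ c.2 (cp c true c.2.length) (by simp [cp])
        fun p hp => by
          have := k _ (List.mem_cons_of_mem _ (List.mem_append_right _ (List.mem_map_of_mem hp)))
          simpa [CmpH] using this.le
      exact k1.trans_lt (k0.trans_le k2)
    · simpa only [sm_map] using h2 _ (List.mem_map_of_mem hp)
  · rintro ⟨τ, υ, h1, h2⟩
    let δ : Cmp ν → ℝ := fun c => (sm τ c.2 - sm τ c.1) / (c.1.length + c.2.length + 1)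
    refine ⟨Sum.elim τ fun k => cond k.2.1 ((k.1.2.map τ).getD k.2.2 0 + -δ k.1)
      ((k.1.1.map τ).getD k.2.2 0 + δ k.1), Sum.elim υ fun _ => 0, fun d hd => ?_, fun p hp => ?_⟩
    · obtain ⟨c, hc, hd⟩ := List.mem_flatMap.1 hd
      have hpos : (0 : ℝ) < c.1.length + c.2.length + 1 := by positivity
      have h0 : 0 < δ c := div_pos (sub_pos.2 (h1 c hc)) hpos
      rcases List.mem_cons.1 hd with rfl | hd
      · simp only [CmpH, cp, sm_map, elim_inr, cond_true, cond_false, copy_sum]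
        have : δ c * (c.1.length + c.2.length + 1) = sm τ c.2 - sm τ c.1 :=
          div_mul_cancel₀ _ hpos.ne'
        linarith only [h0, this]
      rcases List.mem_append.1 hd with hd | hd <;> obtain ⟨p, hp, rfl⟩ := List.mem_map.1 hd <;>
        obtain ⟨i, e1, e2⟩ := copy_mem hp τ <;>
        simp only [CmpH, sm_cons, sm_nil, e1, elim_inl, elim_inr, cond_true, cond_false, e2] <;>
        linarith only [h0]
    · obtain ⟨p', hp', rfl⟩ := List.mem_map.1 hp
      simpa only [sm_map, elim_inl] using h2 p' hp'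

theorem cOf_nodup1 (P : List (Cmp ν) × List (Pnt ν)) : ∀ c ∈ (cOf P).1, (c.1 ++ c.2).Nodup := by
  intro d hd
  obtain ⟨c, -, hd⟩ := List.mem_flatMap.1 hd
  rcases List.mem_cons.1 hd with rfl | hd
  · have k : ∀ s n, (cp c s n).Nodup := fun s n =>
      List.nodup_range.map fun i j h => by simpa using h
    refine List.nodup_append.2 ⟨k _ _, k _ _, ?_⟩
    simp only [cp, List.mem_map]
    rintro _ ⟨i, -, rfl⟩ _ ⟨j, -, rfl⟩
    simp
  rcases List.mem_append.1 hd with hd | hd <;> obtain ⟨p, hp, rfl⟩ := List.mem_map.1 hd <;>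
    obtain ⟨i, e1, -⟩ := copy_mem hp (fun _ => 0) <;> simp [e1]

theorem cOf_nodup2 {P : List (Cmp ν) × List (Pnt ν)} (h : ∀ p ∈ P.2, p.1.Nodup) :
    ∀ p ∈ (cOf P).2, p.1.Nodup := by
  intro p hp
  obtain ⟨p', hp', rfl⟩ := List.mem_map.1 hp
  exact (h p' hp').map inl_injective

end Pool.Agent.Work.MP_fae5c8_lc.ER
end

-- merged part: Pool.Agent.Work.MP_fae5c8_lc.ER.Poly
section
/-! The translations run in polynomial time. -/

namespace Pool.Agent.Work.MP_fae5c8_lc.ER

open Pool.Agent.Lib.Poly Sum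

instance encSum {β γ : Type} [Enc β] [Enc γ] : Enc (β ⊕ γ) :=
  ⟨fun s => s.elim (fun b => false :: Enc.enc b) fun c => true :: Enc.enc c, by
    rintro (a | a) (b | b) h <;> simp only [elim_inl, elim_inr, List.cons.injEq] at h
    · rw [Enc.inj h.2]
    · simp at h
    · simp at h
    · rw [Enc.inj h.2]⟩

variable {α β γ : Type} [Enc α] [Enc β] [Enc γ]

@[fun_prop] theorem pt_inl {f : α → β} (hf : PT f) : PT fun x => (inl (f x) : β ⊕ γ) := by
  have h : PT fun b : β => Raw.mk (Enc.enc b) := PT.cast fun _ => rfl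
  have h2 : PT fun b : β => Raw.mk (false :: Enc.enc b) :=
    PT.rawCons.comp (g := fun b : β => (false, Raw.mk (Enc.enc b))) (by fun_prop)
  exact PT.comp (f := fun b : β => (inl b : β ⊕ γ)) (h2.of_enc (fun b => b) (fun _ => rfl)
    fun _ => rfl) hf

@[fun_prop] theorem pt_inr {f : α → γ} (hf : PT f) : PT fun x => (inr (f x) : β ⊕ γ) := by
  have h : PT fun b : γ => Raw.mk (Enc.enc b) := PT.cast fun _ => rfl
  have h2 : PT fun b : γ => Raw.mk (true :: Enc.enc b) :=
    PT.rawCons.comp (g := fun b : γ => (true, Raw.mk (Enc.enc b))) (by fun_prop)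
  exact PT.comp (f := fun b : γ => (inr b : β ⊕ γ)) (h2.of_enc (fun b => b) (fun _ => rfl)
    fun _ => rfl) hf

@[fun_prop] theorem pt_ar {f : α → ℕ} (hf : PT f) : PT fun x => ar (f x) := by
  unfold ar; fun_prop

@[fun_prop] theorem pt_stk {f : α → List ℕ} {g : α → ℕ} (hf : PT f) (hg : PT g) :
    PT fun x => stk (f x) (g x) := by
  unfold stk
  refine PT.foldl (f := fun a (st : List (ℕ × ℕ)) (i : ℕ) =>
    (i, 0) :: st.drop (ar ((f a).getD i 0))) (by fun_prop) (by fun_prop) (by fun_prop)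
    (fun n => 4 * n + 3) (by fun_prop) fun a c x => ?_
  have := PT.sz_drop_le c (ar ((f a).getD x 0))
  simp only [sz_cons, sz_pair, sz_nat]
  omega

@[fun_prop] theorem pt_gate {o p : α → ℕ} {v A B : α → β ⊕ ℕ × ℕ} (ho : PT o) (hv : PT v)
    (hA : PT A) (hB : PT B) (hp : PT p) : PT fun x => gate (o x) (v x) (A x) (B x) (p x) := by
  unfold gate; fun_prop

theorem pt_eOf : PT fun l : List (ℕ × β) => eOf l := by
  unfold eOf; fun_prop

@[fun_prop] theorem pt_bZ {f : α → ℕ} (hf : PT f) : PT fun x => bZ (f x) := by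
  unfold bZ; fun_prop

@[fun_prop] theorem pt_qCmp {f : α → ℕ} {e : α → Eqn β} (hf : PT f) (he : PT e) :
    PT fun x => qCmp (f x) (e x) := by
  unfold qCmp; fun_prop

@[fun_prop] theorem pt_qPrd {f : α → ℕ} {e : α → Eqn β} (hf : PT f) (he : PT e) :
    PT fun x => qPrd (f x) (e x) := by
  unfold qPrd; fun_prop

theorem pt_qOf : PT fun E : List (Eqn β) => qOf E := by
  unfold qOf; fun_prop

@[fun_prop] theorem pt_gCmp {c : α → Prd β} {w : α → ℕ} (s : Bool) (hc : PT c) (hw : PT w) :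
    PT fun x => gCmp (c x) (w x) s := by
  unfold gCmp; fun_prop

@[fun_prop] theorem pt_gPnt {c : α → Prd β} {w : α → ℕ} (s : Bool) (hc : PT c) (hw : PT w) :
    PT fun x => gPnt (c x) (w x) s := by
  unfold gPnt; fun_prop

theorem pt_pOf : PT fun Q : List (Cmp β) × List (Prd β) => pOf Q := by
  unfold pOf; fun_prop

@[fun_prop] theorem pt_cp {c : α → Cmp β} {n : α → ℕ} (s : Bool) (hc : PT c) (hn : PT n) :
    PT fun x => cp (c x) s (n x) := by
  unfold cp; fun_prop

theorem pt_cOf : PT fun P : List (Cmp β) × List (Pnt β) => cOf P := by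
  unfold cOf; fun_prop

@[fun_prop] theorem pt_rPnt {c : α → Cmp β} (hc : PT c) : PT fun x => rPnt (c x) := by
  unfold rPnt; fun_prop

theorem pt_rOf : PT fun P : List (Cmp β) × List (Pnt β) => rOf P := by
  unfold rOf; fun_prop

theorem pt_fOf : PT fun R : List (Pnt β) => (Bin.mk (fOf R).1, (fOf R).2) := by
  unfold fOf; fun_prop

end Pool.Agent.Work.MP_fae5c8_lc.ER
end

-- merged part: Pool.Agent.Work.MP_fae5c8_lc.ER.Final
section
/-! The existential theory of the reals reduces to the loading problem. -/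

namespace Pool.Agent.Work.MP_fae5c8_lc.ER

open Pool.Agent.Lib.Poly

theorem load_iff_esat {ν : Type} (E : List (Eqn ν)) :
    Loadable (fOf (rOf (cOf (pOf (qOf E))))) ↔ ESat E := by
  rw [fOf_iff (rOf_nodup (cOf_nodup1 _) (cOf_nodup2 (pOf_nodup _)))]
  constructor
  · intro h
    obtain ⟨c, h1, h2⟩ := bil_of_net h
    obtain ⟨c', h3⟩ := rOf_sound h1 h2
    exact qOf_sound (pOf_sound ((cOf_iff _ _).1 h3))
  · intro h
    exact net_of_par (rOf_complete ((cOf_iff _ _).2 (pOf_complete (qOf_complete h))))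

theorem toks_tm_le (t : Tm) : ∀ k ∈ t.toks, k.1 ≤ 10 := by
  induction t <;> simp_all [Tm.toks, or_imp, forall_and] <;> grind

theorem toks_fm_le (p : Fm) : ∀ k ∈ p.toks, k.1 ≤ 10 := by
  have := toks_tm_le
  induction p <;> simp_all [Fm.toks, or_imp, forall_and] <;> grind

/-- A small binary number in unary. -/
def opc (b : Bin) : ℕ := ((List.range 10).filter fun j => (Bin.mk j).lt b).length

theorem opc_mk {n : ℕ} (h : n ≤ 10) : opc (Bin.mk n) = n := by
  interval_cases n <;> decide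

/-- The output of the reduction, with the dimension in binary. -/
noncomputable def out {ν : Type} (R : List (Pnt ν)) : Bin × List (List Bool × Bool) :=
  (Bin.mk (fOf R).1, (fOf R).2)

theorem pt_1 {β : Type} [Enc β] : PT fun P : List (Cmp β) × List (Pnt β) => out (rOf P) :=
  pt_fOf.comp pt_rOf

theorem pt_2 {β : Type} [Enc β] : PT fun P : List (Cmp β) × List (Pnt β) => out (rOf (cOf P)) :=
  pt_1.comp pt_cOf

theorem pt_3 {β : Type} [Enc β] :
    PT fun Q : List (Cmp β) × List (Prd β) => out (rOf (cOf (pOf Q))) :=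
  pt_2.comp pt_pOf

theorem pt_4 {β : Type} [Enc β] : PT fun E : List (Eqn β) => out (rOf (cOf (pOf (qOf E)))) :=
  pt_3.comp pt_qOf

theorem pt_5 {β : Type} [Enc β] :
    PT fun l : List (ℕ × β) => out (rOf (cOf (pOf (qOf (eOf l))))) :=
  pt_4.comp pt_eOf

theorem enc_out {ν : Type} (R : List (Pnt ν)) : enc (out R) = N487b59b3.bitEncode (fOf R) := rfl

theorem etr_to_load : ∃ f : Fm → ℕ × List (List Bool × Bool),
    N68a2faeb.IsPolyTimeWithEncoding fmEnc N487b59b3.toEncoding f ∧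
      ∀ φ, (∀ p ∈ (f φ).2, p.1.length = (f φ).1) ∧ (f φ).2.length ≤ (f φ).1 ∧
        ((∃ x, φ.Holds x) ↔ Loadable (f φ)) := by
  refine ⟨fun φ => fOf (rOf (cOf (pOf (qOf (eOf (φ.toks.map fun t => (t.1, Bin.mk t.2))))))), ?_,
    fun φ => ⟨fOf_length _, fOf_card _, ?_⟩⟩
  · have h0 : PT fun l : List (Bin × Bin) => l.map fun t => (opc t.1, t.2) := by
      unfold opc; fun_prop
    have h := pt_5.comp h0
    refine h.tm2 _ _ _ (fun φ : Fm => φ.toks.map fun t => (Bin.mk t.1, Bin.mk t.2)) ?_ ?_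
    · intro φ
      show _ = N487b59b3.bitEncode φ.toks
      induction φ.toks with
      | nil => rfl
      | cons a l ih => rw [List.map_cons, enc_cons, ih]; rfl
    · intro φ
      have e : ((φ.toks.map fun t => (Bin.mk t.1, Bin.mk t.2)).map fun t => (opc t.1, t.2)) =
          φ.toks.map fun t => (t.1, Bin.mk t.2) := by
        rw [List.map_map]
        exact List.map_congr_left fun t ht => by simp [opc_mk (toks_fm_le φ t ht)]
      rw [e]
      exact enc_out _
  · rw [load_iff_esat, eOf_iff Bin.mk fun _ _ h => by cases h; rfl]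

end Pool.Agent.Work.MP_fae5c8_lc.ER
end
end

-- merged part: Pool.Agent.Work.MP_fae5c8_lc.ER.Class
section
-- merged part: Pool.Agent.Work.MP_fae5c8_lc.ER.Parse
section
/-! Polynomial-time parsing of bit strings. -/

namespace Pool.Agent.Work.MP_fae5c8_lc.ER

open Pool.Agent.Lib.Poly N487b59b3

variable {α : Type} [Enc α]

/-- The length of the first delimited block. -/
def blen (w : List Bool) : ℕ :=
  ((List.range w.length).filter fun i => (List.range (i + 1)).all fun j => w.getD (2 * j) false).length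

def blk (w : List Bool) : List Bool := (List.range (blen w)).map fun i => w.getD (2 * i + 1) false

def rest (w : List Bool) : List Bool := w.drop (2 * blen w + 1)

@[fun_prop] theorem pt_blen {f : α → List Bool} (hf : PT f) : PT fun x => blen (f x) := by
  unfold blen; fun_prop

@[fun_prop] theorem pt_blk {f : α → List Bool} (hf : PT f) : PT fun x => blk (f x) := by
  unfold blk; fun_prop

@[fun_prop] theorem pt_rest {f : α → List Bool} (hf : PT f) : PT fun x => rest (f x) := by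
  unfold rest; fun_prop

theorem delimit_even (a r : List Bool) (j : ℕ) (hj : j ≤ a.length) :
    (delimit a ++ r).getD (2 * j) false = decide (j < a.length) := by
  induction a generalizing j with
  | nil => obtain rfl : j = 0 := by simpa using hj
           rfl
  | cons b a ih =>
    rcases j with _ | j
    · rfl
    · have := ih j (by simpa using hj)
      simpa [delimit, mul_add] using this

theorem delimit_odd (a r : List Bool) (j : ℕ) (hj : j < a.length) :
    (delimit a ++ r).getD (2 * j + 1) false = a[j] := by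
  induction a generalizing j with
  | nil => simp at hj
  | cons b a ih =>
    rcases j with _ | j
    · rfl
    · have := ih j (by simpa using hj)
      simpa [delimit, mul_add] using this

theorem blen_delimit (a r : List Bool) : blen (delimit a ++ r) = a.length := by
  have key : ∀ i, ((List.range (i + 1)).all fun j => (delimit a ++ r).getD (2 * j) false) =
      decide (i < a.length) := by
    intro i
    rw [Bool.eq_iff_iff, List.all_eq_true, decide_eq_true_iff]
    constructor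
    · intro h
      by_contra hi
      have := h a.length (List.mem_range.2 (by omega))
      rw [delimit_even _ _ _ le_rfl] at this
      simp at this
    · intro h j hj
      have := List.mem_range.1 hj
      rw [delimit_even _ _ _ (by omega)]
      simp only [decide_eq_true_iff]; omega
  have k2 : ∀ n m, ((List.range n).filter fun i => decide (i < m)).length = min n m := by
    intro n m
    induction n with
    | zero => simp
    | succ n ih =>
      rw [List.range_succ, List.filter_append, List.length_append, ih]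
      by_cases h : n < m <;> simp [h] <;> omega
  simp only [blen, key, k2, List.length_append, length_delimit]
  omega

theorem blk_delimit (a r : List Bool) : blk (delimit a ++ r) = a := by
  rw [blk, blen_delimit]
  refine List.ext_getElem (by simp) fun i h1 h2 => ?_
  rw [List.getElem_map, List.getElem_range, delimit_odd _ _ _ h2]

theorem rest_delimit (a r : List Bool) : rest (delimit a ++ r) = r := by
  rw [rest, blen_delimit, ← length_delimit, List.drop_left]

def bstep (n : ℕ) (s : List (List Bool) × List Bool) : List (List Bool) × List Bool :=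
  if s.2 = [] then s else (s.1 ++ [(blk s.2).take n], rest s.2)

def blocks (w : List Bool) : List (List Bool) :=
  ((List.range w.length).foldl (fun s _ => bstep w.length s) ([], w)).1

theorem sz_bools (l : List Bool) : sz l = 3 * l.length := by
  induction l with
  | nil => rfl
  | cons b l ih => simp [ih]; omega

@[fun_prop] theorem pt_blocks {f : α → List Bool} (hf : PT f) : PT fun x => blocks (f x) := by
  have : PT fun w : List Bool => blocks w := by
    unfold blocks
    refine PT.fst (PT.foldl (f := fun (w : List Bool) s (_ : ℕ) => bstep w.length s)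
      (by unfold bstep; fun_prop) (by fun_prop) (by fun_prop) (fun n => 4 * n + 2) (by fun_prop)
      fun a c x => ?_)
    obtain ⟨c1, c2⟩ := c
    unfold bstep
    split_ifs
    · omega
    · have h1 := PT.sz_drop_le c2 (2 * blen c2 + 1)
      have h2 := List.length_take_le a.length (blk c2)
      simp only [sz_pair, sz_append, sz_cons, sz_nil, rest, sz_bools] at h1 ⊢
      omega
  exact this.comp hf

theorem blocks_aux (n : ℕ) (L : List ℕ) (l acc : List (List Bool)) (h : l.length ≤ L.length)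
    (hn : ∀ a ∈ l, a.length ≤ n) :
    L.foldl (fun s _ => bstep n s) (acc, (l.map delimit).flatten) = (acc ++ l, []) := by
  induction L generalizing l acc with
  | nil => obtain rfl : l = [] := by simpa using h
           simp
  | cons i L ih =>
    rcases l with _ | ⟨a, l⟩
    · exact ih [] acc (by simp) hn
    · have : delimit a ++ (l.map delimit).flatten ≠ [] := by cases a <;> simp [delimit]
      rw [List.foldl_cons, List.map_cons, List.flatten_cons, bstep, if_neg this, blk_delimit,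
        rest_delimit, List.take_of_length_le (hn a List.mem_cons_self),
        ih l _ (by simpa using h) fun b hb => hn b (List.mem_cons_of_mem _ hb)]
      simp

theorem blocks_enc (l : List α) : blocks (enc l) = l.map enc := by
  have e : enc l = ((l.map enc).map delimit).flatten := rfl
  rw [blocks]
  conv_lhs => enter [1, 2, 2]; rw [e]
  rw [blocks_aux]
  · simp
  · rw [List.length_map, List.length_range]; exact length_le_sz l
  · intro a ha
    obtain ⟨b, hb, rfl⟩ := List.mem_map.1 ha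
    exact sz_le_of_mem hb

theorem ofBits_enc (n : Bin) : Bin.ofBits (enc n) = n := by rw [Bin.ofBits, bv_enc]

/-- Decoding lists of symbols. -/
def decT (w : List Bool) : List (Bin × Bin) :=
  (blocks w).map fun b => (Bin.ofBits (blk b), Bin.ofBits (rest b))

theorem decT_enc (l : List (Bin × Bin)) : decT (enc l) = l := by
  rw [decT, blocks_enc, List.map_map]
  conv_rhs => rw [← List.map_id l]
  refine List.map_congr_left fun t _ => ?_
  obtain ⟨a, b⟩ := t
  simp [enc_pair, blk_delimit, rest_delimit, ofBits_enc]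

theorem pt_decT : PT decT := by unfold decT; fun_prop

/-- Decoding instances of the loading problem. -/
def decI (w : List Bool) : Bin × List (List Bool × Bool) :=
  (Bin.ofBits (blk w), (blocks (rest w)).map fun b =>
    ((blocks (blk b)).map fun u => u.headD false, (rest b).headD false))

theorem decI_enc (I : Bin × List (List Bool × Bool)) : decI (enc I) = I := by
  obtain ⟨k, l⟩ := I
  rw [decI, enc_pair, blk_delimit, rest_delimit, ofBits_enc, blocks_enc, List.map_map]
  congr 1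
  conv_rhs => rw [← List.map_id l]
  refine List.map_congr_left fun t _ => ?_
  obtain ⟨a, b⟩ := t
  simp [enc_pair, blk_delimit, rest_delimit, blocks_enc, enc_bool, Function.comp_def]

theorem pt_decI : PT decI := by unfold decI; fun_prop

/-! ### Recognising formulas -/

def req (o : ℕ) : List Bool :=
  if o ≤ 2 then [] else if o = 5 then [false] else if o = 8 then [true]
  else if o ≤ 7 then [false, false] else [true, true]

open Classical in
noncomputable def tstep (s : Bool × List Bool) (t : Bin × Bin) : Bool × List Bool :=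
  (s.1 && decide (s.2.take (req (opc t.1)).length = req (opc t.1) ∧ Bin.mk (opc t.1) = t.1 ∧
      (opc t.1 = 0 ∨ t.2 = Bin.mk 0)),
    decide (6 ≤ opc t.1) :: s.2.drop (req (opc t.1)).length)

theorem pt_tc : PT fun l : List (Bin × Bin) => l.foldl tstep (true, []) := by
  refine PT.foldl (f := fun _ s t => tstep s t) (by unfold tstep req opc; fun_prop) (by fun_prop)
    (by fun_prop) (fun _ => 3) (by fun_prop) fun a c x => ?_
  obtain ⟨c1, c2⟩ := c
  have := PT.sz_drop_le c2 (req (opc x.1)).length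
  simp only [tstep, sz_pair, sz_cons, sz_bool]
  omega

theorem tstep_mk (s : Bool × List Bool) {o : ℕ} (h : o ≤ 10) (i : ℕ) :
    tstep s (Bin.mk o, Bin.mk i) = (s.1 && decide (s.2.take (req o).length = req o ∧
      (o = 0 ∨ i = 0)), decide (6 ≤ o) :: s.2.drop (req o).length) := by
  simp [tstep, opc_mk h]

theorem tc_tm (t : Tm) (b : Bool) (st : List Bool) :
    (ToEtrB t.toks).foldl tstep (b, st) = (b, false :: st) := by
  induction t generalizing st <;>
    simp only [Tm.toks, ToEtrB_append, List.foldl_append, *] <;> simp [ToEtrB, tstep_mk, req]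

theorem tc_fm (p : Fm) (b : Bool) (st : List Bool) :
    (ToEtrB p.toks).foldl tstep (b, st) = (b, true :: st) := by
  induction p generalizing st <;>
    simp only [Fm.toks, ToEtrB_append, List.foldl_append, tc_tm, *] <;> simp [ToEtrB, tstep_mk, req]

theorem opc_le (b : Bin) : opc b ≤ 10 := (List.length_filter_le _ _).trans (by simp)

theorem tc_sound (l : List (Bin × Bin)) (h : (l.foldl tstep (true, [])).1 = true) :
    ∃ S : List (Tm ⊕ Fm), S.map Sum.isRight = (l.foldl tstep (true, [])).2 ∧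
      ToEtrB (S.reverse.flatMap (Sum.elim Tm.toks Fm.toks)) = l := by
  induction l using List.reverseRecOn with
  | nil => exact ⟨[], rfl, rfl⟩
  | append_singleton l t ih =>
    rw [List.foldl_append, List.foldl_cons, List.foldl_nil] at h ⊢
    obtain ⟨a, ⟨i⟩⟩ := t
    have h0 := h
    simp only [tstep, Bool.and_eq_true, decide_eq_true_iff] at h0
    obtain ⟨h1, -, h2, -⟩ := h0
    obtain ⟨S, e1, e2⟩ := ih h1
    have ho := opc_le a
    generalize opc a = o at h2 ho
    subst h2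
    rw [tstep_mk _ ho] at h ⊢
    rw [← e1, h1] at h
    rw [← e1, ← e2]
    simp only [Bool.true_and, decide_eq_true_iff] at h
    obtain ⟨h3, h4⟩ := h
    clear ih e1 e2 h1
    interval_cases o
    · exact ⟨.inl (.var i) :: S, by simp [req], by simp [ToEtrB, Tm.toks]⟩
    all_goals obtain rfl : i = 0 := by simpa using h4
    · exact ⟨.inl .zero :: S, by simp [req], by simp [ToEtrB, Tm.toks]⟩
    · exact ⟨.inl .one :: S, by simp [req], by simp [ToEtrB, Tm.toks]⟩
    · rcases S with _ | ⟨t | t, _ | ⟨s | s, S⟩⟩ <;> simp [req] at h3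
      exact ⟨.inl (.add s t) :: S, by simp [req], by simp [ToEtrB, Tm.toks]⟩
    · rcases S with _ | ⟨t | t, _ | ⟨s | s, S⟩⟩ <;> simp [req] at h3
      exact ⟨.inl (.mul s t) :: S, by simp [req], by simp [ToEtrB, Tm.toks]⟩
    · rcases S with _ | ⟨t | t, S⟩ <;> simp [req] at h3
      exact ⟨.inl (.neg t) :: S, by simp [req], by simp [ToEtrB, Tm.toks]⟩
    · rcases S with _ | ⟨t | t, _ | ⟨s | s, S⟩⟩ <;> simp [req] at h3
      exact ⟨.inr (.lt s t) :: S, by simp [req], by simp [ToEtrB, Fm.toks]⟩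
    · rcases S with _ | ⟨t | t, _ | ⟨s | s, S⟩⟩ <;> simp [req] at h3
      exact ⟨.inr (.eq s t) :: S, by simp [req], by simp [ToEtrB, Fm.toks]⟩
    · rcases S with _ | ⟨t | t, S⟩ <;> simp [req] at h3
      exact ⟨.inr (.not t) :: S, by simp [req], by simp [ToEtrB, Fm.toks]⟩
    · rcases S with _ | ⟨t | t, _ | ⟨s | s, S⟩⟩ <;> simp [req] at h3
      exact ⟨.inr (.and s t) :: S, by simp [req], by simp [ToEtrB, Fm.toks]⟩
    · rcases S with _ | ⟨t | t, _ | ⟨s | s, S⟩⟩ <;> simp [req] at h3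
      exact ⟨.inr (.or s t) :: S, by simp [req], by simp [ToEtrB, Fm.toks]⟩

theorem tc_iff (l : List (Bin × Bin)) :
    l.foldl tstep (true, []) = (true, [true]) ↔ ∃ φ : Fm, ToEtrB φ.toks = l := by
  constructor
  · intro h
    obtain ⟨S, e1, e2⟩ := tc_sound l (by rw [h])
    rw [h] at e1
    rcases S with _ | ⟨t | t, _ | ⟨s, S⟩⟩ <;> simp at e1
    exact ⟨t, by simpa using e2⟩
  · rintro ⟨φ, rfl⟩
    exact tc_fm φ true []

end Pool.Agent.Work.MP_fae5c8_lc.ER
end

-- merged part: Pool.Agent.Work.MP_fae5c8_lc.Reduce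
section
/-! The reduction: 3-CNF to hypergraph two-colouring to the loading problem. -/

namespace Pool.Agent.Work.MP_fae5c8_lc

open Finset

def allLists : ℕ → List (List Bool)
  | 0 => [[]]
  | n + 1 => (allLists n).flatMap fun l => [false :: l, true :: l]

theorem mem_allLists (n : ℕ) (l : List Bool) (h : l.length = n) : l ∈ allLists n := by
  induction n generalizing l with
  | zero => simp [allLists, List.length_eq_zero_iff.1 h]
  | succ n ih =>
    cases l with
    | nil => simp at h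
    | cons b l =>
      simp only [allLists, List.mem_flatMap]
      exact ⟨l, ih l (by simpa using h), by cases b <;> simp⟩

theorem exists_masks : ∃ m : List (List Bool), (∀ A ∈ m, ∃ a < 17, A.getD a false = true) ∧
    ∀ A : List Bool, A.length = 17 → (∃ a < 17, A.getD a false = true) → A ∈ m := by
  classical
  obtain ⟨n, hn⟩ : ∃ n : ℕ, n = 17 := ⟨_, rfl⟩
  refine ⟨(allLists n).filter fun A => decide (∃ a < 17, A.getD a false = true), ?_, ?_⟩
  · intro A hA
    simpa using (List.mem_filter.1 hA).2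
  · intro A h1 h2
    exact List.mem_filter.2 ⟨mem_allLists n A (h1.trans hn.symm), by simpa using h2⟩

/-- The nonempty subsets of the seventeen copies, as bit lists. -/
noncomputable def masks : List (List Bool) := Classical.choose exists_masks

theorem masks_ne {A : List Bool} (h : A ∈ masks) : ∃ a < 17, A.getD a false = true :=
  (Classical.choose_spec exists_masks).1 A h

theorem mem_masks {A : List Bool} (h1 : A.length = 17) (h2 : ∃ a < 17, A.getD a false = true) :
    A ∈ masks := (Classical.choose_spec exists_masks).2 A h1 h2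

def bit (a b c : ℕ) (A B C : List Bool) (j : ℕ) : Bool :=
  (decide (j / 17 = a) && A.getD (j % 17) false) || (decide (j / 17 = b) && B.getD (j % 17) false)
    || (decide (j / 17 = c) && C.getD (j % 17) false)

def pt (k a b c : ℕ) (A B C : List Bool) : List Bool := (List.range k).map (bit a b c A B C)

theorem pt_getD {k a b c : ℕ} {A B C : List Bool} {j : ℕ} (hj : j < k) :
    (pt k a b c A B C).getD j false = bit a b c A B C j := by
  simp [pt, List.getD_eq_getElem?_getD, hj]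

noncomputable def data (k V : ℕ) (E : List (ℕ × ℕ × ℕ)) : List (List Bool × Bool) :=
  [(List.replicate k false, true)] ++
    ((List.range V).flatMap fun v => masks.map fun A => (pt k v v v A A A, false)) ++
    (E.flatMap fun e => masks.flatMap fun A => masks.flatMap fun B => masks.map fun C =>
      (pt k e.1 e.2.1 e.2.2 A B C, true))

theorem mem_data {k V : ℕ} {E : List (ℕ × ℕ × ℕ)} {p : List Bool × Bool} :
    p ∈ data k V E ↔ p = (List.replicate k false, true) ∨
      (∃ v < V, ∃ A ∈ masks, p = (pt k v v v A A A, false)) ∨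
      ∃ e ∈ E, ∃ A ∈ masks, ∃ B ∈ masks, ∃ C ∈ masks, p = (pt k e.1 e.2.1 e.2.2 A B C, true) := by
  simp only [data, List.mem_append, List.mem_singleton, List.mem_flatMap, List.mem_map,
    List.mem_range, or_assoc, eq_comm (a := p)]

theorem length_data (k k' V : ℕ) (E : List (ℕ × ℕ × ℕ)) :
    (data k V E).length = (data k' V E).length := by
  simp [data, List.length_flatMap]

theorem length_of_mem_data {k V : ℕ} {E : List (ℕ × ℕ × ℕ)} {p : List Bool × Bool}
    (h : p ∈ data k V E) : p.1.length = k := by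
  rcases mem_data.1 h with rfl | ⟨v, _, A, _, rfl⟩ | ⟨e, _, A, _, B, _, C, _, rfl⟩ <;> simp [pt]

theorem dot_eq {k : ℕ} (w : Fin k → ℝ) (x : List Bool) (S : Finset ℕ) (hS : ∀ j ∈ S, j < k)
    (hx : ∀ j < k, x.getD j false = true ↔ j ∈ S) :
    dot w x = ∑ j ∈ S, (if h : j < k then w ⟨j, h⟩ else 0) := by
  unfold dot
  have e1 : ∑ j : Fin k, w j * (if x.getD j false then 1 else 0) =
      ∑ j : Fin k, (fun j : ℕ => if j ∈ S then (if h : j < k then w ⟨j, h⟩ else 0) else 0) j := by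
    apply sum_congr rfl
    intro j _
    by_cases h : (j : ℕ) ∈ S
    · simp only [h, (hx j j.2).2 h]
      simp
    · have : ¬ x.getD j false = true := fun h' => h ((hx j j.2).1 h')
      simp only [this, h]
      simp
  rw [e1, Fin.sum_univ_eq_sum_range
    (fun j : ℕ => if j ∈ S then (if h : j < k then w ⟨j, h⟩ else 0) else 0), ← sum_filter]
  apply sum_congr _ (fun _ _ => rfl)
  ext j
  simp only [mem_filter, mem_range, and_iff_right_iff_imp]
  exact hS j

def maskOf (S : Finset ℕ) (v : ℕ) : List Bool := (List.range 17).map fun a => decide (17 * v + a ∈ S)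

theorem maskOf_getD (S : Finset ℕ) (v : ℕ) {a : ℕ} (ha : a < 17) :
    (maskOf S v).getD a false = decide (17 * v + a ∈ S) := by
  simp only [maskOf, List.getD_eq_getElem?_getD, List.getElem?_map, List.getElem?_range ha,
    Option.map_some, Option.getD_some]

theorem maskOf_mem (S : Finset ℕ) (v : ℕ) (h : ∃ j ∈ S, j / 17 = v) : maskOf S v ∈ masks := by
  obtain ⟨j, hj, e⟩ := h
  refine mem_masks (by simp [maskOf]) ⟨j % 17, Nat.mod_lt _ (by norm_num), ?_⟩
  rw [maskOf_getD S v (Nat.mod_lt _ (by norm_num)), ← e, Nat.div_add_mod]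
  simpa using hj

theorem bit_maskOf (S : Finset ℕ) (a b c : ℕ) (h : ∀ j ∈ S, j / 17 = a ∨ j / 17 = b ∨ j / 17 = c)
    (j : ℕ) : bit a b c (maskOf S a) (maskOf S b) (maskOf S c) j = true ↔ j ∈ S := by
  have hm : j % 17 < 17 := Nat.mod_lt _ (by norm_num)
  have key : ∀ v, (j / 17 = v ∧ 17 * v + j % 17 ∈ S) ↔ (j / 17 = v ∧ j ∈ S) := by
    intro v
    apply and_congr_right
    rintro rfl
    rw [Nat.div_add_mod]
  simp only [bit, maskOf_getD _ _ hm, Bool.or_eq_true, Bool.and_eq_true, decide_eq_true_eq, key]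
  constructor
  · rintro ((h | h) | h) <;> exact h.2
  · intro hj
    have := h j hj
    tauto

theorem colouring_of_loadable {k V : ℕ} {E : List (ℕ × ℕ × ℕ)} (hk : 17 * V ≤ k)
    (hV : ∀ e ∈ E, e.1 < V ∧ e.2.1 < V ∧ e.2.2 < V) (h : Loadable (k, data k V E)) :
    ∃ col : ℕ → Bool, ∀ e ∈ E, ¬ (col e.1 = col e.2.1 ∧ col e.2.1 = col e.2.2) := by
  obtain ⟨w1, w2, b1, b2, a0, a1, a2, hw⟩ := h
  obtain ⟨L, P, hP, hL⟩ := nice_net a0 a1 a2 b1 b2
  set z : ℕ → ℝ × ℝ := fun j =>
    L (if h : j < k then w1 ⟨j, h⟩ else 0, if h : j < k then w2 ⟨j, h⟩ else 0) with hz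
  have key : ∀ p ∈ data k V E, ∀ S : Finset ℕ, (∀ j ∈ S, j < k) →
      (∀ j < k, p.1.getD j false = true ↔ j ∈ S) → (∑ j ∈ S, z j ∈ P ↔ p.2 = true) := by
    intro p hp S h1 h2
    have e : ∑ j ∈ S, z j = L (dot w1 p.1, dot w2 p.1) := by
      rw [hz, ← map_sum, dot_eq w1 p.1 S h1 h2, dot_eq w2 p.1 S h1 h2, prod_mk_sum]
    rw [e, ← hL, ← hw p hp]
    simp [heaviside]
  obtain ⟨col, hcol⟩ := colouring_of_good z P hP V (fun a b c => (a, b, c) ∈ E)
    (fun a b c h => hV _ h)
    (by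
      have := (key _ (mem_data.2 (Or.inl rfl)) ∅ (by simp) (by
        intro j hj
        simp [List.getD_eq_getElem?_getD, hj])).2 rfl
      simpa using this)
    (by
      intro v hv S hS h
      obtain ⟨j0, hj0⟩ := hS
      have hm := maskOf_mem S v ⟨j0, hj0, h j0 hj0⟩
      rw [key _ (mem_data.2 (Or.inr (Or.inl ⟨v, hv, _, hm, rfl⟩))) S
        (fun j hj => by have := h j hj; omega)
        (fun j hj => by
          rw [pt_getD hj]; exact bit_maskOf S v v v (fun j hj => Or.inl (h j hj)) j)]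
      simp)
    (by
      intro a b c hE S h h1 h2 h3
      obtain ⟨ha, hb, hc⟩ := hV _ hE
      simp only at ha hb hc
      exact (key _ (mem_data.2 (Or.inr (Or.inr ⟨_, hE, _, maskOf_mem S a h1, _, maskOf_mem S b h2,
        _, maskOf_mem S c h3, rfl⟩))) S (fun j hj => by have := h j hj; omega)
        (fun j hj => by rw [pt_getD hj]; exact bit_maskOf S a b c h j)).2 rfl)
  exact ⟨col, fun e he => hcol _ _ _ he⟩

theorem dot_le_zero {k : ℕ} (col : ℕ → Bool) (τ : Bool) (x : List Bool) (j0 : ℕ) (h0 : j0 < k)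
    (h1 : x.getD j0 false = true) (h2 : col (j0 / 17) ≠ τ) :
    dot (fun j : Fin k => if col (j / 17) = τ then (4 : ℝ) else -(4 * k)) x ≤ 0 := by
  unfold dot
  have : ∀ j : Fin k, (if col (j / 17) = τ then (4 : ℝ) else -(4 * k)) *
      (if x.getD j false then 1 else 0) ≤ 4 + (if j = ⟨j0, h0⟩ then -(4 * k : ℝ) else 0) := by
    intro j
    have hk : (0 : ℝ) ≤ k := by positivity
    by_cases e : j = ⟨j0, h0⟩
    · subst e
      simp only [h1, h2, if_true, if_false]
      linarith only []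
    · simp only [e, if_false]
      split_ifs <;> linarith only []
  refine (sum_le_sum fun j _ => this j).trans (le_of_eq ?_)
  rw [sum_add_distrib]
  simp
  ring

theorem dot_ge_four {k : ℕ} (col : ℕ → Bool) (τ : Bool) (x : List Bool) (j0 : ℕ) (h0 : j0 < k)
    (h1 : x.getD j0 false = true) (h2 : ∀ j < k, x.getD j false = true → col (j / 17) = τ) :
    4 ≤ dot (fun j : Fin k => if col (j / 17) = τ then (4 : ℝ) else -(4 * k)) x := by
  unfold dot
  have : ∀ j : Fin k, (if j = ⟨j0, h0⟩ then (4 : ℝ) else 0) ≤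
      (if col (j / 17) = τ then (4 : ℝ) else -(4 * k)) * (if x.getD j false then 1 else 0) := by
    intro j
    by_cases hx : x.getD j false = true
    · simp only [hx, h2 j j.2 hx, if_true]
      split_ifs <;> norm_num
    · have : j ≠ ⟨j0, h0⟩ := by rintro rfl; exact hx h1
      simp only [this, hx, if_false]
      simp
  refine le_trans (le_of_eq ?_) (sum_le_sum fun j _ => this j)
  simp

theorem sigmoid_pos (z : ℝ) : 0 < sigmoid z := by unfold sigmoid; positivity

theorem sigmoid_small {z : ℝ} (h : z ≤ 0) : sigmoid (z + -2) ≤ 1 / 4 := by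
  unfold sigmoid
  apply one_div_le_one_div_of_le (by norm_num)
  have := Real.add_one_le_exp (-(z + -2))
  linarith

theorem sigmoid_big {z : ℝ} (h : 4 ≤ z) : 1 / 2 < sigmoid (z + -2) := by
  unfold sigmoid
  apply one_div_lt_one_div_of_lt (by positivity)
  have : Real.exp (-(z + -2)) < 1 := Real.exp_lt_one_iff.2 (by linarith)
  linarith

theorem loadable_of_colouring {k V : ℕ} {E : List (ℕ × ℕ × ℕ)} (hk : 17 * V ≤ k)
    (hV : ∀ e ∈ E, e.1 < V ∧ e.2.1 < V ∧ e.2.2 < V) (col : ℕ → Bool)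
    (h : ∀ e ∈ E, ¬ (col e.1 = col e.2.1 ∧ col e.2.1 = col e.2.2)) :
    Loadable (k, data k V E) := by
  refine ⟨fun j : Fin k => if col (j / 17) = true then (4 : ℝ) else -(4 * k),
    fun j : Fin k => if col (j / 17) = false then (4 : ℝ) else -(4 * k), -2, -2, 1 / 2, -1, -1, ?_⟩
  intro p hp
  have on : ∀ {A : List Bool}, A ∈ masks → ∀ v < V, ∃ j < k, j / 17 = v ∧
      A.getD (j % 17) false = true := by
    intro A hA v hv
    obtain ⟨a, ha, h⟩ := masks_ne hA
    refine ⟨17 * v + a, by omega, by omega, ?_⟩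
    rwa [show (17 * v + a) % 17 = a by omega]
  rcases mem_data.1 hp with rfl | ⟨v, hv, A, hA, rfl⟩ | ⟨e, he, A, hA, B, hB, C, hC, rfl⟩
  · have z : ∀ w : Fin k → ℝ, dot w (List.replicate k false) = 0 := by
      intro w
      simp [dot, List.getD_eq_getElem?_getD]
    simp only [heaviside, z, decide_eq_true_eq]
    linarith only [sigmoid_small (le_refl (0 : ℝ))]
  · obtain ⟨j, hj, e1, e2⟩ := on hA v hv
    have h1 : (pt k v v v A A A).getD j false = true := by
      rw [pt_getD hj]; simp only [bit, e1, e2]; simp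
    have h2 : ∀ j < k, (pt k v v v A A A).getD j false = true → col (j / 17) = col v := by
      intro j hj h
      rw [pt_getD hj] at h
      simp only [bit, Bool.or_self, Bool.and_eq_true, decide_eq_true_eq] at h
      rw [h.1]
    have := sigmoid_big (dot_ge_four col (col v) _ j hj h1 h2)
    simp only [heaviside, decide_eq_false_iff_not, not_le]
    cases hc : col v
    · rw [hc] at this
      linarith only [this, sigmoid_pos (dot (fun j : Fin k => if col (j / 17) = true then (4 : ℝ)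
        else -(4 * k)) (pt k v v v A A A) + -2)]
    · rw [hc] at this
      linarith only [this, sigmoid_pos (dot (fun j : Fin k => if col (j / 17) = false then (4 : ℝ)
        else -(4 * k)) (pt k v v v A A A) + -2)]
  · obtain ⟨ha, hb, hc⟩ := hV e he
    have ex : ∀ τ : Bool, ∃ j < k, (pt k e.1 e.2.1 e.2.2 A B C).getD j false = true ∧
        col (j / 17) ≠ τ := by
      intro τ
      by_contra hno
      push Not at hno
      obtain ⟨j1, p1, q1, r1⟩ := on hA _ ha
      obtain ⟨j2, p2, q2, r2⟩ := on hB _ hb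
      obtain ⟨j3, p3, q3, r3⟩ := on hC _ hc
      have c1 := hno j1 p1 (by rw [pt_getD p1]; simp only [bit, q1, r1]; simp)
      have c2 := hno j2 p2 (by rw [pt_getD p2]; simp only [bit, q2, r2]; simp)
      have c3 := hno j3 p3 (by rw [pt_getD p3]; simp only [bit, q3, r3]; simp)
      rw [q1] at c1; rw [q2] at c2; rw [q3] at c3
      exact h e he ⟨c1.trans c2.symm, c2.trans c3.symm⟩
    obtain ⟨j1, p1, q1, r1⟩ := ex true
    obtain ⟨j2, p2, q2, r2⟩ := ex false
    have s1 := sigmoid_small (dot_le_zero col true _ j1 p1 q1 r1)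
    have s2 := sigmoid_small (dot_le_zero col false _ j2 p2 q2 r2)
    simp only [heaviside, decide_eq_true_eq]
    linarith only [s1, s2]

/-! ### From 3-CNF to hypergraph two-colouring -/

def nvar (φ : List (List (ℕ × Bool))) : ℕ :=
  2 * (φ.length + (φ.flatMap fun c => c.map fun l => l.1).sum) + 3

def lit (l : ℕ × Bool) : ℕ := 2 * (2 * l.1 + 2) + l.2.toNat

def edges (φ : List (List (ℕ × Bool))) : List (ℕ × ℕ × ℕ) :=
  ((List.range (nvar φ)).map fun u => (2 * u, 2 * u + 1, 2 * u + 1)) ++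
    (List.range φ.length).flatMap fun c =>
      [(lit ((φ.getD c []).getD 0 (0, false)), lit ((φ.getD c []).getD 1 (0, false)),
          2 * (2 * c + 1) + 1),
        (2 * (2 * c + 1), lit ((φ.getD c []).getD 2 (0, false)), 1)]

theorem mem_edges {φ : List (List (ℕ × Bool))} {e : ℕ × ℕ × ℕ} :
    e ∈ edges φ ↔ (∃ u < nvar φ, e = (2 * u, 2 * u + 1, 2 * u + 1)) ∨ ∃ c < φ.length,
      e = (lit ((φ.getD c []).getD 0 (0, false)), lit ((φ.getD c []).getD 1 (0, false)),
          2 * (2 * c + 1) + 1) ∨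
      e = (2 * (2 * c + 1), lit ((φ.getD c []).getD 2 (0, false)), 1) := by
  simp only [edges, List.mem_append, List.mem_map, List.mem_range, List.mem_flatMap,
    List.mem_cons, List.not_mem_nil, or_false, eq_comm (a := e)]

theorem clause_eq {φ : List (List (ℕ × Bool))} (h3 : ∀ c ∈ φ, c.length = 3) {c : ℕ}
    (hc : c < φ.length) : ∃ l1 l2 l3, φ.getD c [] = [l1, l2, l3] ∧ [l1, l2, l3] ∈ φ := by
  have hm : φ.getD c [] ∈ φ := by
    rw [List.getD_eq_getElem _ _ hc]; exact List.getElem_mem hc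
  obtain ⟨l1, l2, l3, e⟩ := List.length_eq_three.1 (h3 _ hm)
  exact ⟨l1, l2, l3, e, e ▸ hm⟩

theorem var_lt {φ : List (List (ℕ × Bool))} {c : List (ℕ × Bool)} (hc : c ∈ φ) {l : ℕ × Bool}
    (hl : l ∈ c) : 2 * l.1 + 2 < nvar φ := by
  have : l.1 ≤ (φ.flatMap fun c => c.map fun l => l.1).sum :=
    List.single_le_sum (fun _ _ => Nat.zero_le _) _
      (List.mem_flatMap.2 ⟨c, hc, List.mem_map.2 ⟨l, hl, rfl⟩⟩)
  unfold nvar
  omega

theorem edges_lt {φ : List (List (ℕ × Bool))} (h3 : ∀ c ∈ φ, c.length = 3) :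
    ∀ e ∈ edges φ, e.1 < 2 * nvar φ ∧ e.2.1 < 2 * nvar φ ∧ e.2.2 < 2 * nvar φ := by
  intro e he
  have hl : ∀ c ∈ φ, ∀ l ∈ c, lit l < 2 * nvar φ := by
    intro c hc l hl
    have := var_lt hc hl
    have := Bool.toNat_le l.2
    unfold lit
    omega
  rcases mem_edges.1 he with ⟨u, hu, rfl⟩ | ⟨c, hc, h⟩
  · simp only; omega
  · obtain ⟨l1, l2, l3, e1, e2⟩ := clause_eq h3 hc
    rw [e1] at h
    have a1 := hl _ e2 l1 (by simp)
    have a2 := hl _ e2 l2 (by simp)
    have a3 := hl _ e2 l3 (by simp)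
    have : 2 * c + 1 < nvar φ := by unfold nvar; omega
    rcases h with rfl | rfl
    · exact ⟨a1, a2, by simp only; omega⟩
    · exact ⟨by simp only; omega, a3, by simp only; omega⟩

theorem sat_iff_colouring {φ : List (List (ℕ × Bool))} (h3 : ∀ c ∈ φ, c.length = 3) :
    (∃ A : ℕ → Bool, ∀ c ∈ φ, ∃ l ∈ c, A l.1 = l.2) ↔
      ∃ col : ℕ → Bool, ∀ e ∈ edges φ, ¬ (col e.1 = col e.2.1 ∧ col e.2.1 = col e.2.2) := by
  constructor
  · rintro ⟨A, hA⟩
    let tv : ℕ × Bool → Bool := fun l => A l.1 == l.2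
    let val : ℕ → Bool := fun u => if u = 0 then false else if u % 2 = 0 then A (u / 2 - 1) else
      !(tv ((φ.getD (u / 2) []).getD 0 (0, false)) || tv ((φ.getD (u / 2) []).getD 1 (0, false)))
    let col : ℕ → Bool := fun x => if x % 2 = 1 then val (x / 2) else !val (x / 2)
    have c1 : ∀ u, col (2 * u + 1) = val u := by
      intro u
      simp only [col]
      rw [if_pos (by omega), show (2 * u + 1) / 2 = u by omega]
    have c0 : ∀ u, col (2 * u) = !val u := by
      intro u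
      simp only [col]
      rw [if_neg (by omega), show (2 * u) / 2 = u by omega]
    have v2 : ∀ v, val (2 * v + 2) = A v := by
      intro v
      simp only [val]
      rw [if_neg (by omega), if_pos (by omega), show (2 * v + 2) / 2 - 1 = v by omega]
    have v1 : ∀ c, val (2 * c + 1) =
        !(tv ((φ.getD c []).getD 0 (0, false)) || tv ((φ.getD c []).getD 1 (0, false))) := by
      intro c
      simp only [val]
      rw [if_neg (by omega), if_neg (by omega), show (2 * c + 1) / 2 = c by omega]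
    have cl : ∀ l, col (lit l) = tv l := by
      rintro ⟨v, b⟩
      cases b
      · simp only [lit, Bool.toNat_false, add_zero, c0, v2, tv]; simp
      · simp only [lit, Bool.toNat_true, c1, v2, tv]; simp
    have cone : col 1 = false := by simp [col, val]
    refine ⟨col, ?_⟩
    intro e he
    rcases mem_edges.1 he with ⟨u, hu, rfl⟩ | ⟨c, hc, h⟩
    · simp only [c0, c1]; simp
    · obtain ⟨l1, l2, l3, e1, e2⟩ := clause_eq h3 hc
      have hs : tv l1 = true ∨ tv l2 = true ∨ tv l3 = true := by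
        simpa [tv] using hA _ e2
      rcases h with rfl | rfl
      · simp only [cl, c1, v1, e1, List.getD_cons_zero, List.getD_cons_succ]
        cases tv l1 <;> cases tv l2 <;> simp
      · simp only [cl, c0, v1, e1, List.getD_cons_zero, List.getD_cons_succ, cone]
        revert hs
        cases tv l1 <;> cases tv l2 <;> cases tv l3 <;> simp
  · rintro ⟨col, h⟩
    have neg : ∀ u < nvar φ, col (2 * u) = !col (2 * u + 1) := by
      intro u hu
      have := h _ (mem_edges.2 (Or.inl ⟨u, hu, rfl⟩))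
      simp only [and_true] at this
      revert this
      cases col (2 * u) <;> cases col (2 * u + 1) <;> simp
    refine ⟨fun v => xor (col (2 * (2 * v + 2) + 1)) (col 1), ?_⟩
    intro c hc
    obtain ⟨i, hi, rfl⟩ := List.getElem_of_mem hc
    obtain ⟨l1, l2, l3, e1, e2⟩ := clause_eq h3 hi
    have e3 : φ[i] = [l1, l2, l3] := by rw [← e1, List.getD_eq_getElem _ _ hi]
    rw [e3]
    by_contra hno
    push Not at hno
    have hl : ∀ l ∈ [l1, l2, l3], col (lit l) = col 1 := by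
      rintro ⟨v, b⟩ hl
      have a1 := hno _ hl
      have a2 := neg _ (var_lt e2 hl)
      simp only at a1 a2
      cases b
      · simp only [lit, Bool.toNat_false, add_zero, a2]
        revert a1
        cases col (2 * (2 * v + 2) + 1) <;> cases col 1 <;> simp
      · simp only [lit, Bool.toNat_true]
        revert a1
        cases col (2 * (2 * v + 2) + 1) <;> cases col 1 <;> simp
    have h1 := h _ (mem_edges.2 (Or.inr ⟨i, hi, Or.inl rfl⟩))
    have h2 := h _ (mem_edges.2 (Or.inr ⟨i, hi, Or.inr rfl⟩))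
    have h4 := neg (2 * i + 1) (by unfold nvar; omega)
    simp only [e1, List.getD_cons_zero, List.getD_cons_succ, hl l1 (by simp), hl l2 (by simp),
      hl l3 (by simp), h4] at h1 h2
    revert h1 h2
    cases col (2 * (2 * i + 1) + 1) <;> cases col 1 <;> simp

/-- The dimension of the instance (padded so that it exceeds the number of points). -/
noncomputable def dim (φ : List (List (ℕ × Bool))) : ℕ :=
  17 * (2 * nvar φ) + (data 0 (2 * nvar φ) (edges φ)).length

noncomputable def inst (φ : List (List (ℕ × Bool))) : ℕ × List (List Bool × Bool) :=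
  (dim φ, data (dim φ) (2 * nvar φ) (edges φ))

theorem inst_length (φ : List (List (ℕ × Bool))) : (inst φ).2.length ≤ (inst φ).1 := by
  simp only [inst]
  rw [length_data _ 0]
  unfold dim
  omega

theorem inst_wf (φ : List (List (ℕ × Bool))) : ∀ p ∈ (inst φ).2, p.1.length = (inst φ).1 :=
  fun _ hp => length_of_mem_data hp

theorem inst_iff {φ : List (List (ℕ × Bool))} (h3 : ∀ c ∈ φ, c.length = 3) :
    (∃ A : ℕ → Bool, ∀ c ∈ φ, ∃ l ∈ c, A l.1 = l.2) ↔ Loadable (inst φ) := by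
  rw [sat_iff_colouring h3]
  have hk : 17 * (2 * nvar φ) ≤ dim φ := Nat.le_add_right _ _
  constructor
  · rintro ⟨col, h⟩
    exact loadable_of_colouring hk (edges_lt h3) col h
  · exact colouring_of_loadable hk (edges_lt h3)

end Pool.Agent.Work.MP_fae5c8_lc
end

-- merged part: Pool.Agent.Work.MP_fae5c8_lc.Main
section
/-! The reduction runs in polynomial time. -/

namespace Pool.Agent.Work.MP_fae5c8_lc

open Pool.Agent.Lib.Poly

variable {α : Type} [Enc α]

@[fun_prop] theorem pt_bit {a b c j : α → ℕ} {A B C : α → List Bool} (ha : PT a) (hb : PT b)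
    (hc : PT c) (hA : PT A) (hB : PT B) (hC : PT C) (hj : PT j) :
    PT fun x => bit (a x) (b x) (c x) (A x) (B x) (C x) (j x) := by
  unfold bit; fun_prop

@[fun_prop] theorem pt_pt {k a b c : α → ℕ} {A B C : α → List Bool} (hk : PT k) (ha : PT a)
    (hb : PT b) (hc : PT c) (hA : PT A) (hB : PT B) (hC : PT C) :
    PT fun x => pt (k x) (a x) (b x) (c x) (A x) (B x) (C x) := by
  unfold pt
  show PT fun x => (List.range (k x)).map fun j => bit (a x) (b x) (c x) (A x) (B x) (C x) j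
  fun_prop

@[fun_prop] theorem pt_data {k V : α → ℕ} {E : α → List (ℕ × ℕ × ℕ)} (hk : PT k) (hV : PT V)
    (hE : PT E) : PT fun x => data (k x) (V x) (E x) := by
  unfold data; fun_prop

@[fun_prop] theorem pt_nvar {φ : α → List (List (ℕ × Bool))} (h : PT φ) :
    PT fun x => nvar (φ x) := by
  unfold nvar; fun_prop

@[fun_prop] theorem pt_lit {l : α → ℕ × Bool} (h : PT l) : PT fun x => lit (l x) := by
  unfold lit; fun_prop

@[fun_prop] theorem pt_edges {φ : α → List (List (ℕ × Bool))} (h : PT φ) :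
    PT fun x => edges (φ x) := by
  unfold edges; fun_prop

@[fun_prop] theorem pt_dim {φ : α → List (List (ℕ × Bool))} (h : PT φ) :
    PT fun x => dim (φ x) := by
  unfold dim; fun_prop

theorem main : ∀ L ∈ N68a2faeb.NP, ∃ f : List Bool → ℕ × List (List Bool × Bool),
    N68a2faeb.IsPolyTime f ∧ ∀ x, (∀ p ∈ (f x).2, p.1.length = (f x).1) ∧
      (f x).2.length ≤ (f x).1 ∧ (L x = true ↔ Loadable (f x)) := by
  intro L hL
  obtain ⟨φ, h1, h2, h3⟩ := cook_levin L hL
  refine ⟨fun x => inst (φ x), ?_, fun x => ⟨inst_wf _, inst_length _,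
    (h3 x).trans (inst_iff (h2 x))⟩⟩
  have h4 : PT fun x => Raw.mk (Computability.encodeNat (dim (φ x))) := PT.toRaw (by fun_prop)
  have h5 : PT fun x => (Raw.mk (Computability.encodeNat (dim (φ x))),
      data (dim (φ x)) (2 * nvar (φ x)) (edges (φ x))) := by fun_prop
  exact h5.tm2 _ _ _ (fun a => a) (fun _ => rfl) fun _ => rfl

end Pool.Agent.Work.MP_fae5c8_lc
end

-- merged part: Pool.Agent.Work.MP_fae5c8_lc.ER.Class
section
/-! The loading problem is complete for `∃ℝ`. -/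

namespace Pool.Agent.Work.MP_fae5c8_lc.ER

open Pool.Agent.Lib.Poly N487b59b3 N68a2faeb N793a5b8e Pool.Agent.Work.MP_4489ea_co

theorem pt_of_poly {f : List Bool → List Bool} (h : IsPolyTime f) : PT f :=
  pt_of_tm2 h f (fun a => a) (fun _ => rfl) fun _ => rfl

theorem red_trans {A B C : DecisionProblem} (h : ManyOneReducible A B)
    (h' : ManyOneReducible B C) : ManyOneReducible A C := by
  obtain ⟨f, h1, h2⟩ := h
  obtain ⟨g, h3, h4⟩ := h'
  exact ⟨fun x => g (f x), ((pt_of_poly h3).comp (pt_of_poly h1)).isPolyTime_list,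
    fun x => (h2 x).trans (h4 _)⟩

theorem np_of_red {A B : DecisionProblem} (h : ManyOneReducible A B) (hB : B ∈ NP) : A ∈ NP := by
  obtain ⟨f, h1, h2⟩ := h
  obtain ⟨p, R, h3, h4⟩ := hB
  have hf := pt_of_poly h1
  have hR : PT R := pt_of_tm2 h3 R (fun a => a) (fun _ => rfl) fun _ => rfl
  obtain ⟨t, ht, ht'⟩ := hf.size
  have hp := IsPoly.eval p
  refine mem_np A (fun z => decide (z.2.length ≤ p.eval (f z.1).length) && R (f z.1, z.2))
    (by fun_prop) (fun n => p.eval (t (3 * n))) (by fun_prop) fun x => ?_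
  rw [h2, h4]
  simp only [Bool.and_eq_true, decide_eq_true_iff]
  constructor
  · rintro ⟨w, e1, e2⟩
    refine ⟨w, e1.trans (hp.mono ?_), e1, e2⟩
    have := ht' x
    rw [sz_bools, sz_bools] at this
    omega
  · rintro ⟨w, -, e⟩
    exact ⟨w, e⟩

theorem toks_inj {φ ψ : Fm} (h : φ.toks = ψ.toks) : φ = ψ := by
  have := parse_fm φ [] []
  rw [h, parse_fm] at this
  simpa using this.symm

theorem etr_code (φ : Fm) : ETR (bitEncode φ.toks) = true ↔ ∃ x, φ.Holds x := by
  classical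
  rw [ETR, decide_eq_true_iff]
  constructor
  · rintro ⟨ψ, e, h⟩
    rwa [← toks_inj (bitEncode_injective e)]
  · exact fun h => ⟨φ, rfl, h⟩

theorem etr_nil : ETR [] = false := by
  rw [ETR, decide_eq_false_iff_not]
  rintro ⟨φ, e, -⟩
  have : φ.toks = [] := bitEncode_injective (α := List (ℕ × ℕ)) e
  cases φ <;> simp [Fm.toks] at this

theorem load_code (c : ℕ) (I : ℕ × List (List Bool × Bool)) : LOAD c (bitEncode I) = true ↔
    (∀ p ∈ I.2, p.1.length = I.1) ∧ I.2.length ≤ c * I.1 ∧ Loadable I := by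
  classical
  rw [LOAD, decide_eq_true_iff]
  constructor
  · rintro ⟨J, e, h⟩
    rwa [← bitEncode_injective e]
  · exact fun h => ⟨I, rfl, h⟩

theorem load_nil (c : ℕ) : LOAD c [] = false := by
  rw [LOAD, decide_eq_false_iff_not]
  rintro ⟨I, e, -⟩
  have : (delimit (bitEncode I.1) ++ bitEncode I.2).length = 0 := congrArg List.length e
  simp at this

theorem etr_red_aux {c : ℕ} (hc : 1 ≤ c) : ∃ F : List (ℕ × Bin) → List Bool, PT F ∧ ∀ φ : Fm,
    (LOAD c (F (φ.toks.map fun t => (t.1, Bin.mk t.2))) = true ↔ ∃ x, φ.Holds x) := by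
  refine ⟨_, pt_5.toEnc, fun φ => ?_⟩
  rw [← eOf_iff Bin.mk fun _ _ h => by cases h; rfl, ← load_iff_esat]
  beta_reduce
  rw [enc_out, load_code]
  exact ⟨fun h => h.2.2, fun h =>
    ⟨fOf_length _, (fOf_card _).trans (Nat.le_mul_of_pos_left _ hc), h⟩⟩

theorem etr_red_load {c : ℕ} (hc : 1 ≤ c) : ManyOneReducible ETR (LOAD c) := by
  classical
  obtain ⟨F, hF, hF'⟩ := etr_red_aux hc
  have h0 : PT fun l : List (Bin × Bin) => l.map fun t => (opc t.1, t.2) := by
    unfold opc; fun_prop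
  have h1 := (hF.comp h0).comp pt_decT
  have h2 := pt_tc.comp pt_decT
  have h3 := pt_decT
  have h4 : PT fun w => decide (enc (decT w) = w) := PT.deq h3.toEnc PT.id
  have h5 : PT fun w => decide ((decT w).foldl tstep (true, []) = (true, [true])) :=
    PT.deq h2 (PT.const _)
  refine ⟨fun w => if enc (decT w) = w ∧ (decT w).foldl tstep (true, []) = (true, [true]) then
    F ((decT w).map fun t => (opc t.1, t.2)) else [],
    PT.isPolyTime_list (PT.ite (PT.dand h4 h5) h1 (PT.const _)), fun w => ?_⟩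
  beta_reduce
  split_ifs with h
  · obtain ⟨φ, e⟩ := (tc_iff _).1 h.2
    have e1 : w = bitEncode φ.toks := by rw [← h.1, ← e, ToEtr_enc]
    have e2 : ((decT w).map fun t => (opc t.1, t.2)) = φ.toks.map fun t => (t.1, Bin.mk t.2) := by
      rw [← e, ToEtrB, List.map_map]
      exact List.map_congr_left fun t ht => by simp [opc_mk (toks_fm_le φ t ht)]
    rw [e2, Bool.eq_iff_iff, hF', e1, etr_code]
  · rw [load_nil, ETR, decide_eq_false_iff_not]
    rintro ⟨φ, rfl, -⟩
    rw [← ToEtr_enc, decT_enc] at h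
    exact h ⟨rfl, tc_fm φ true []⟩

theorem load_red_etr (c : ℕ) : ManyOneReducible (LOAD c) ETR := by
  classical
  have h1 := ToEtr_pt.comp pt_decI
  have h3 := pt_decI
  have h4 : PT fun w => decide (enc (decI w) = w) := PT.deq h3.toEnc PT.id
  have h5 : PT fun I : Bin × List (List Bool × Bool) =>
      decide (∀ p ∈ I.2, Bin.mk p.1.length = I.1) := by clear h1 h3 h4; fun_prop
  have h6 : PT fun I : Bin × List (List Bool × Bool) =>
      decide (((Bin.mk c).mul I.1).lt (Bin.mk I.2.length) = false) := by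
    clear h1 h3 h4 h5; fun_prop
  refine ⟨fun w => if enc (decI w) = w ∧ (∀ p ∈ (decI w).2, Bin.mk p.1.length = (decI w).1) ∧
      ((Bin.mk c).mul (decI w).1).lt (Bin.mk (decI w).2.length) = false then
    enc (ToEtrGt (decI w)) else [],
    PT.isPolyTime_list (PT.ite (PT.dand h4 (PT.dand (h5.comp h3 :) (h6.comp h3 :))) h1.toEnc
      (PT.const _)), fun w => ?_⟩
  beta_reduce
  split_ifs with h
  · obtain ⟨e1, e2, e3⟩ := h
    generalize decI w = I at *
    obtain ⟨⟨k⟩, l⟩ := I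
    subst e1
    rw [ToEtr_toksG (k, l), ToEtr_enc, Bool.eq_iff_iff, etr_code, ← ToEtr_correct]
    refine (load_code c (k, l)).trans ⟨fun h => h.2.2, fun h => ⟨fun p hp => ?_, ?_, h⟩⟩
    · exact congrArg Bin.val (e2 p hp)
    · simpa [Bin.lt, Bin.mul] using e3
  · rw [etr_nil, LOAD, decide_eq_false_iff_not]
    rintro ⟨⟨k, l⟩, rfl, e1, e2, -⟩
    have e : bitEncode (k, l) = enc (Bin.mk k, l) := rfl
    rw [e, decI_enc] at h
    exact h ⟨rfl, fun p hp => congrArg Bin.mk (e1 p hp), by simpa [Bin.lt, Bin.mul] using e2⟩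

theorem np_red_load {c : ℕ} (hc : 1 ≤ c) : ∀ L ∈ NP, ManyOneReducible L (LOAD c) := by
  intro L hL
  obtain ⟨f, h1, h2⟩ := Pool.Agent.Work.MP_fae5c8_lc.main L hL
  have hf : PT fun x => (Bin.mk (f x).1, (f x).2) :=
    pt_of_tm2 h1 _ (fun a => a) (fun _ => rfl) fun _ => rfl
  refine ⟨fun x => enc (Bin.mk (f x).1, (f x).2), hf.toEnc.isPolyTime_list, fun x => ?_⟩
  rw [Bool.eq_iff_iff, (h2 x).2.2]
  exact ((load_code c (f x)).trans ⟨fun h => h.2.2, fun h =>
    ⟨(h2 x).1, (h2 x).2.1.trans (Nat.le_mul_of_pos_left _ hc), h⟩⟩).symm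

theorem er_main (c : ℕ) (hc : 1 ≤ c) :
    IsCompleteFor ExR (LOAD c) ∧ (∀ L ∈ NP, ManyOneReducible L (LOAD c)) ∧
      (IsCompleteFor NP (LOAD c) ↔ NP = ExR) := by
  have h1 : ∀ L ∈ ExR, ManyOneReducible L (LOAD c) := fun L hL => red_trans hL (etr_red_load hc)
  refine ⟨⟨load_red_etr c, h1⟩, np_red_load hc, fun h => ?_, fun h => ⟨?_, np_red_load hc⟩⟩
  · exact Set.Subset.antisymm (fun L hL => red_trans (np_red_load hc L hL) (load_red_etr c))
      fun L hL => np_of_red (h1 L hL) h.1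
  · rw [h]; exact load_red_etr c

end Pool.Agent.Work.MP_fae5c8_lc.ER
end
end
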