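import Pool.Agent.Work.MP_fae5c8_lc.Defs
import Pool.Agent.Work.MP_fae5c8_lc.ER.Etr
import Pool.Agent.Work.MP_fae5c8_lc.Sound

-- merged part: Pool.Agent.Work.MP_fae5c8_lc.ER.Sys
section
/-! Intermediate constraint systems for the reduction of the existential theory of the reals to
the loading problem, and the translations between them. Variables and columns are named by
elements of an arbitrary type `ν`. -/

namespace Pool.Agent.Work.MP_fae5c8_lc.ER

open Sum

variable {ν β : Type}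

/-! ### The systems -/

/-- The equation `x_a x_b + x_c = x_d + κ`, `κ ∈ {0,1}`. -/
abbrev Eqn (ν : Type) := ν × ν × ν × ν × Bool

/-- The defect of an equation. -/
def ev {R : Type} [CommRing R] (x : ν → R) (e : Eqn ν) : R :=
  x e.1 * x e.2.1 + x e.2.2.1 - x e.2.2.2.1 - (if e.2.2.2.2 then 1 else 0)

def ESat (E : List (Eqn ν)) : Prop := ∃ x : ν → ℝ, ∀ e ∈ E, ev x e = 0

def sm (x : ν → ℝ) (l : List ν) : ℝ := (l.map x).sum

@[simp] theorem sm_nil (x : ν → ℝ) : sm x [] = 0 := rfl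
@[simp] theorem sm_cons (x : ν → ℝ) (a : ν) (l : List ν) : sm x (a :: l) = x a + sm x l := by
  simp [sm]
@[simp] theorem sm_append (x : ν → ℝ) (l l' : List ν) : sm x (l ++ l') = sm x l + sm x l' := by
  simp [sm]
theorem sm_map (x : ν → ℝ) (f : β → ν) (l : List β) : sm x (l.map f) = sm (fun a => x (f a)) l := by
  simp [sm, Function.comp_def]

/-- A strict comparison of two sums. -/
abbrev Cmp (ν : Type) := List ν × List ν

def CmpH (x : ν → ℝ) (c : Cmp ν) : Prop := sm x c.1 < sm x c.2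

/-- A strict comparison of two products of positive numbers. -/
abbrev Prd (ν : Type) := ν × ν × ν × ν

def PrdH (x : ν → ℝ) (c : Prd ν) : Prop :=
  0 < x c.1 ∧ 0 < x c.2.1 ∧ 0 < x c.2.2.1 ∧ 0 < x c.2.2.2 ∧
    x c.2.2.1 * x c.2.2.2 < x c.1 * x c.2.1

def QSat (Q : List (Cmp ν) × List (Prd ν)) : Prop :=
  ∃ x : ν → ℝ, (∀ c ∈ Q.1, CmpH x c) ∧ ∀ c ∈ Q.2, PrdH x c

/-- A labelled point, given by the list of its columns. -/
abbrev Pnt (ν : Type) := List ν × Bool

def PSat (Lab : ℝ → ℝ → Bool → Prop) (P : List (Cmp ν) × List (Pnt ν)) : Prop :=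
  ∃ τ υ : ν → ℝ, (∀ c ∈ P.1, CmpH τ c) ∧ ∀ p ∈ P.2, Lab (sm τ p.1) (sm υ p.1) p.2

/-- Labels given by the parabola. -/
def Par (T Y : ℝ) (b : Bool) : Prop := if b then Y < T ^ 2 else T ^ 2 < Y

noncomputable def bil (c : ℝ × ℝ × ℝ × ℝ) (T Y : ℝ) : ℝ :=
  c.1 * (Real.exp T * Real.exp Y) + c.2.1 * Real.exp T + c.2.2.1 * Real.exp Y + c.2.2.2

/-- Labels given by the sign of a bilinear form in `e^T`, `e^Y`. -/
def Bil (c : ℝ × ℝ × ℝ × ℝ) (T Y : ℝ) (b : Bool) : Prop :=
  if b then 0 < bil c T Y else bil c T Y < 0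

def NetSat (R : List (Pnt ν)) : Prop :=
  ∃ (τ υ : ν → ℝ) (b₁ b₂ a₀ a₁ a₂ : ℝ), ∀ p ∈ R,
    heaviside (a₁ * sigmoid (sm τ p.1 + b₁) + a₂ * sigmoid (sm υ p.1 + b₂) + a₀) = p.2

/-- At each centre, symmetric pairs labelled `true` are all longer, or all shorter, than
symmetric pairs labelled `false`. -/
def Dich (Lab : ℝ → ℝ → Bool → Prop) : Prop :=
  ∀ M N : ℝ,
    (∀ T₁ Y₁ T₂ Y₂ T₃ Y₃ T₄ Y₄, T₁ + T₂ = M → Y₁ + Y₂ = N → T₃ + T₄ = M → Y₃ + Y₄ = N →
      Lab T₁ Y₁ true → Lab T₂ Y₂ true → Lab T₃ Y₃ false → Lab T₄ Y₄ false →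
      (T₃ - T₄) ^ 2 < (T₁ - T₂) ^ 2) ∨
    (∀ T₁ Y₁ T₂ Y₂ T₃ Y₃ T₄ Y₄, T₁ + T₂ = M → Y₁ + Y₂ = N → T₃ + T₄ = M → Y₃ + Y₄ = N →
      Lab T₁ Y₁ true → Lab T₂ Y₂ true → Lab T₃ Y₃ false → Lab T₄ Y₄ false →
      (T₁ - T₂) ^ 2 < (T₃ - T₄) ^ 2)

/-! ### From symbols to equations -/

/-- The arity of an opcode. -/
def ar (o : ℕ) : ℕ := if o ≤ 2 then 0 else if o = 5 ∨ o = 8 then 1 else 2

/-- The stack of node names after `p` symbols. -/
def stk (ops : List ℕ) (p : ℕ) : List (ℕ × ℕ) :=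
  (List.range p).foldl (fun st i => (i, 0) :: st.drop (ar (ops.getD i 0))) []

/-- The equations of node `p` with opcode `o`, variable `v` and operands `A`, `B` (`B` on top).
`inr (0, 8)` is zero and `inr (0, 9)` is one. -/
def gate (o : ℕ) (v A B : β ⊕ ℕ × ℕ) (p : ℕ) : List (Eqn (β ⊕ ℕ × ℕ)) :=
  if o = 0 then [(inr (0, 8), inr (0, 8), v, inr (p, 0), false)]
  else if o = 1 then [(inr (0, 8), inr (0, 8), inr (0, 8), inr (p, 0), false)]
  else if o = 2 then [(inr (0, 8), inr (0, 8), inr (0, 9), inr (p, 0), false)]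
  else if o = 3 then [(inr (0, 9), A, B, inr (p, 0), false)]
  else if o = 4 ∨ o = 9 then [(A, B, inr (0, 8), inr (p, 0), false)]
  else if o = 5 then [(inr (0, 9), B, inr (p, 0), inr (0, 8), false)]
  else if o = 6 then [(inr (0, 9), A, inr (p, 1), B, false),
    (inr (p, 2), inr (p, 2), inr (0, 8), inr (p, 3), false),
    (inr (p, 1), inr (p, 3), inr (0, 8), inr (p, 4), false),
    (inr (0, 9), inr (p, 1), inr (p, 3), inr (p, 5), false),
    (inr (p, 0), inr (p, 4), inr (0, 8), inr (p, 0), false),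
    (inr (p, 0), inr (p, 5), inr (0, 8), inr (p, 5), false)]
  else if o = 7 then [(inr (0, 9), A, inr (p, 1), B, false),
    (inr (p, 0), inr (p, 1), inr (0, 8), inr (0, 8), false),
    (inr (p, 1), inr (p, 2), inr (p, 0), inr (0, 9), false)]
  else if o = 8 then [(inr (0, 9), B, inr (p, 0), inr (0, 9), false)]
  else [(A, B, inr (p, 0), inr (p, 1), false), (inr (0, 9), A, B, inr (p, 1), false)]

def eOf (l : List (ℕ × β)) : List (Eqn (β ⊕ ℕ × ℕ)) :=
  (inr (0, 8), inr (0, 8), inr (0, 8), inr (0, 8), false) ::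
  (inr (0, 8), inr (0, 8), inr (0, 9), inr (0, 8), true) ::
  (inr (0, 8), inr (0, 8), inr ((stk (l.map fun t => t.1) l.length).getD 0 (0, 8)), inr (0, 9),
    false) ::
  (l.zip (List.range l.length)).flatMap fun t => gate t.1.1 (inl t.1.2)
    (inr ((stk (l.map fun t => t.1) t.2).getD 1 (0, 8)))
    (inr ((stk (l.map fun t => t.1) t.2).getD 0 (0, 8))) t.2

/-! ### From equations to strict inequalities -/

/-- The exponent of the separation bound for `m` equations. -/
def bZ (m : ℕ) : ℕ := 200 * (m + 1) ^ 2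

abbrev QN (ν : Type) := (ν × Bool) ⊕ ℕ ⊕ Eqn ν × ℕ

/-- `inr (inl 0)` is the unit, `inr (inl (i + 1))` the `i`-th term of a rapidly decreasing chain,
`inl (v, true) - inl (v, false)` represents `v`, and `inr (inr (e, j))` bound products. -/
def qCmp (b : ℕ) (e : Eqn ν) : List (Cmp (QN ν)) :=
  [([inr (inr (e, 0)), inr (inr (e, 1)), inl (e.2.2.1, true), inl (e.2.2.2.1, false)],
    [inr (inr (e, 6)), inr (inr (e, 7)), inl (e.2.2.1, false), inl (e.2.2.2.1, true),
      inr (inl (2 * b + 1))] ++ cond e.2.2.2.2 [inr (inl 0)] []),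
   ([inr (inr (e, 2)), inr (inr (e, 3)), inl (e.2.2.1, false), inl (e.2.2.2.1, true)] ++
      cond e.2.2.2.2 [inr (inl 0)] [],
    [inr (inr (e, 4)), inr (inr (e, 5)), inl (e.2.2.1, true), inl (e.2.2.2.1, false),
      inr (inl (2 * b + 1))])]

def qPrd (b : ℕ) (e : Eqn ν) : List (Prd (QN ν)) :=
  ([e.1, e.2.1, e.2.2.1, e.2.2.2.1].flatMap fun v =>
    [(inr (inl 0), inr (inl 0), inl (v, true), inr (inl (b + 1))),
     (inr (inl 0), inr (inl 0), inl (v, false), inr (inl (b + 1)))]) ++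
  [(inr (inr (e, 0)), inr (inl 0), inl (e.1, true), inl (e.2.1, true)),
   (inr (inr (e, 1)), inr (inl 0), inl (e.1, false), inl (e.2.1, false)),
   (inr (inr (e, 2)), inr (inl 0), inl (e.1, true), inl (e.2.1, false)),
   (inr (inr (e, 3)), inr (inl 0), inl (e.1, false), inl (e.2.1, true)),
   (inl (e.1, true), inl (e.2.1, true), inr (inr (e, 4)), inr (inl 0)),
   (inl (e.1, false), inl (e.2.1, false), inr (inr (e, 5)), inr (inl 0)),
   (inl (e.1, true), inl (e.2.1, false), inr (inr (e, 6)), inr (inl 0)),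
   (inl (e.1, false), inl (e.2.1, true), inr (inr (e, 7)), inr (inl 0))]

def qOf (E : List (Eqn ν)) : List (Cmp (QN ν)) × List (Prd (QN ν)) :=
  (([inr (inl 1), inr (inl 1)], [inr (inl 0)]) :: E.flatMap (qCmp (bZ E.length)),
   ((List.range (2 * bZ E.length)).map fun i =>
      (inr (inl (i + 1)), inr (inl (i + 1)), inr (inl (i + 2)), inr (inl 0))) ++
    E.flatMap (qPrd (bZ E.length)))

/-! ### From products to labelled points -/

abbrev PN (ν : Type) := ν ⊕ Prd ν × ℕ × Bool × ℕ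

/-- Comparisons of the gadget of `c` in window `w`, side `s`. Columns: `0, 1, 2` span the first
parallelogram, `3, 4, 5` the second, `6` couples them, `7` bounds the windows. -/
def gCmp (c : Prd ν) (w : ℕ) (s : Bool) : List (Cmp (PN ν)) :=
  [([], [inr (c, w, s, 1)]), ([], [inr (c, w, s, 2)]),
   ([inr (c, w, s, 1)], [inl c.1]), ([inr (c, w, s, 2)], [inl c.2.1]),
   ([inl c.2.2.1], [inr (c, w, s, 4)]), ([inl c.2.2.2], [inr (c, w, s, 5)]),
   ([], [inl c.2.2.1]), ([], [inl c.2.2.2])] ++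
  cond s
    [([inr (c, w, false, 7)], [inr (c, w, s, 3)]), ([inr (c, w, s, 6)], []),
     ([], [inr (c, w, s, 4), inr (c, w, s, 5), inr (c, w, s, 6)]),
     ([inr (c, w, s, 3), inr (c, w, s, 4), inr (c, w, s, 5)], [inr (c, w, s, 0)]),
     ([inr (c, w, s, 0), inr (c, w, s, 1), inr (c, w, s, 2)], [inr (c, w + 1, false, 7)])]
    [([inr (c, w, false, 7)], [inr (c, w, s, 0)]), ([], [inr (c, w, s, 6)]),
     ([inr (c, w, s, 0), inr (c, w, s, 1), inr (c, w, s, 2), inr (c, w, s, 6)],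
       [inr (c, w, s, 3)]),
     ([inr (c, w, s, 3), inr (c, w, s, 4), inr (c, w, s, 5), inr (c, w, s, 6)],
       [inr (c, w + 1, false, 7)])]

def gPnt (c : Prd ν) (w : ℕ) (s : Bool) : List (Pnt (PN ν)) :=
  [([inr (c, w, s, 0)], true), ([inr (c, w, s, 0), inr (c, w, s, 1)], false),
   ([inr (c, w, s, 0), inr (c, w, s, 2)], false),
   ([inr (c, w, s, 0), inr (c, w, s, 1), inr (c, w, s, 2)], true),
   ([inr (c, w, s, 0), inr (c, w, s, 1), inr (c, w, s, 2), inr (c, w, s, 6)], true),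
   ([inr (c, w, s, 3)], false), ([inr (c, w, s, 3), inr (c, w, s, 4)], true),
   ([inr (c, w, s, 3), inr (c, w, s, 5)], true),
   ([inr (c, w, s, 3), inr (c, w, s, 4), inr (c, w, s, 5), inr (c, w, s, 6)], false)]

def pOf (Q : List (Cmp ν) × List (Prd ν)) : List (Cmp (PN ν)) × List (Pnt (PN ν)) :=
  ((Q.1.map fun c => (c.1.map inl, c.2.map inl)) ++
    Q.2.flatMap fun c => (List.range 9).flatMap fun w => gCmp c w false ++ gCmp c w true,
   Q.2.flatMap fun c => (List.range 9).flatMap fun w => gPnt c w false ++ gPnt c w true)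

/-! ### Fresh copies, so that compared sums have no repeated columns -/

abbrev CN (ν : Type) := ν ⊕ Cmp ν × Bool × ℕ

def cp (c : Cmp ν) (s : Bool) (n : ℕ) : List (CN ν) := (List.range n).map fun i => inr (c, s, i)

def cOf (P : List (Cmp ν) × List (Pnt ν)) : List (Cmp (CN ν)) × List (Pnt (CN ν)) :=
  (P.1.flatMap fun c => (cp c false c.1.length, cp c true c.2.length) ::
      (((c.1.zip (cp c false c.1.length)).map fun p => ([inl p.1], [p.2])) ++
       ((c.2.zip (cp c true c.2.length)).map fun p => ([p.2], [inl p.1]))),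
   P.2.map fun p => (p.1.map inl, p.2))

/-! ### From comparisons to labelled points -/

abbrev RN (ν : Type) := ν ⊕ ℕ ⊕ Cmp ν

def quads : List (Bool × Bool × Bool × Bool) :=
  [false, true].flatMap fun a => [false, true].flatMap fun b => [false, true].flatMap fun c =>
    [false, true].map fun d => (a, b, c, d)

/-- The twenty points of the comparator of `c`. -/
def rPnt (c : Cmp ν) : List (Pnt (RN ν)) :=
  (quads.map fun q =>
    (inr (inr c) :: (cond q.1 (inr (inl 0) :: inr (inl 1) :: (c.1 ++ c.2).map inl) [] ++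
      (cond q.2.1 [inr (inl 2), inr (inl 3)] [] ++ (cond q.2.2.1 [inr (inl 4), inr (inl 5)] [] ++
        cond q.2.2.2 [inr (inl 6), inr (inl 7)] []))),
      decide (q.1.toNat + q.2.1.toNat + q.2.2.1.toNat + q.2.2.2.toNat ≠ 2))) ++
  [(inr (inr c) :: inr (inl 0) :: inr (inl 1) :: inr (inl 2) :: c.1.map inl, true),
   (inr (inr c) :: inr (inl 3) :: inr (inl 4) :: inr (inl 5) :: inr (inl 6) :: inr (inl 7) ::
      c.2.map inl, true),
   (inr (inr c) :: inr (inl 0) :: inr (inl 1) :: inr (inl 2) :: c.2.map inl, false),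
   (inr (inr c) :: inr (inl 3) :: inr (inl 4) :: inr (inl 5) :: inr (inl 6) :: inr (inl 7) ::
      c.1.map inl, false)]

def rOf (P : List (Cmp ν) × List (Pnt ν)) : List (Pnt (RN ν)) :=
  (P.2.map fun p => (p.1.map inl, p.2)) ++ P.1.flatMap rPnt

/-! ### The instance of the loading problem -/

open Classical in
noncomputable def fOf (R : List (Pnt ν)) : ℕ × List (List Bool × Bool) :=
  ((R.flatMap fun p => p.1).length + R.length,
   R.map fun p => (((R.flatMap fun p => p.1).map fun c => decide (c ∈ p.1)) ++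
     List.replicate R.length false, p.2))

end Pool.Agent.Work.MP_fae5c8_lc.ER
end

-- merged part: Pool.Agent.Work.MP_fae5c8_lc.ER.Compile
section
/-! A formula is satisfiable iff its system of equations is. -/

namespace Pool.Agent.Work.MP_fae5c8_lc.ER

open Sum

variable {β : Type}

open Classical in
/-- The operation of an opcode. -/
noncomputable def Compile_op (o : ℕ) (v A B : ℝ) : ℝ :=
  if o = 0 then v else if o = 1 then 0 else if o = 2 then 1 else if o = 3 then A + B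
  else if o = 4 ∨ o = 9 then A * B else if o = 5 then -B
  else if o = 6 then (if A < B then 1 else 0) else if o = 7 then (if A = B then 1 else 0)
  else if o = 8 then 1 - B else A + B - A * B

/-- One step of the stack machine. -/
noncomputable def Compile_step (y : β → ℝ) (st : List ℝ) (t : ℕ × β) : List ℝ :=
  Compile_op t.1 (y t.2) (st.getD 1 0) (st.getD 0 0) :: st.drop (ar t.1)

/-- The stack after `p` symbols. -/
noncomputable def Compile_rs (y : β → ℝ) (l : List (ℕ × β)) (p : ℕ) : List ℝ :=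
  (l.take p).foldl (Compile_step y) []

theorem Compile_getD (val : ℕ × ℕ → ℝ) (h : val (0, 8) = 0) (st : List (ℕ × ℕ)) (i : ℕ) :
    (st.map val).getD i 0 = val (st.getD i (0, 8)) := by
  rw [← h, List.getD_map]

theorem Compile_inv (val : ℕ × ℕ → ℝ) (y : β → ℝ) (l : List (ℕ × β))
    (H : ∀ p (h : p < l.length), (stk (l.map fun t => t.1) p).map val = Compile_rs y l p →
      val (p, 0) = Compile_op l[p].1 (y l[p].2) ((Compile_rs y l p).getD 1 0)
        ((Compile_rs y l p).getD 0 0)) :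
    ∀ p ≤ l.length, (stk (l.map fun t => t.1) p).map val = Compile_rs y l p := by
  intro p
  induction p with
  | zero => intro _; rfl
  | succ p ih =>
    intro hp
    have h : p < l.length := hp
    have e := ih h.le
    have e1 : stk (l.map fun t => t.1) (p + 1) =
        (p, 0) :: (stk (l.map fun t => t.1) p).drop (ar l[p].1) := by
      have : (l.map fun t => t.1).getD p 0 = l[p].1 := by
        simp [List.getD_eq_getElem?_getD, List.getElem?_eq_getElem h]
      rw [stk, List.range_succ, List.foldl_append, ← this]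
      rfl
    have e2 : Compile_rs y l (p + 1) = Compile_step y (Compile_rs y l p) l[p] := by
      rw [Compile_rs, List.take_succ_eq_append_getElem h, List.foldl_append]
      rfl
    rw [e1, e2, List.map_cons, List.map_drop, e, H p h e]
    rfl

theorem Compile_sound (x : β ⊕ ℕ × ℕ → ℝ) (h0 : x (inr (0, 8)) = 0) (h1 : x (inr (0, 9)) = 1)
    (o : ℕ) (v A B : β ⊕ ℕ × ℕ) (p : ℕ) (h : ∀ e ∈ gate o v A B p, ev x e = 0) :
    x (inr (p, 0)) = Compile_op o (x v) (x A) (x B) := by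
  have key : ∀ {c : Prop} {d d' : Decidable c} {a a' : List (Eqn (β ⊕ ℕ × ℕ))} {b b' : ℝ},
      (c → (∀ e ∈ a, ev x e = 0) → x (inr (p, 0)) = b) →
      (¬ c → (∀ e ∈ a', ev x e = 0) → x (inr (p, 0)) = b') →
      (∀ e ∈ @ite _ c d a a', ev x e = 0) → x (inr (p, 0)) = @ite _ c d' b b' := by
    intro c d d' a a' b b' k1 k2
    by_cases k : c
    · rw [if_pos k, if_pos k]; exact k1 k
    · rw [if_neg k, if_neg k]; exact k2 k
  revert h
  unfold gate Compile_op
  refine key (fun _ h => ?_) fun _ => key (fun _ h => ?_) fun _ => key (fun _ h => ?_) fun _ =>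
    key (fun _ h => ?_) fun _ => key (fun _ h => ?_) fun _ => key (fun _ h => ?_) fun _ =>
    key (fun _ h => ?_) fun _ => key (fun _ h => ?_) fun _ => key (fun _ h => ?_) fun _ h => ?_
  all_goals simp only [List.forall_mem_cons, ev, h0, h1, Bool.false_eq_true, if_false] at h
  · linarith only [h.1]
  · linarith only [h.1]
  · linarith only [h.1]
  · linarith only [h.1]
  · linarith only [h.1]
  · linarith only [h.1]
  · obtain ⟨a1, a2, a3, a4, a5, a6, -⟩ := h
    split_ifs with a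
    · have b1 : 0 < x (inr (p, 5)) := by linarith only [a1, a2, a4, a, mul_self_nonneg (x (inr (p, 2)))]
      exact mul_right_cancel₀ b1.ne' (by linarith only [a6])
    · have b0 : 0 ≤ x (inr (p, 3)) := by linarith only [a2, mul_self_nonneg (x (inr (p, 2)))]
      have b1 : x (inr (p, 4)) ≤ 0 := by
        have := mul_nonpos_of_nonpos_of_nonneg (show x (inr (p, 1)) ≤ 0 by linarith) b0
        linarith
      exact mul_right_cancel₀ (show x (inr (p, 4)) - 1 ≠ 0 by linarith) (by linarith only [a5])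
  · obtain ⟨a1, a2, a3, -⟩ := h
    split_ifs with a
    · have b1 : x (inr (p, 1)) = 0 := by linarith only [a1, a]
      rw [b1] at a3
      linarith only [a3]
    · have b1 : x (inr (p, 1)) ≠ 0 := fun b => a (by linarith only [a1, b])
      exact mul_right_cancel₀ b1 (by linarith only [a2])
  · linarith only [h.1]
  · linarith only [h.1, h.2.1]

open Classical in
/-- The values of the auxiliary variables. -/
noncomputable def Compile_aux (o : ℕ) (v A B : ℝ) (j : ℕ) : ℝ :=
  if j = 0 then Compile_op o v A B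
  else if j = 1 then (if o = 6 ∨ o = 7 then B - A else A + B)
  else if j = 2 then (if o = 6 then √(if A < B then (B - A)⁻¹ else A - B) else (B - A)⁻¹)
  else if j = 3 then (if A < B then (B - A)⁻¹ else A - B)
  else if j = 4 then (B - A) * (if A < B then (B - A)⁻¹ else A - B)
  else if j = 5 then (B - A) + (if A < B then (B - A)⁻¹ else A - B)
  else if j = 9 then 1 else 0

theorem Compile_complete (x : β ⊕ ℕ × ℕ → ℝ) (h0 : x (inr (0, 8)) = 0) (h1 : x (inr (0, 9)) = 1)
    (o : ℕ) (v A B : β ⊕ ℕ × ℕ) (p : ℕ)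
    (h : ∀ j, x (inr (p, j)) = Compile_aux o (x v) (x A) (x B) j) :
    ∀ e ∈ gate o v A B p, ev x e = 0 := by
  have key : ∀ {c : Prop} {d : Decidable c} {a a' : List (Eqn (β ⊕ ℕ × ℕ))},
      (c → ∀ e ∈ a, ev x e = 0) → (¬ c → ∀ e ∈ a', ev x e = 0) →
      ∀ e ∈ @ite _ c d a a', ev x e = 0 := by
    intro c d a a' k1 k2
    by_cases k : c
    · rw [if_pos k]; exact k1 k
    · rw [if_neg k]; exact k2 k
  unfold gate
  refine key (fun c0 => ?_) fun c0 => key (fun c1 => ?_) fun c1 => key (fun c2 => ?_) fun c2 =>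
    key (fun c3 => ?_) fun c3 => key (fun c4 => ?_) fun c4 => key (fun c5 => ?_) fun c5 =>
    key (fun c6 => ?_) fun c6 => key (fun c7 => ?_) fun c7 => key (fun c8 => ?_) fun c8 => ?_
  all_goals simp only [List.forall_mem_cons, ev, h0, h1, h, Bool.false_eq_true, if_false]
  · simp [Compile_aux, Compile_op, c0]
  · simp [Compile_aux, Compile_op, c1]
  · simp [Compile_aux, Compile_op, c2]
  · simp [Compile_aux, Compile_op, c3]
  · rcases c4 with c4 | c4 <;> simp [Compile_aux, Compile_op, c4]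
  · simp [Compile_aux, Compile_op, c5]
  · by_cases a : x A < x B
    · have b : 0 < x B - x A := sub_pos.2 a
      simp [Compile_aux, Compile_op, c6, a, ← mul_inv, Real.mul_self_sqrt b.le,
        mul_inv_cancel₀ b.ne']
    · have b : 0 ≤ x A - x B := sub_nonneg.2 (not_lt.1 a)
      simp [Compile_aux, Compile_op, c6, a, Real.mul_self_sqrt b]
  · by_cases a : x A = x B
    · simp [Compile_aux, Compile_op, c7, a]
    · have b : x B - x A ≠ 0 := sub_ne_zero.2 (Ne.symm a)
      simp [Compile_aux, Compile_op, c7, a, mul_inv_cancel₀ b]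
  · simp [Compile_aux, Compile_op, c8]
  · simp [Compile_aux, Compile_op, c0, c1, c2, c3, c4, c5, c6, c7, c8]

theorem Compile_mem {l : List (ℕ × β)} {t : (ℕ × β) × ℕ} :
    t ∈ l.zip (List.range l.length) ↔ ∃ (p : ℕ) (h : p < l.length), t = (l[p], p) := by
  rw [List.mem_iff_getElem]
  constructor
  · rintro ⟨p, h, rfl⟩
    exact ⟨p, by simpa using h, by simp⟩
  · rintro ⟨p, h, rfl⟩
    exact ⟨p, by simpa using h, by simp⟩

theorem Compile_main (l : List (ℕ × β)) :
    ESat (eOf l) ↔ ∃ y : β → ℝ, (l.foldl (Compile_step y) []).getD 0 0 = 1 := by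
  constructor
  · rintro ⟨x, h⟩
    simp only [eOf, List.forall_mem_cons, List.mem_flatMap] at h
    obtain ⟨a0, a1, a2, h⟩ := h
    simp only [ev, Bool.false_eq_true, if_false, if_true] at a0 a1 a2
    have h0 : x (inr (0, 8)) = 0 := by nlinarith
    have h1 : x (inr (0, 9)) = 1 := by rw [h0] at a1; linarith
    have e := Compile_inv (fun a => x (inr a)) (fun b => x (inl b)) l (fun p hp e => by
      rw [← e, Compile_getD _ h0, Compile_getD _ h0]
      exact Compile_sound x h0 h1 _ _ _ _ _ fun q hq =>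
        h q ⟨(l[p], p), Compile_mem.2 ⟨p, hp, rfl⟩, hq⟩) l.length le_rfl
    refine ⟨fun b => x (inl b), ?_⟩
    rw [Compile_rs, List.take_length] at e
    rw [← e, Compile_getD _ h0]
    rw [h0, h1] at a2
    linarith
  · rintro ⟨y, hy⟩
    let val : ℕ × ℕ → ℝ := fun a => Compile_aux ((l[a.1]?.map fun t => t.1).getD 0)
      ((l[a.1]?.map fun t => y t.2).getD 0) ((Compile_rs y l a.1).getD 1 0)
      ((Compile_rs y l a.1).getD 0 0) a.2
    have h0 : val (0, 8) = 0 := by simp [val, Compile_aux]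
    have h1 : val (0, 9) = 1 := by simp [val, Compile_aux]
    have hv : ∀ p (h : p < l.length) j, val (p, j) = Compile_aux l[p].1 (y l[p].2)
        ((Compile_rs y l p).getD 1 0) ((Compile_rs y l p).getD 0 0) j := by
      intro p h j
      simp only [val, List.getElem?_eq_getElem h, Option.map_some, Option.getD_some]
    have e := Compile_inv val y l fun p hp _ => by
      rw [hv p hp, Compile_aux, if_pos rfl]
    refine ⟨Sum.elim y val, ?_⟩
    simp only [eOf, List.forall_mem_cons, List.mem_flatMap]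
    refine ⟨by simp [ev, h0], by simp [ev, h0, h1], ?_, ?_⟩
    · have e1 := e l.length le_rfl
      rw [Compile_rs, List.take_length] at e1
      rw [← e1, Compile_getD _ h0] at hy
      simp only [ev, Sum.elim_inr, h0, h1, hy]
      simp
    · rintro q ⟨t, ht, hq⟩
      obtain ⟨p, hp, rfl⟩ := Compile_mem.1 ht
      refine Compile_complete (Sum.elim y val) h0 h1 _ _ _ _ _ (fun j => ?_) q hq
      simp only [Sum.elim_inr, Sum.elim_inl]
      rw [hv p hp, ← e p hp.le, Compile_getD _ h0, Compile_getD _ h0]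

theorem Compile_tm (ι : ℕ → β) (y : β → ℝ) (t : Tm) (st : List ℝ) :
    (t.toks.map fun t => (t.1, ι t.2)).foldl (Compile_step y) st =
      t.eval (fun i => y (ι i)) :: st := by
  induction t generalizing st with
  | var i => simp [Tm.toks, Tm.eval, Compile_step, Compile_op, ar]
  | zero => simp [Tm.toks, Tm.eval, Compile_step, Compile_op, ar]
  | one => simp [Tm.toks, Tm.eval, Compile_step, Compile_op, ar]
  | add s t hs ht =>
    simp only [Tm.toks, List.map_append, List.foldl_append, hs, ht]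
    simp [Tm.eval, Compile_step, Compile_op, ar]
  | mul s t hs ht =>
    simp only [Tm.toks, List.map_append, List.foldl_append, hs, ht]
    simp [Tm.eval, Compile_step, Compile_op, ar]
  | neg s hs =>
    simp only [Tm.toks, List.map_append, List.foldl_append, hs]
    simp [Tm.eval, Compile_step, Compile_op, ar]

open Classical in
theorem Compile_fm (ι : ℕ → β) (y : β → ℝ) (φ : Fm) (st : List ℝ) :
    (φ.toks.map fun t => (t.1, ι t.2)).foldl (Compile_step y) st =
      (if φ.Holds (fun i => y (ι i)) then 1 else 0) :: st := by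
  induction φ generalizing st with
  | lt s t =>
    simp only [Fm.toks, List.map_append, List.foldl_append, Compile_tm]
    simp [Fm.Holds, Compile_step, Compile_op, ar]
  | eq s t =>
    simp only [Fm.toks, List.map_append, List.foldl_append, Compile_tm]
    simp [Fm.Holds, Compile_step, Compile_op, ar]
  | not p hp =>
    simp only [Fm.toks, List.map_append, List.foldl_append, hp]
    by_cases a : p.Holds fun i => y (ι i) <;> simp [Fm.Holds, Compile_step, Compile_op, ar, a]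
  | and p q hp hq =>
    simp only [Fm.toks, List.map_append, List.foldl_append, hp, hq]
    by_cases a : p.Holds fun i => y (ι i) <;> by_cases b : q.Holds fun i => y (ι i) <;>
      simp [Fm.Holds, Compile_step, Compile_op, ar, a, b]
  | or p q hp hq =>
    simp only [Fm.toks, List.map_append, List.foldl_append, hp, hq]
    by_cases a : p.Holds fun i => y (ι i) <;> by_cases b : q.Holds fun i => y (ι i) <;>
      simp [Fm.Holds, Compile_step, Compile_op, ar, a, b]

theorem eOf_iff {β : Type} (ι : ℕ → β) (hι : Function.Injective ι) (φ : Fm) :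
    ESat (eOf (φ.toks.map fun t => (t.1, ι t.2))) ↔ ∃ x, φ.Holds x := by
  rw [Compile_main]
  constructor
  · rintro ⟨y, h⟩
    rw [Compile_fm] at h
    refine ⟨fun i => y (ι i), ?_⟩
    by_contra a
    simp [a] at h
  · rintro ⟨x, h⟩
    refine ⟨fun b => x (Function.invFun ι b), ?_⟩
    rw [Compile_fm]
    have e : (fun i => x (Function.invFun ι (ι i))) = x :=
      funext fun i => congrArg x (Function.leftInverse_invFun hι i)
    rw [e]
    simp [h]

end Pool.Agent.Work.MP_fae5c8_lc.ER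
end

-- merged part: Pool.Agent.Work.MP_fae5c8_lc.ER.ZDefs
section
/-! Definitions for the separation bound. -/

namespace Pool.Agent.Work.MP_fae5c8_lc.ER

variable {n : ℕ} {R : Type} [CommRing R]

/-- The partial derivative of the defect `ev x e` in the variable `i`. -/
def dv (x : Fin n → R) (i : Fin n) (e : Eqn (Fin n)) : R :=
  (if e.1 = i then x e.2.1 else 0) + (if e.2.1 = i then x e.1 else 0) +
    (if e.2.2.1 = i then 1 else 0) - (if e.2.2.2.1 = i then 1 else 0)

/-- The sum of the squares of the defects. -/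
def zF (E : List (Eqn (Fin n))) (x : Fin n → R) : R := (E.map fun e => ev x e ^ 2).sum

/-- The penalised sum of squares. -/
def zT (E : List (Eqn (Fin n))) (x : Fin n → R) (ε : R) : R := zF E x + ε * ∑ i, x i ^ 2

/-- The gradient of `zT` in `x`. -/
def zY (E : List (Eqn (Fin n))) (x : Fin n → R) (ε : R) (i : Fin n) : R :=
  (E.map fun e => 2 * ev x e * dv x i e).sum + 2 * ε * x i

def zMon (E : List (Eqn (Fin n))) (x : Fin n → R) (ε : R) {N : ℕ}
    (k : Fin N × Fin N × (Fin n → Fin N)) : R :=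
  zT E x ε ^ (k.1 : ℕ) * ε ^ (k.2.1 : ℕ) * ∏ i, zY E x ε i ^ (k.2.2 i : ℕ)

def zN (n : ℕ) : ℕ := 2 * (5 * (n + 2)) ^ (n + 1)

def zH (n m : ℕ) : ℕ :=
  zN n ^ (n + 2) * ((12 * m + n + 2) * (5 * (n + 2) * zN n) ^ 4) ^ ((n + 2) * zN n)

end Pool.Agent.Work.MP_fae5c8_lc.ER
end

-- merged part: Pool.Agent.Work.MP_fae5c8_lc.ER.ZRel
section
/-! An integer polynomial relation of bounded height between `zT`, `ε` and `zY` (Siegel). -/

namespace Pool.Agent.Work.MP_fae5c8_lc.ER

section Aux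

attribute [local instance] Matrix.seminormedAddCommGroup

variable {n : ℕ} {R R' : Type} [CommRing R] [CommRing R']

/-- A notion of size with a coefficient bound and a degree bound. -/
structure ZRelG (G : ℕ → ℕ → R → Prop) : Prop where
  one : G 1 0 1
  zero : G 0 0 0
  add : ∀ {c c' d a b}, G c d a → G c' d b → G (c + c') d (a + b)
  neg : ∀ {c d a}, G c d a → G c d (-a)
  mul : ∀ {c c' d d' a b}, G c d a → G c' d' b → G (c * c') (d + d') (a * b)
  mono : ∀ {c c' d d' a}, G c d a → c ≤ c' → d ≤ d' → G c' d' a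

namespace ZRelG

variable {G : ℕ → ℕ → R → Prop} (h : ZRelG G) {c c' d : ℕ} {a b : R}
include h

theorem sub (ha : G c d a) (hb : G c' d b) : G (c + c') d (a - b) := by
  rw [sub_eq_add_neg]
  exact h.add ha (h.neg hb)

theorem prod {ι : Type} (s : Finset ι) {f : ι → R} (hf : ∀ i, G c d (f i)) :
    G (c ^ s.card) (d * s.card) (∏ i ∈ s, f i) := by
  induction s using Finset.cons_induction with
  | empty => simpa using h.one
  | cons i s hi ih =>
    rw [Finset.prod_cons, Finset.card_cons, pow_succ', mul_add_one, add_comm]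
    exact h.mul (hf i) ih

theorem pow (ha : G c d a) (hc : 1 ≤ c) {k N : ℕ} (hk : k ≤ N) : G (c ^ N) (d * N) (a ^ k) := by
  have := h.prod (Finset.range k) (f := fun _ => a) fun _ => ha
  rw [Finset.prod_const, Finset.card_range] at this
  exact h.mono this (Nat.pow_le_pow_right hc hk) (Nat.mul_le_mul_left d hk)

theorem lsum {ι : Type} (l : List ι) {f : ι → R} (hf : ∀ i, G c d (f i)) :
    G (l.length * c) d (l.map f).sum := by
  induction l with
  | nil => exact h.mono h.zero (Nat.zero_le _) (Nat.zero_le _)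
  | cons i l ih =>
    rw [List.map_cons, List.sum_cons, List.length_cons, add_one_mul, add_comm (_ * _)]
    exact h.add (hf i) ih

theorem ite (p : Prop) [Decidable p] (ha : G c d a) : G c d (if p then a else 0) := by
  split_ifs
  · exact ha
  · exact h.mono h.zero (Nat.zero_le _) (Nat.zero_le _)

theorem mon (E : List (Eqn (Fin n))) {x : Fin n → R} {ε : R} (hx : ∀ i, G 1 1 (x i))
    (hε : G 1 1 ε) {N : ℕ} (k : Fin N × Fin N × (Fin n → Fin N)) :
    G ((32 * E.length + n + 2) ^ ((n + 2) * N)) (4 * ((n + 2) * N)) (zMon E x ε k) := by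
  have x2 : ∀ i, G 1 2 (x i) := fun i => h.mono (hx i) le_rfl one_le_two
  have hev : ∀ e, G 4 2 (ev x e) := fun e =>
    h.sub (h.sub (h.add (h.mul (hx _) (hx _)) (x2 _)) (x2 _))
      (h.ite _ (h.mono h.one le_rfl zero_le_two))
  have o1 := h.mono h.one le_rfl zero_le_one
  have hdv : ∀ i e, G 4 1 (dv x i e) := fun i e =>
    h.sub (h.add (h.add (h.ite _ (hx _)) (h.ite _ (hx _))) (h.ite _ o1)) (h.ite _ o1)
  have two : G 2 0 2 := by simpa only [one_add_one_eq_two] using h.add h.one h.one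
  have hT : G (32 * E.length + n + 2) 4 (zT E x ε) := by
    have a := h.lsum E fun e => h.pow (hev e) (by norm_num) (le_refl 2)
    have b := h.lsum (List.finRange n) fun i => h.pow (hx i) le_rfl (le_refl 2)
    rw [← Fin.sum_univ_def, List.length_finRange] at b
    exact h.mono (h.add a (h.mono (h.mul hε b) le_rfl (by norm_num))) (by omega) le_rfl
  have hY : ∀ i, G (32 * E.length + n + 2) 4 (zY E x ε i) := fun i =>
    h.mono (h.add (h.lsum E fun e => h.mul (h.mul two (hev e)) (hdv i e))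
      (h.mono (h.mul (h.mul two hε) (hx i)) le_rfl (by norm_num))) (by omega) (by norm_num)
  have B : 1 ≤ 32 * E.length + n + 2 := by omega
  refine h.mono (h.mul (h.mul (h.pow hT B k.1.2.le)
    (h.pow (h.mono hε B (show 1 ≤ 4 by norm_num)) B k.2.1.2.le))
    (h.prod Finset.univ fun i => h.pow (hY i) B (k.2.2 i).2.le)) (le_of_eq ?_) (le_of_eq ?_) <;>
  rw [Finset.card_fin] <;> ring

end ZRelG

theorem zRel_int {M : ℕ} (hM : 1 ≤ M) : ZRelG fun c d (a : ℤ) => |a| ≤ c * M ^ d where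
  one := by simp
  zero := by simp
  add ha hb := (abs_add_le _ _).trans (by push_cast; linarith only [ha, hb])
  neg ha := by rwa [abs_neg]
  mul ha hb := by
    rw [abs_mul, pow_add, Nat.cast_mul, mul_mul_mul_comm]
    exact mul_le_mul ha hb (abs_nonneg _) (by positivity)
  mono ha hc hd := ha.trans (by gcongr; exact_mod_cast hM)

theorem zRel_deg {σ : Type} : ZRelG fun _ d (a : MvPolynomial σ ℤ) => a.totalDegree ≤ d where
  one := by simp
  zero := by simp
  add ha hb := (MvPolynomial.totalDegree_add _ _).trans (max_le ha hb)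
  neg ha := by rwa [MvPolynomial.totalDegree_neg]
  mul ha hb := (MvPolynomial.totalDegree_mul _ _).trans (add_le_add ha hb)
  mono ha _ hd := ha.trans hd

theorem zRel_map (f : R →+* R') (E : List (Eqn (Fin n))) (x : Fin n → R) (ε : R) {N : ℕ}
    (k : Fin N × Fin N × (Fin n → Fin N)) :
    f (zMon E x ε k) = zMon E (fun i => f (x i)) (f ε) k := by
  simp [zMon, zT, zF, zY, ev, dv, map_list_sum, apply_ite f, Function.comp_def, map_ofNat]

theorem zRel_siegel {α β : Type} [Fintype α] [Fintype β] (A : Matrix α β ℤ) (B : ℕ) (hB : 1 ≤ B)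
    (hA : ∀ a b, |A a b| ≤ B) (h0 : 0 < Fintype.card α) (h : 2 * Fintype.card α ≤ Fintype.card β) :
    ∃ w : β → ℤ, w ≠ 0 ∧ A.mulVec w = 0 ∧ ∀ k, |w k| ≤ (Fintype.card β * B : ℕ) := by
  obtain ⟨w, h1, h2, h3⟩ := Int.Matrix.exists_ne_zero_int_vec_norm_le A (by omega) h0
  refine ⟨w, h1, h2, fun k => ?_⟩
  have a : (0 : ℝ) < Fintype.card α := by exact_mod_cast h0
  have b : (2 : ℝ) * Fintype.card α ≤ Fintype.card β := by exact_mod_cast h
  have c : (1 : ℝ) ≤ Fintype.card β := by exact_mod_cast (by omega : 1 ≤ Fintype.card β)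
  have d : max 1 ‖A‖ ≤ B := max_le (by exact_mod_cast hB) ((Matrix.norm_le_iff B.cast_nonneg).2
    fun a b => by rw [Int.norm_eq_abs]; exact_mod_cast hA a b)
  have e := Real.rpow_le_rpow_of_exponent_le (one_le_mul_of_one_le_of_one_le c (le_max_left 1 ‖A‖))
    ((div_le_one (by linarith only [a, b])).2 (show (Fintype.card α : ℝ) ≤ Fintype.card β - Fintype.card α by
      linarith only [b]))
  rw [Real.rpow_one] at e
  have k1 := ((norm_le_pi_norm w k).trans h3).trans (e.trans (mul_le_mul_of_nonneg_left d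
    (by linarith only [a, b])))
  rw [Int.norm_eq_abs] at k1
  exact_mod_cast k1

end Aux

open MvPolynomial in
theorem z_rel {n : ℕ} (E : List (Eqn (Fin n))) :
    ∃ w : Fin (zN n) × Fin (zN n) × (Fin n → Fin (zN n)) → ℤ, w ≠ 0 ∧
      (∀ k, |w k| ≤ zH n E.length) ∧
      ∀ (x : Fin n → ℝ) (ε : ℝ), ∑ k, (w k : ℝ) * zMon E x ε k = 0 := by
  have hN : 0 < zN n := by unfold zN; positivity
  set K := (n + 2) * zN n with hK
  have K1 : 1 ≤ K := Nat.mul_pos (by omega) hN
  set S : Option (Fin n) → Finset ℤ := fun _ => Finset.Icc (-(2 * K : ℕ)) (2 * K : ℕ) with hS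
  have cS : ∀ o, (S o).card = 4 * K + 1 := fun o => by
    rw [hS, Int.card_Icc]
    omega
  have cR : Fintype.card (Fintype.piFinset S) = (4 * K + 1) ^ (n + 1) := by
    simp [cS]
  have cC : Fintype.card (Fin (zN n) × Fin (zN n) × (Fin n → Fin (zN n))) = zN n ^ (n + 2) := by
    simp [pow_succ']
  obtain ⟨w, h1, h2, h3⟩ := zRel_siegel (Matrix.of fun (z : Fintype.piFinset S)
    (k : Fin (zN n) × Fin (zN n) × (Fin n → Fin (zN n))) => zMon E (fun i => z.1 (some i))
      (z.1 none) k) (((12 * E.length + n + 2) * (5 * (n + 2) * zN n) ^ 4) ^ K)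
    (Nat.one_le_iff_ne_zero.2 (by positivity)) (fun z k => by
      have hz : ∀ o, |z.1 o| ≤ (1 : ℕ) * ((2 * K : ℕ) : ℤ) ^ 1 := fun o => by
        simpa only [Nat.cast_one, one_mul, pow_one] using
          abs_le.2 (Finset.mem_Icc.1 (Fintype.mem_piFinset.1 z.2 o))
      refine ((zRel_int (M := 2 * K) (by omega)).mon E (fun i => hz (some i)) (hz none) k).trans ?_
      rw [← hK, ← Nat.cast_pow, pow_mul (2 * K), ← Nat.cast_mul, ← mul_pow, mul_assoc 5, ← hK]
      refine Nat.cast_le.2 (Nat.pow_le_pow_left ?_ _)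
      rw [mul_pow 2 K, mul_pow 5 K, ← mul_assoc _ _ (K ^ 4), ← mul_assoc _ _ (K ^ 4)]
      exact Nat.mul_le_mul_right _ (by omega)) (by rw [cR]; positivity) (by
      rw [cR, cC, pow_succ' (zN n), show zN n * zN n ^ (n + 1) = 2 * (5 * K) ^ (n + 1) by
        rw [hK, ← mul_assoc 5, mul_pow _ (zN n), ← mul_assoc]; rfl]
      exact Nat.mul_le_mul_left _ (Nat.pow_le_pow_left (by omega) _))
  refine ⟨w, h1, fun k => by rw [zH, ← cC]; exact h3 k, fun x ε => ?_⟩
  have hP : (∑ k, C (w k) * zMon E (fun i => X (some i)) (X none) k :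
      MvPolynomial (Option (Fin n)) ℤ) = 0 := by
    refine eq_zero_of_eval_zero_at_prod_finset _ S (fun o => ?_) fun z hz => ?_
    · rw [cS o]
      refine Nat.lt_succ_of_le ((degreeOf_le_totalDegree _ o).trans
        (totalDegree_finsetSum_le fun k _ => (totalDegree_mul _ _).trans ?_))
      rw [totalDegree_C, zero_add]
      exact zRel_deg.mon E (fun i => (totalDegree_X _).le) (totalDegree_X _).le k
    · have := congrFun h2 ⟨z, Fintype.mem_piFinset.2 hz⟩
      simpa [Matrix.mulVec, dotProduct, zRel_map, mul_comm] using this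
  have := congrArg (eval₂Hom (Int.castRingHom ℝ) fun o : Option (Fin n) => o.elim ε x) hP
  simp only [map_sum, map_mul, zRel_map, eval₂Hom_C, eval₂Hom_X', map_zero] at this
  exact this

end Pool.Agent.Work.MP_fae5c8_lc.ER
end

-- merged part: Pool.Agent.Work.MP_fae5c8_lc.ER.ZRoot
section
/-! A root bound, and the existence of the critical penalty. -/

namespace Pool.Agent.Work.MP_fae5c8_lc.ER

open Finset

/-- A nonzero integer polynomial of height `≤ H` has absolute value `≥ 1` at `K ≥ H + 2`. -/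
theorem zroot_one (c : ℕ → ℤ) (H K : ℝ) (hH : ∀ a, (|c a| : ℝ) ≤ H) (hK : H + 2 ≤ K) (d : ℕ)
    (hd : ∃ a < d, c a ≠ 0) : 1 ≤ |∑ a ∈ range d, (c a : ℝ) * K ^ a| := by
  have H0 : 0 ≤ H := (abs_nonneg _).trans (hH 0)
  have low : ∀ d : ℕ, |∑ a ∈ range d, (c a : ℝ) * K ^ a| ≤ K ^ d - 1 := by
    intro d
    induction d with
    | zero => simp
    | succ d ih =>
      rw [sum_range_succ, pow_succ]
      refine (abs_add_le _ _).trans ?_
      have p : 0 < K ^ d := pow_pos (by linarith only [hK, H0]) d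
      rw [abs_mul, abs_of_pos p]
      linarith only [ih, p, hK, hH, hH d, mul_nonneg_of_nonpos_of_nonpos (Mathlib.Tactic.Linarith.sub_nonpos_of_le hK) (le_of_lt (Mathlib.Tactic.Linarith.sub_neg_of_lt p)), mul_nonneg_of_nonpos_of_nonpos (le_of_lt (Mathlib.Tactic.Linarith.sub_neg_of_lt p)) (Mathlib.Tactic.Linarith.sub_nonpos_of_le (hH d))]
  induction d with
  | zero => simp at hd
  | succ d ih =>
    rw [sum_range_succ]
    by_cases h : c d = 0
    · rw [h, Int.cast_zero, zero_mul, add_zero]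
      obtain ⟨a, ha, ha'⟩ := hd
      refine ih ⟨a, lt_of_le_of_ne (Nat.lt_succ_iff.1 ha) ?_, ha'⟩
      rintro rfl; exact ha' h
    · have p : 0 < K ^ d := pow_pos (by linarith) d
      have h1 : (1 : ℝ) ≤ |(c d : ℝ)| := by exact_mod_cast Int.one_le_abs h
      have h2 : K ^ d ≤ |(c d : ℝ) * K ^ d| := by rw [abs_mul, abs_of_pos p]; linarith only [p, h1, mul_nonneg_of_nonpos_of_nonpos (le_of_lt (Mathlib.Tactic.Linarith.sub_neg_of_lt p)) (Mathlib.Tactic.Linarith.sub_nonpos_of_le h1)]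
      have h3 := abs_sub_abs_le_abs_add ((c d : ℝ) * K ^ d) (∑ a ∈ range d, (c a : ℝ) * K ^ a)
      rw [add_comm] at h3
      linarith [low d]

theorem z_root {N : ℕ} (W : Fin N → Fin N → ℤ) (hW : ∃ a b, W a b ≠ 0) (H K ε : ℝ)
    (hH : ∀ a b, (|W a b| : ℝ) ≤ H) (hK : H + 2 ≤ K) (h0 : 0 < ε) (h1 : ε ≤ 1)
    (h : ∑ a : Fin N, ∑ b : Fin N, (W a b : ℝ) * ((ε * K) ^ (a : ℕ) * ε ^ (b : ℕ)) = 0) :
    1 ≤ ε * (N ^ 2 * H * K ^ N) := by
  classical
  obtain ⟨p, hp, hmin⟩ := exists_min_image (univ.filter fun p : Fin N × Fin N => W p.1 p.2 ≠ 0)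
    (fun p => (p.1 : ℕ) + p.2) (by obtain ⟨a, b, h⟩ := hW; exact ⟨(a, b), by simpa using h⟩)
  simp only [mem_filter, mem_univ, true_and] at hp hmin
  set j := (p.1 : ℕ) + p.2 with hj
  have H0 : 0 ≤ H := (abs_nonneg _).trans (hH p.1 p.2)
  have K1 : 1 ≤ K := by linarith only [hK, H0]
  let c : ℕ → ℤ := fun a => if h : a < N ∧ a ≤ j ∧ j - a < N then W ⟨a, h.1⟩ ⟨j - a, h.2.2⟩ else 0
  have hc : 1 ≤ |∑ a ∈ range N, (c a : ℝ) * K ^ a| := by
    refine zroot_one c H K (fun a => ?_) hK N ⟨p.1, p.1.2, ?_⟩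
    · simp only [c]
      split_ifs
      · exact hH _ _
      · simpa using H0
    · have e : j - p.1 = p.2 := by omega
      simp only [c]
      rw [dif_pos ⟨p.1.2, by omega, by rw [e]; exact p.2.2⟩]
      simpa [e] using hp
  have split : ∀ a b : Fin N, (W a b : ℝ) * ((ε * K) ^ (a : ℕ) * ε ^ (b : ℕ)) = ε ^ j *
      ((if (a : ℕ) + b = j then (W a b : ℝ) * K ^ (a : ℕ) else 0) +
        if (a : ℕ) + b = j then 0 else (W a b : ℝ) * K ^ (a : ℕ) * ε ^ ((a : ℕ) + b - j)) := by
    intro a b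
    split_ifs with e
    · rw [← e]; ring
    · by_cases hw : W a b = 0
      · simp [hw]
      · have := hmin (a, b) hw
        have e2 : ε ^ (a : ℕ) * ε ^ (b : ℕ) = ε ^ j * ε ^ ((a : ℕ) + b - j) := by
          rw [← pow_add, ← pow_add]; congr 1; simp only at this; omega
        rw [mul_pow]
        linear_combination (W a b : ℝ) * K ^ (a : ℕ) * e2
  simp only [split, ← mul_sum, sum_add_distrib] at h
  have h2 := (mul_eq_zero.1 h).resolve_left (pow_pos h0 j).ne'
  have e1 : ∑ a : Fin N, ∑ b : Fin N, (if (a : ℕ) + b = j then (W a b : ℝ) * K ^ (a : ℕ) else 0) =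
      ∑ a ∈ range N, (c a : ℝ) * K ^ a := by
    rw [← Fin.sum_univ_eq_sum_range (fun a => (c a : ℝ) * K ^ a)]
    refine sum_congr rfl fun a _ => ?_
    simp only [c]
    split_ifs with e
    · rw [sum_eq_single ⟨j - a, e.2.2⟩]
      · rw [if_pos (by simp only; omega)]
      · intro b _ hb
        rw [if_neg]
        intro e'
        exact hb (Fin.ext (by simp only; omega))
      · simp
    · rw [sum_eq_zero, Int.cast_zero, zero_mul]
      intro b _
      rw [if_neg]
      intro e'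
      exact e ⟨a.2, by omega, by have := b.2; omega⟩
  rw [e1] at h2
  rw [eq_neg_of_add_eq_zero_left h2, abs_neg] at hc
  refine hc.trans ((abs_sum_le_sum_abs _ _).trans ?_)
  have bound : ∀ a b : Fin N, |if (a : ℕ) + b = j then 0 else
      (W a b : ℝ) * K ^ (a : ℕ) * ε ^ ((a : ℕ) + b - j)| ≤ H * K ^ N * ε := by
    intro a b
    split_ifs with e
    · rw [abs_zero]; positivity
    · by_cases hw : W a b = 0
      · rw [hw, Int.cast_zero, zero_mul, zero_mul, abs_zero]; positivity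
      · have := hmin (a, b) hw
        rw [abs_mul, abs_mul, abs_of_pos (pow_pos h0 _),
          abs_of_pos (pow_pos (show 0 < K by linarith only [hK, H0]) _)]
        have k1 : K ^ (a : ℕ) ≤ K ^ N := pow_le_pow_right₀ K1 a.2.le
        have k2 : ε ^ ((a : ℕ) + b - j) ≤ ε := by
          have := pow_le_pow_of_le_one h0.le h1 (show 1 ≤ (a : ℕ) + b - j by simp only at this; omega)
          rwa [pow_one] at this
        exact mul_le_mul (mul_le_mul (hH a b) k1 (by positivity) H0) k2 (by positivity)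
          (by positivity)
  refine (sum_le_sum fun a _ => (abs_sum_le_sum_abs _ _).trans
    (sum_le_sum fun b _ => bound a b)).trans (le_of_eq ?_)
  simp only [sum_const, card_univ, Fintype.card_fin, nsmul_eq_mul]
  ring

theorem zF_nonneg {n : ℕ} (E : List (Eqn (Fin n))) (x : Fin n → ℝ) : 0 ≤ zF E x :=
  List.sum_nonneg fun _ h => by obtain ⟨e, -, rfl⟩ := List.mem_map.1 h; positivity

theorem zF_cont {n : ℕ} (E : List (Eqn (Fin n))) : Continuous fun x : Fin n → ℝ => zF E x := by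
  unfold zF
  induction E with
  | nil => simpa using continuous_const
  | cons e E ih =>
    simp only [List.map_cons, List.sum_cons]
    refine Continuous.add ?_ ih
    unfold ev
    fun_prop

theorem z_eps {n : ℕ} (E : List (Eqn (Fin n))) (hno : ∀ x : Fin n → ℝ, 0 < zF E x) (K : ℝ)
    (x₁ : Fin n → ℝ) (h₁ : ∑ i, x₁ i ^ 2 + 1 ≤ K) :
    ∃ (ε : ℝ) (x₀ : Fin n → ℝ), 0 < ε ∧ (∀ x, zT E x₀ ε ≤ zT E x ε) ∧ zT E x₀ ε = ε * K ∧
      ε ≤ zF E x₁ := by
  have cpt : IsCompact {x : Fin n → ℝ | ∑ i, x i ^ 2 ≤ K} := by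
    refine Metric.isCompact_of_isClosed_isBounded (isClosed_le (by fun_prop) continuous_const) ?_
    refine (Metric.isBounded_closedBall (x := 0) (r := K + 1)).subset fun x hx => ?_
    have K0 : 0 ≤ K := (sum_nonneg fun i _ => sq_nonneg (x i)).trans hx
    rw [mem_closedBall_zero_iff, pi_norm_le_iff_of_nonneg (by linarith)]
    intro i
    have : x i ^ 2 ≤ K := (single_le_sum (fun i _ => sq_nonneg (x i)) (mem_univ i)).trans hx
    rw [Real.norm_eq_abs, abs_le]
    constructor <;> (refine le_of_not_gt fun h_nl => ?_; linarith only [h_nl, K0, this, mul_nonneg_of_nonpos_of_nonpos (Mathlib.Tactic.Linarith.sub_nonpos_of_le K0) (Mathlib.Tactic.Linarith.sub_nonpos_of_le K0), mul_nonneg_of_nonpos_of_nonpos (Mathlib.Tactic.Linarith.sub_nonpos_of_le K0) (le_of_lt (Mathlib.Tactic.Linarith.sub_neg_of_lt h_nl)), mul_pos_of_neg_of_neg (Mathlib.Tactic.Linarith.sub_neg_of_lt h_nl) (Mathlib.Tactic.Linarith.sub_neg_of_lt h_nl)])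
  have cont : Continuous fun x : Fin n → ℝ => (K - ∑ i, x i ^ 2) / zF E x :=
    Continuous.div (by fun_prop) (zF_cont E) fun x => (hno x).ne'
  obtain ⟨x₀, -, hmax⟩ := cpt.exists_isMaxOn ⟨x₁, show _ ≤ K by linarith⟩ cont.continuousOn
  set q := (K - ∑ i, x₀ i ^ 2) / zF E x₀ with hq
  have k1 : (K - ∑ i, x₁ i ^ 2) / zF E x₁ ≤ q := hmax (show _ ≤ K by linarith)
  rw [div_le_iff₀ (hno x₁)] at k1
  have q0 : 0 < q := (pos_iff_pos_of_mul_pos (b := zF E x₁) (by linarith only [h₁, k1])).2 (hno x₁)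
  have all : ∀ x, q⁻¹ * K ≤ zT E x q⁻¹ := by
    intro x
    have : K - ∑ i, x i ^ 2 ≤ q * zF E x := by
      by_cases hx : ∑ i, x i ^ 2 ≤ K
      · exact (div_le_iff₀ (hno x)).1 (hmax hx)
      · linarith only [hx, q0, hno, mul_pos q0 (hno x)]
    have := mul_le_mul_of_nonneg_left this (inv_pos.2 q0).le
    rw [inv_mul_cancel_left₀ q0.ne'] at this
    unfold zT
    linarith only [this]
  have e : zT E x₀ q⁻¹ = q⁻¹ * K := by
    have : q * zF E x₀ = K - ∑ i, x₀ i ^ 2 := div_mul_cancel₀ _ (hno x₀).ne'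
    have := congrArg (q⁻¹ * ·) this
    simp only [inv_mul_cancel_left₀ q0.ne'] at this
    unfold zT
    linarith only [this]
  refine ⟨q⁻¹, x₀, inv_pos.2 q0, fun x => e ▸ all x, e, ?_⟩
  rw [inv_le_iff_one_le_mul₀' q0]
  linarith only [h₁, k1]

end Pool.Agent.Work.MP_fae5c8_lc.ER
end

-- merged part: Pool.Agent.Work.MP_fae5c8_lc.ER.Dich
section
/-! The dichotomy for symmetric pairs, and the passage from the network to bilinear forms. -/

namespace Pool.Agent.Work.MP_fae5c8_lc.ER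

open Real

variable {ν : Type}

theorem bil_true {c : ℝ × ℝ × ℝ × ℝ} {T Y : ℝ} : Bil c T Y true ↔ 0 < bil c T Y := by simp [Bil]

theorem bil_false {c : ℝ × ℝ × ℝ × ℝ} {T Y : ℝ} : Bil c T Y false ↔ bil c T Y < 0 := by simp [Bil]

/-- Comparison of spreads through `e^s + e^t`. -/
theorem dich_sq_lt {a b c d : ℝ} (h : a + b = c + d) (h' : exp c + exp d < exp a + exp b) :
    (c - d) ^ 2 < (a - b) ^ 2 := by
  have key : ∀ x y : ℝ, exp x + exp y = 2 * exp ((x + y) / 2) * cosh ((x - y) / 2) := by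
    intro x y
    rw [cosh_eq]
    have e1 : exp x = exp ((x + y) / 2) * exp ((x - y) / 2) := by rw [← exp_add]; congr 1; ring
    have e2 : exp y = exp ((x + y) / 2) * exp (-((x - y) / 2)) := by rw [← exp_add]; congr 1; ring
    rw [e1, e2]; ring_nf
  rw [key a b, key c d, h] at h'
  have h1 := lt_of_mul_lt_mul_left h' (by positivity)
  rw [cosh_lt_cosh, ← sq_lt_sq] at h1
  linarith only [h1]

/-- The algebraic core: `u₁ u₂ = u₃ u₄ = p`, `v₁ v₂ = v₃ v₄`. -/
theorem dich_alg {A B C E u₁ u₂ u₃ u₄ v₁ v₂ v₃ v₄ p : ℝ} (hA : 0 ≤ A) (hB : 0 ≤ B)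
    (hu₃ : 0 < u₃) (hu₄ : 0 < u₄) (hv₁ : 0 < v₁) (hv₂ : 0 < v₂)
    (hv₃ : 0 < v₃) (hv₄ : 0 < v₄) (e1 : u₁ * u₂ = p) (e2 : u₃ * u₄ = p) (e3 : v₁ * v₂ = v₃ * v₄)
    (r₁ : 0 < E - C * u₁) (r₂ : 0 < E - C * u₂)
    (h₁ : v₁ * (E - C * u₁) < A * u₁ + B) (h₂ : v₂ * (E - C * u₂) < A * u₂ + B)
    (h₃ : A * u₃ + B < v₃ * (E - C * u₃)) (h₄ : A * u₄ + B < v₄ * (E - C * u₄)) :
    0 < (u₁ + u₂ - (u₃ + u₄)) * (A * B * (E ^ 2 + C ^ 2 * p) + C * E * (A ^ 2 * p + B ^ 2)) := by
  have n₃ : 0 ≤ A * u₃ + B := by positivity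
  have n₄ : 0 ≤ A * u₄ + B := by positivity
  have r₃ : 0 < E - C * u₃ := (pos_iff_pos_of_mul_pos (n₃.trans_lt h₃)).1 hv₃
  have r₄ : 0 < E - C * u₄ := (pos_iff_pos_of_mul_pos (n₄.trans_lt h₄)).1 hv₄
  have k1 : v₁ * (E - C * u₁) * (v₂ * (E - C * u₂)) < (A * u₁ + B) * (A * u₂ + B) :=
    mul_lt_mul'' h₁ h₂ (by positivity) (by positivity)
  have k2 : (A * u₃ + B) * (A * u₄ + B) < v₃ * (E - C * u₃) * (v₄ * (E - C * u₄)) :=
    mul_lt_mul'' h₃ h₄ n₃ n₄
  have k3 := mul_lt_mul_of_pos_right k1 (mul_pos r₃ r₄)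
  have k4 := mul_lt_mul_of_pos_right k2 (mul_pos r₁ r₂)
  have k5 : (A * u₃ + B) * (A * u₄ + B) * ((E - C * u₁) * (E - C * u₂)) <
      (A * u₁ + B) * (A * u₂ + B) * ((E - C * u₃) * (E - C * u₄)) := by
    refine k4.trans_le (le_of_eq_of_le ?_ k3.le)
    linear_combination (-(E - C * u₁) * (E - C * u₂) * (E - C * u₃) * (E - C * u₄)) * e3
  have a1 : (A * u₁ + B) * (A * u₂ + B) = A ^ 2 * p + B ^ 2 + A * B * (u₁ + u₂) := by
    rw [← e1]; ring
  have a2 : (A * u₃ + B) * (A * u₄ + B) = A ^ 2 * p + B ^ 2 + A * B * (u₃ + u₄) := by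
    rw [← e2]; ring
  have a3 : (E - C * u₁) * (E - C * u₂) = E ^ 2 + C ^ 2 * p - C * E * (u₁ + u₂) := by
    rw [← e1]; ring
  have a4 : (E - C * u₃) * (E - C * u₄) = E ^ 2 + C ^ 2 * p - C * E * (u₃ + u₄) := by
    rw [← e2]; ring
  rw [a1, a2, a3, a4] at k5
  linarith only [k5]

theorem dich_core {A B C E : ℝ} (hA : 0 ≤ A) (hB : 0 ≤ B) (hE : 0 < E) :
    Dich (Bil (C, A, -E, B)) := by
  intro M N
  have conv : ∀ T Y, bil (C, A, -E, B) T Y = A * exp T + B - exp Y * (E - C * exp T) := by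
    intro T Y; simp only [bil]; ring
  have main : ∀ T₁ Y₁ T₂ Y₂ T₃ Y₃ T₄ Y₄, T₁ + T₂ = M → Y₁ + Y₂ = N → T₃ + T₄ = M → Y₃ + Y₄ = N →
      Bil (C, A, -E, B) T₁ Y₁ true → Bil (C, A, -E, B) T₂ Y₂ true →
      Bil (C, A, -E, B) T₃ Y₃ false → Bil (C, A, -E, B) T₄ Y₄ false →
      (0 < C ∧ exp T₃ + exp T₄ < exp T₁ + exp T₂) ∨
      0 < (exp T₁ + exp T₂ - (exp T₃ + exp T₄)) *
        (A * B * (E ^ 2 + C ^ 2 * exp M) + C * E * (A ^ 2 * exp M + B ^ 2)) := by
    intro T₁ Y₁ T₂ Y₂ T₃ Y₃ T₄ Y₄ e1 e2 e3 e4 h₁ h₂ h₃ h₄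
    rw [bil_true, conv] at h₁ h₂
    rw [bil_false, conv] at h₃ h₄
    have p1 : exp T₁ * exp T₂ = exp M := by rw [← exp_add, e1]
    have p2 : exp T₃ * exp T₄ = exp M := by rw [← exp_add, e3]
    have p3 : exp Y₁ * exp Y₂ = exp Y₃ * exp Y₄ := by rw [← exp_add, ← exp_add, e2, e4]
    have u₁ := exp_pos T₁
    have u₂ := exp_pos T₂
    have u₃ := exp_pos T₃
    have u₄ := exp_pos T₄
    have r₃ : 0 < E - C * exp T₃ := (pos_iff_pos_of_mul_pos (a := exp Y₃)
      (lt_of_le_of_lt (by positivity : 0 ≤ A * exp T₃ + B) (by linarith only [h₃]))).1 (exp_pos _)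
    have r₄ : 0 < E - C * exp T₄ := (pos_iff_pos_of_mul_pos (a := exp Y₄)
      (lt_of_le_of_lt (by positivity : 0 ≤ A * exp T₄ + B) (by linarith))).1 (exp_pos _)
    have big : ∀ a b : ℝ, 0 < a → 0 < b → a * b = exp M → E - C * a ≤ 0 →
        0 < C ∧ exp T₃ + exp T₄ < a + b := by
      intro a b ha hb hab h
      have hC : 0 < C := by
        by_contra hC
        have := mul_nonneg (neg_nonneg.2 (not_lt.1 hC)) ha.le
        linarith only [hE, h, this]
      have l3 : exp T₃ < a := lt_of_mul_lt_mul_left (by linarith only [r₃, h]) hC.le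
      have l4 : exp T₄ < a := lt_of_mul_lt_mul_left (by linarith only [r₄, h]) hC.le
      refine ⟨hC, lt_of_mul_lt_mul_left (a := a) ?_ ha.le⟩
      have := mul_pos (sub_pos.2 l3) (sub_pos.2 l4)
      linarith only [p2, hab, this]
    by_cases r₁ : E - C * exp T₁ ≤ 0
    · exact Or.inl (big _ _ u₁ u₂ p1 r₁)
    by_cases r₂ : E - C * exp T₂ ≤ 0
    · have := big _ _ u₂ u₁ (by rw [mul_comm, p1]) r₂
      exact Or.inl ⟨this.1, by linarith only [this, this.2]⟩
    exact Or.inr (dich_alg hA hB u₃ u₄ (exp_pos Y₁) (exp_pos Y₂) (exp_pos Y₃) (exp_pos Y₄)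
      p1 p2 p3 (not_le.1 r₁) (not_le.1 r₂) (by linarith only [h₁]) (by linarith only [h₂]) (by linarith only [h₃]) (by linarith only [h₄]))
  by_cases hg : 0 < C ∨ 0 < A * B * (E ^ 2 + C ^ 2 * exp M) + C * E * (A ^ 2 * exp M + B ^ 2)
  · have hΔ : 0 ≤ A * B * (E ^ 2 + C ^ 2 * exp M) + C * E * (A ^ 2 * exp M + B ^ 2) := by
      rcases hg with h | h
      · positivity
      · exact h.le
    left
    intro T₁ Y₁ T₂ Y₂ T₃ Y₃ T₄ Y₄ e1 e2 e3 e4 h₁ h₂ h₃ h₄
    apply dich_sq_lt (by linarith only [e1, e3])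
    rcases main _ _ _ _ _ _ _ _ e1 e2 e3 e4 h₁ h₂ h₃ h₄ with h | h
    · exact h.2
    · by_contra hc
      have := mul_nonpos_of_nonpos_of_nonneg (sub_nonpos.2 (not_lt.1 hc)) hΔ
      linarith only [h, this]
  · push Not at hg
    right
    intro T₁ Y₁ T₂ Y₂ T₃ Y₃ T₄ Y₄ e1 e2 e3 e4 h₁ h₂ h₃ h₄
    apply dich_sq_lt (by linarith only [e1, e3])
    rcases main _ _ _ _ _ _ _ _ e1 e2 e3 e4 h₁ h₂ h₃ h₄ with h | h
    · linarith [h.1, hg.1]
    · by_contra hc
      have := mul_nonpos_of_nonneg_of_nonpos (sub_nonneg.2 (not_lt.1 hc)) hg.2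
      linarith only [h, this]

theorem bil_flipT (a b c d T Y : ℝ) (l : Bool) :
    Bil (c, d, a, b) (-T) Y l ↔ Bil (a, b, c, d) T Y l := by
  have e : bil (a, b, c, d) T Y = bil (c, d, a, b) (-T) Y * exp T := by
    simp only [bil, exp_neg]
    have := exp_pos T
    field_simp
    ring
  have := exp_pos T
  cases l
  · rw [bil_false, bil_false, e, mul_neg_iff]; constructor
    · intro h; exact Or.inr ⟨h, this⟩
    · rintro (h | h)
      · linarith [h.2]
      · exact h.1
  · rw [bil_true, bil_true, e, mul_pos_iff_of_pos_right this]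

theorem bil_swap (a b c d T Y : ℝ) (l : Bool) :
    Bil (a, c, b, d) Y T l ↔ Bil (a, b, c, d) T Y l := by
  have e : bil (a, c, b, d) Y T = bil (a, b, c, d) T Y := by simp only [bil]; ring
  simp only [Bil, e]

theorem bil_flipY (a b c d T Y : ℝ) (l : Bool) :
    Bil (b, a, d, c) T (-Y) l ↔ Bil (a, b, c, d) T Y l := by
  rw [← bil_swap b a d c, bil_flipT, bil_swap]

theorem bil_neg (a b c d T Y : ℝ) (l : Bool) :
    Bil (-a, -b, -c, -d) T Y (!l) ↔ Bil (a, b, c, d) T Y l := by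
  have e : bil (-a, -b, -c, -d) T Y = -bil (a, b, c, d) T Y := by simp only [bil]; ring
  cases l <;> simp [Bil, e]

theorem dich_flipT {a b c d : ℝ} (h : Dich (Bil (c, d, a, b))) : Dich (Bil (a, b, c, d)) := by
  intro M N
  refine (h (-M) N).imp ?_ ?_ <;>
  · intro H T₁ Y₁ T₂ Y₂ T₃ Y₃ T₄ Y₄ e1 e2 e3 e4 h₁ h₂ h₃ h₄
    rw [← bil_flipT] at h₁ h₂ h₃ h₄
    have := H _ _ _ _ _ _ _ _ (by linarith only [e1]) e2 (by linarith only [e3]) e4 h₁ h₂ h₃ h₄
    linarith only [this]

theorem dich_flipY {a b c d : ℝ} (h : Dich (Bil (b, a, d, c))) : Dich (Bil (a, b, c, d)) := by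
  intro M N
  refine (h M (-N)).imp ?_ ?_ <;>
  · intro H T₁ Y₁ T₂ Y₂ T₃ Y₃ T₄ Y₄ e1 e2 e3 e4 h₁ h₂ h₃ h₄
    rw [← bil_flipY] at h₁ h₂ h₃ h₄
    exact H _ _ _ _ _ _ _ _ e1 (by linarith only [e2]) e3 (by linarith only [e4]) h₁ h₂ h₃ h₄

theorem dich_neg {a b c d : ℝ} (h : Dich (Bil (-a, -b, -c, -d))) : Dich (Bil (a, b, c, d)) := by
  intro M N
  refine (h M N).symm.imp ?_ ?_ <;>
  · intro H T₁ Y₁ T₂ Y₂ T₃ Y₃ T₄ Y₄ e1 e2 e3 e4 h₁ h₂ h₃ h₄
    rw [← bil_neg] at h₁ h₂ h₃ h₄
    exact H _ _ _ _ _ _ _ _ e3 e4 e1 e2 h₃ h₄ h₁ h₂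

theorem dich_row {a b c d : ℝ} (hb : 0 ≤ b) (hd : 0 ≤ d) : Dich (Bil (a, b, c, d)) := by
  rcases lt_or_ge c 0 with hc | hc
  · have := dich_core (C := a) hb hd (neg_pos.2 hc)
    rwa [neg_neg] at this
  rcases lt_or_ge a 0 with ha | ha
  · have := dich_core (C := c) hd hb (neg_pos.2 ha)
    rw [neg_neg] at this
    exact dich_flipT this
  · intro M N
    left
    intro T₁ Y₁ T₂ Y₂ T₃ Y₃ T₄ Y₄ _ _ _ _ _ _ h₃ _
    rw [bil_false] at h₃
    have : 0 ≤ bil (a, b, c, d) T₃ Y₃ := by simp only [bil]; positivity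
    linarith

theorem dich_row' {a b c d : ℝ} (h : 0 ≤ b * d) : Dich (Bil (a, b, c, d)) := by
  rcases mul_nonneg_iff.1 h with h | h
  · exact dich_row h.1 h.2
  · exact dich_neg (dich_row (neg_nonneg.2 h.1) (neg_nonneg.2 h.2))

/-- A finite family of sign conditions survives a small upward shift. -/
theorem dich_shift {α : Type} (l : List α) (f : α → ℝ) :
    ∃ η : ℝ, 0 < η ∧ ∀ a ∈ l, f a < 0 → f a + η < 0 := by
  induction l with
  | nil => exact ⟨1, one_pos, by simp⟩
  | cons a l ih =>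
    obtain ⟨η, h0, h⟩ := ih
    by_cases ha : f a < 0
    · refine ⟨min η (-f a / 2), lt_min h0 (by linarith only [ha]), ?_⟩
      intro b hb hb'
      rcases List.mem_cons.1 hb with rfl | hb
      · linarith only [hb', min_le_right η (-f b / 2)]
      · linarith [min_le_left η (-f a / 2), h b hb hb']
    · refine ⟨η, h0, ?_⟩
      intro b hb hb'
      rcases List.mem_cons.1 hb with rfl | hb
      · exact absurd hb' ha
      · exact h b hb hb'

theorem bil_of_net {R : List (Pnt ν)} (h : NetSat R) :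
    ∃ c, Dich (Bil c) ∧ PSat (Bil c) ([], R) := by
  obtain ⟨τ, υ, b₁, b₂, a, a₁, a₂, h⟩ := h
  obtain ⟨η, h0, hη⟩ := dich_shift R
    fun p => a₁ * sigmoid (sm τ p.1 + b₁) + a₂ * sigmoid (sm υ p.1 + b₂) + a
  have B1 := exp_pos b₁
  have B2 := exp_pos b₂
  set a₀ := a + η with ha₀
  have key : ∀ p ∈ R, Bil ((a₀ + a₁ + a₂) * (exp b₁ * exp b₂), (a₀ + a₁) * exp b₁,
      (a₀ + a₂) * exp b₂, a₀) (sm τ p.1) (sm υ p.1) p.2 := by
    intro p hp
    have e : bil ((a₀ + a₁ + a₂) * (exp b₁ * exp b₂), (a₀ + a₁) * exp b₁,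
        (a₀ + a₂) * exp b₂, a₀) (sm τ p.1) (sm υ p.1) =
        (a₁ * sigmoid (sm τ p.1 + b₁) + a₂ * sigmoid (sm υ p.1 + b₂) + a₀) *
          ((1 + exp (sm τ p.1 + b₁)) * (1 + exp (sm υ p.1 + b₂))) := by
      rw [sigmoid_eq, sigmoid_eq]
      simp only [bil, exp_add]
      field_simp
      ring
    have h1 := h p hp
    have h2 := hη p hp
    have hp : 0 < (1 + exp (sm τ p.1 + b₁)) * (1 + exp (sm υ p.1 + b₂)) := by positivity
    rcases hl : p.2 with _ | _
    · rw [hl, heaviside, decide_eq_false_iff_not, not_le] at h1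
      rw [bil_false, e]
      exact mul_neg_of_neg_of_pos (by linarith [h2 h1]) hp
    · rw [hl, heaviside, decide_eq_true_iff] at h1
      rw [bil_true, e]
      exact mul_pos (by linarith) hp
  by_cases c1 : 0 ≤ (a₀ + a₁) * a₀
  · refine ⟨_, dich_row' ?_, τ, υ, by simp, key⟩
    have := mul_nonneg c1 B1.le
    linarith
  by_cases c2 : 0 ≤ (a₀ + a₁ + a₂) * (a₀ + a₂)
  · refine ⟨_, dich_flipY (dich_row' ?_), τ, υ, by simp, key⟩
    have := mul_nonneg c2 (mul_pos (mul_pos B1 B2) B2).le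
    linarith only [this]
  by_cases c3 : 0 ≤ (a₀ + a₂) * a₀
  · refine ⟨_, dich_row' ?_, υ, τ, by simp, fun p hp => (bil_swap _ _ _ _ _ _ _).2 (key p hp)⟩
    have := mul_nonneg c3 B2.le
    linarith only [this]
  exfalso
  push Not at c1 c2 c3
  rcases mul_neg_iff.1 c1 with h1 | h1 <;> rcases mul_neg_iff.1 c2 with h2 | h2 <;>
    rcases mul_neg_iff.1 c3 with h3 | h3 <;> linarith only [h2, h3, h1, h1.1, h1.2, h2.1, h2.2, h3.1, h3.2]

end Pool.Agent.Work.MP_fae5c8_lc.ER
end

-- merged part: Pool.Agent.Work.MP_fae5c8_lc.ER.Cmpr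
section
/-! The comparator gadget. -/

namespace Pool.Agent.Work.MP_fae5c8_lc.ER

open Sum

variable {ν : Type}

theorem cmpr_mem_quads (q : Bool × Bool × Bool × Bool) : q ∈ quads := by
  revert q; decide

/-- The pattern exactly-two-of-four cannot have its `false` pairs longer than its `true` pairs. -/
theorem cmpr_cert {a b c d : ℝ}
    (h01 : (a + b + c + d) ^ 2 < (a + b - c - d) ^ 2)
    (h02 : (a + b + c + d) ^ 2 < (a - b + c - d) ^ 2)
    (h03 : (a + b + c + d) ^ 2 < (a - b - c + d) ^ 2)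
    (h : ∀ o : ℝ, o = -a + b + c + d ∨ o = a - b + c + d ∨ o = a + b - c + d ∨ o = a + b + c - d →
      o ^ 2 < (a + b - c - d) ^ 2 ∧ o ^ 2 < (a - b + c - d) ^ 2 ∧ o ^ 2 < (a - b - c + d) ^ 2) :
    False := by
  obtain ⟨p1, p2, p3⟩ := h _ (Or.inl rfl)
  obtain ⟨q1, q2, q3⟩ := h _ (Or.inr (Or.inl rfl))
  obtain ⟨r1, r2, r3⟩ := h _ (Or.inr (Or.inr (Or.inl rfl)))
  obtain ⟨s1, s2, s3⟩ := h _ (Or.inr (Or.inr (Or.inr rfl)))
  clear h
  rw [sq_lt_sq, abs_lt] at *
  rcases abs_cases (a + b - c - d) with ⟨e1, -⟩ | ⟨e1, -⟩ <;>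
  rcases abs_cases (a - b + c - d) with ⟨e2, -⟩ | ⟨e2, -⟩ <;>
  rcases abs_cases (a - b - c + d) with ⟨e3, -⟩ | ⟨e3, -⟩ <;>
  rw [e1] at h01 p1 q1 r1 s1 <;> rw [e2] at h02 p2 q2 r2 s2 <;> rw [e3] at h03 p3 q3 r3 s3 <;>
  linarith only [h01.1, h01.2, h02.1, h02.2, h03.1, h03.2, p1.1, p1.2, p2.1, p2.2, p3.1, p3.2, q1.1,
    q1.2, q2.1, q2.2, q3.1, q3.2, r1.1, r1.2, r2.1, r2.2, r3.1, r3.2, s1.1, s1.2, s2.1, s2.2,
    s3.1, s3.2]

/-- The points of the certificate, numerically. -/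
theorem cmpr_quad (x : RN ν → ℝ) (c : Cmp ν) (q : Bool × Bool × Bool × Bool) :
    sm x (inr (inr c) :: (cond q.1 (inr (inl 0) :: inr (inl 1) :: (c.1 ++ c.2).map inl) [] ++
      (cond q.2.1 [inr (inl 2), inr (inl 3)] [] ++ (cond q.2.2.1 [inr (inl 4), inr (inl 5)] [] ++
        cond q.2.2.2 [inr (inl 6), inr (inl 7)] [])))) =
    x (inr (inr c)) + cond q.1 (x (inr (inl 0)) + x (inr (inl 1)) + sm (fun a => x (inl a)) c.1 +
        sm (fun a => x (inl a)) c.2) 0 + cond q.2.1 (x (inr (inl 2)) + x (inr (inl 3))) 0 +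
      cond q.2.2.1 (x (inr (inl 4)) + x (inr (inl 5))) 0 +
      cond q.2.2.2 (x (inr (inl 6)) + x (inr (inl 7))) 0 := by
  obtain ⟨_ | _, _ | _, _ | _, _ | _⟩ := q <;> simp [sm_map] <;> ring

theorem cmpr_sound {Lab : ℝ → ℝ → Bool → Prop} (hD : Dich Lab) (τ υ : RN ν → ℝ) (c : Cmp ν)
    (h : ∀ p ∈ rPnt c, Lab (sm τ p.1) (sm υ p.1) p.2) :
    0 < (sm (fun a => τ (inl a)) c.2 - sm (fun a => τ (inl a)) c.1) *
      (τ (inr (inl 3)) + τ (inr (inl 4)) + τ (inr (inl 5)) + τ (inr (inl 6)) + τ (inr (inl 7)) -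
        (τ (inr (inl 0)) + τ (inr (inl 1)) + τ (inr (inl 2)))) := by
  have hq := fun q => h _ (List.mem_append_left _ (List.mem_map_of_mem (cmpr_mem_quads q)))
  simp only [cmpr_quad] at hq
  have h1 := h _ (List.mem_append_right _ (List.mem_cons_self))
  have h2 := h _ (List.mem_append_right _ (List.mem_cons_of_mem _ List.mem_cons_self))
  have h3 := h _ (List.mem_append_right _ (List.mem_cons_of_mem _
    (List.mem_cons_of_mem _ List.mem_cons_self)))
  have h4 := h _ (List.mem_append_right _ (List.mem_cons_of_mem _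
    (List.mem_cons_of_mem _ (List.mem_cons_of_mem _ List.mem_cons_self))))
  simp only [sm_cons, sm_map] at h1 h2 h3 h4
  set A := τ (inr (inl 0)) + τ (inr (inl 1)) + sm (fun a => τ (inl a)) c.1 +
    sm (fun a => τ (inl a)) c.2 with hA
  set B := τ (inr (inl 2)) + τ (inr (inl 3)) with hB
  set C := τ (inr (inl 4)) + τ (inr (inl 5)) with hC
  set D := τ (inr (inl 6)) + τ (inr (inl 7)) with hD'
  set A' := υ (inr (inl 0)) + υ (inr (inl 1)) + sm (fun a => υ (inl a)) c.1 +
    sm (fun a => υ (inl a)) c.2 with hA'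
  set B' := υ (inr (inl 2)) + υ (inr (inl 3)) with hB'
  set C' := υ (inr (inl 4)) + υ (inr (inl 5)) with hC'
  set D' := υ (inr (inl 6)) + υ (inr (inl 7)) with hD''
  rcases hD (2 * τ (inr (inr c)) + A + B + C + D) (2 * υ (inr (inr c)) + A' + B' + C' + D')
    with H | H
  · have := H _ _ _ _ _ _ _ _ (by linarith only []) (by linarith only []) (by linarith only []) (by linarith only []) h1 h2 h3 h4
    linarith only [this]
  · exfalso
    have t0 := hq (true, true, true, true)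
    have t0' := hq (false, false, false, false)
    have o1 := hq (false, true, true, true)
    have o1' := hq (true, false, false, false)
    have o2 := hq (true, false, true, true)
    have o2' := hq (false, true, false, false)
    have o3 := hq (true, true, false, true)
    have o3' := hq (false, false, true, false)
    have o4 := hq (true, true, true, false)
    have o4' := hq (false, false, false, true)
    have f1 := hq (true, true, false, false)
    have f1' := hq (false, false, true, true)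
    have f2 := hq (true, false, true, false)
    have f2' := hq (false, true, false, true)
    have f3 := hq (true, false, false, true)
    have f3' := hq (false, true, true, false)
    simp only [cond_true, cond_false, Bool.toNat_true, Bool.toNat_false, Nat.reduceAdd, ne_eq,
      Nat.reduceEqDiff, not_false_eq_true, decide_true, not_true_eq_false, decide_false,
      OfNat.zero_ne_ofNat, OfNat.one_ne_ofNat]
      at t0 t0' o1 o1' o2 o2' o3 o3' o4 o4' f1 f1' f2 f2' f3 f3'
    have K : ∀ T₁ Y₁ T₂ Y₂ o, T₁ + T₂ = 2 * τ (inr (inr c)) + A + B + C + D →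
        Y₁ + Y₂ = 2 * υ (inr (inr c)) + A' + B' + C' + D' → T₁ - T₂ = o →
        Lab T₁ Y₁ true → Lab T₂ Y₂ true →
        o ^ 2 < (A + B - C - D) ^ 2 ∧ o ^ 2 < (A - B + C - D) ^ 2 ∧
          o ^ 2 < (A - B - C + D) ^ 2 := by
      intro T₁ Y₁ T₂ Y₂ o e1 e2 e3 l1 l2
      have k1 := H _ _ _ _ _ _ _ _ e1 e2 (by ring) (by ring) l1 l2 f1 f1'
      have k2 := H _ _ _ _ _ _ _ _ e1 e2 (by ring) (by ring) l1 l2 f2 f2'
      have k3 := H _ _ _ _ _ _ _ _ e1 e2 (by ring) (by ring) l1 l2 f3 f3'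
      rw [e3] at k1 k2 k3
      exact ⟨by linarith only [k1], by linarith only [k2], by linarith only [k3]⟩
    obtain ⟨k1, k2, k3⟩ := K _ _ _ _ (A + B + C + D) (by ring) (by ring) (by ring) t0 t0'
    refine cmpr_cert k1 k2 k3 ?_
    rintro o (rfl | rfl | rfl | rfl)
    · exact K _ _ _ _ _ (by ring) (by ring) (by ring) o1 o1'
    · exact K _ _ _ _ _ (by ring) (by ring) (by ring) o2 o2'
    · exact K _ _ _ _ _ (by ring) (by ring) (by ring) o3 o3'
    · exact K _ _ _ _ _ (by ring) (by ring) (by ring) o4 o4'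

theorem rOf_sound {c : ℝ × ℝ × ℝ × ℝ} (hD : Dich (Bil c)) {P : List (Cmp ν) × List (Pnt ν)}
    (h : PSat (Bil c) ([], rOf P)) : ∃ c', PSat (Bil c') P := by
  obtain ⟨τ, υ, -, h⟩ := h
  have h1 : ∀ p ∈ P.2, Bil c (sm (fun a => τ (inl a)) p.1) (sm (fun a => υ (inl a)) p.1) p.2 := by
    intro p hp
    have := h _ (List.mem_append_left _ (List.mem_map_of_mem hp))
    simpa only [sm_map] using this
  have h2 := fun k (hk : k ∈ P.1) => cmpr_sound hD τ υ k fun p hp =>
    h p (List.mem_append_right _ (List.mem_flatMap.2 ⟨k, hk, hp⟩))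
  set π := τ (inr (inl 3)) + τ (inr (inl 4)) + τ (inr (inl 5)) + τ (inr (inl 6)) +
    τ (inr (inl 7)) - (τ (inr (inl 0)) + τ (inr (inl 1)) + τ (inr (inl 2)))
  rcases lt_or_ge 0 π with hπ | hπ
  · refine ⟨c, _, _, fun k hk => ?_, h1⟩
    exact sub_pos.1 ((pos_iff_pos_of_mul_pos (h2 k hk)).2 hπ)
  · obtain ⟨a, b, c, d⟩ := c
    have neg : ∀ l : List ν, sm (fun a => -τ (inl a)) l = -sm (fun a => τ (inl a)) l := by
      intro l; induction l with
      | nil => simp
      | cons a l ih => simp [ih]; ring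
    refine ⟨(c, d, a, b), fun a => -τ (inl a), fun a => υ (inl a), fun k hk => ?_, fun p hp => ?_⟩
    · rw [CmpH, neg, neg, neg_lt_neg_iff]
      by_contra hc
      have := mul_nonpos_of_nonneg_of_nonpos (sub_nonneg.2 (not_lt.1 hc)) hπ
      linarith [h2 k hk]
    · rw [neg, bil_flipT]; exact h1 p hp

/-- For large `L` the comparator is realised on the parabola. -/
theorem cmpr_num {s s' y y' : ℝ} (h : s < s') : ∃ L₀ : ℝ, ∀ L, L₀ ≤ L →
    (∀ q : Bool × Bool × Bool × Bool,
      Par (-(8 * L + s + s') / 2 + cond q.1 (L + L + s + s') 0 + cond q.2.1 (L + L) 0 +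
          cond q.2.2.1 (L + L) 0 + cond q.2.2.2 (L + L) 0)
        (L ^ 2 + cond q.1 (0 + 0 + y + y') 0 + cond q.2.1 (0 + 0) 0 + cond q.2.2.1 (0 + 0) 0 +
          cond q.2.2.2 (0 + 0) 0)
        (decide (q.1.toNat + q.2.1.toNat + q.2.2.1.toNat + q.2.2.2.toNat ≠ 2))) ∧
    ∀ z, z = y ∨ z = y' → L ^ 2 + z < (L + (s' - s) / 2) ^ 2 ∧
      (L - (s' - s) / 2) ^ 2 < L ^ 2 + z := by
  set σ := (s + s') / 2 with hσ
  set α := s' - s with hα
  have hα0 : 0 < α := sub_pos.2 h
  refine ⟨max (2 * |σ| + |y + y'| + 1) ((|y| + |y'| + α ^ 2 + 1) / α), fun L hL => ?_⟩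
  have l1 := (le_max_left _ _).trans hL
  have l2 := (div_le_iff₀ hα0).1 ((le_max_right _ _).trans hL)
  have a1 := abs_nonneg σ
  have a2 := abs_nonneg (y + y')
  have a3 := le_abs_self (y + y')
  have a4 := neg_abs_le (y + y')
  have a5 := le_abs_self σ
  have a6 := neg_abs_le σ
  have b1 : σ ^ 2 + |y + y'| < L ^ 2 := by rw [← sq_abs σ]; linarith only [l1, a1, a2, sq_nonneg |σ|, mul_nonneg_of_nonpos_of_nonpos (Mathlib.Tactic.Linarith.sub_nonpos_of_le l1) (Mathlib.Tactic.Linarith.sub_nonpos_of_le l1), mul_nonneg_of_nonpos_of_nonpos (Mathlib.Tactic.Linarith.sub_nonpos_of_le l1) (Mathlib.Tactic.Linarith.sub_nonpos_of_le a1), mul_nonneg_of_nonpos_of_nonpos (Mathlib.Tactic.Linarith.sub_nonpos_of_le l1) (Mathlib.Tactic.Linarith.sub_nonpos_of_le a2), mul_nonneg_of_nonpos_of_nonpos (Mathlib.Tactic.Linarith.sub_nonpos_of_le a1) (Mathlib.Tactic.Linarith.sub_nonpos_of_le a2), mul_nonneg_of_nonpos_of_nonpos (Mathlib.Tactic.Linarith.sub_nonpos_of_le a2) (Mathlib.Tactic.Linarith.sub_nonpos_of_le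 a2)]
  have b2 : ∀ T, 2 * L - |σ| ≤ |T| → L ^ 2 + |y + y'| < T ^ 2 := by
    intro T hT
    have : (2 * L - |σ|) ^ 2 ≤ |T| ^ 2 := pow_le_pow_left₀ (by linarith only [l1, a1, a2]) hT 2
    rw [sq_abs] at this
    linarith only [l1, a1, a2, b1, this, sq_nonneg σ, mul_nonneg_of_nonpos_of_nonpos (Mathlib.Tactic.Linarith.sub_nonpos_of_le l1) (Mathlib.Tactic.Linarith.sub_nonpos_of_le l1), mul_nonneg_of_nonpos_of_nonpos (Mathlib.Tactic.Linarith.sub_nonpos_of_le l1) (Mathlib.Tactic.Linarith.sub_nonpos_of_le a1), mul_nonneg_of_nonpos_of_nonpos (Mathlib.Tactic.Linarith.sub_nonpos_of_le l1) (Mathlib.Tactic.Linarith.sub_nonpos_of_le a2), mul_nonneg_of_nonpos_of_nonpos (Mathlib.Tactic.Linarith.sub_nonpos_of_le a1) (Mathlib.Tactic.Linarith.sub_nonpos_of_le a2), mul_nonneg_of_nonpos_of_nonpos (Mathlib.Tactic.Linarith.sub_nonpos_of_le a2) (Mathlib.Tactic.Linarith.sub_nonpos_of_le a2)]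
  have b3 : ∀ T Y, 2 * L - |σ| ≤ T → Y ≤ L ^ 2 + |y + y'| → Y < T ^ 2 :=
    fun T Y hT hY => hY.trans_lt (b2 T (hT.trans (le_abs_self T)))
  have b4 : ∀ T Y, T ≤ -(2 * L - |σ|) → Y ≤ L ^ 2 + |y + y'| → Y < T ^ 2 :=
    fun T Y hT hY => hY.trans_lt (b2 T (by linarith only [hT, neg_abs_le T]))
  have b5 : ∀ T Y, T = σ → L ^ 2 - |y + y'| ≤ Y → T ^ 2 < Y :=
    fun T Y hT hY => by rw [hT]; linarith only [b1, hY]
  have b6 : ∀ T Y, T = -σ → L ^ 2 - |y + y'| ≤ Y → T ^ 2 < Y :=
    fun T Y hT hY => by rw [hT, neg_sq]; linarith only [b1, hY]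
  constructor
  · rintro ⟨_ | _, _ | _, _ | _, _ | _⟩ <;>
    simp only [cond_true, cond_false, Bool.toNat_true, Bool.toNat_false, Nat.reduceAdd, ne_eq,
      Nat.reduceEqDiff, not_false_eq_true, decide_true, not_true_eq_false, decide_false,
      OfNat.zero_ne_ofNat, OfNat.one_ne_ofNat, Par, if_true, Bool.false_eq_true, if_false] <;>
    first
      | exact b3 _ _ (by linarith) (by linarith only [a2, a3])
      | exact b4 _ _ (by linarith) (by linarith only [a2, a3])
      | exact b5 _ _ (by linarith) (by linarith only [a4])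
      | exact b6 _ _ (by linarith only [hσ]) (by linarith only [a2])
  · have c1 := le_abs_self y
    have c2 := neg_abs_le y
    have c3 := le_abs_self y'
    have c4 := neg_abs_le y'
    have c5 := abs_nonneg y
    have c6 := abs_nonneg y'
    rintro z (rfl | rfl) <;> constructor <;> linarith only [c3, c4, l2, c1, c2, sq_nonneg α, sq_nonneg α]

theorem cmpr_big {α : Type} (l : List α) (p : α → ℝ → Prop)
    (h : ∀ a ∈ l, ∃ L₀, ∀ L, L₀ ≤ L → p a L) : ∃ L₀, ∀ L, L₀ ≤ L → ∀ a ∈ l, p a L := by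
  induction l with
  | nil => exact ⟨0, by simp⟩
  | cons a l ih =>
    obtain ⟨L₁, h1⟩ := h a List.mem_cons_self
    obtain ⟨L₂, h2⟩ := ih fun b hb => h b (List.mem_cons_of_mem _ hb)
    refine ⟨max L₁ L₂, fun L hL b hb => ?_⟩
    rcases List.mem_cons.1 hb with rfl | hb
    · exact h1 L ((le_max_left _ _).trans hL)
    · exact h2 L ((le_max_right _ _).trans hL) b hb

theorem rOf_complete {P : List (Cmp ν) × List (Pnt ν)} (h : PSat Par P) :
    PSat Par ([], rOf P) := by
  obtain ⟨τ, υ, h1, h2⟩ := h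
  obtain ⟨L, hL⟩ := cmpr_big P.1 _ fun c hc =>
    cmpr_num (y := sm υ c.1) (y' := sm υ c.2) (h1 c hc)
  refine ⟨Sum.elim τ (Sum.elim (fun _ => L) fun c => -(8 * L + sm τ c.1 + sm τ c.2) / 2),
    Sum.elim υ (Sum.elim (fun _ => 0) fun _ => L ^ 2), by simp, fun p hp => ?_⟩
  rcases List.mem_append.1 hp with hp | hp
  · obtain ⟨p', hp', rfl⟩ := List.mem_map.1 hp
    simpa only [sm_map, elim_inl] using h2 p' hp'
  obtain ⟨c, hc, hp⟩ := List.mem_flatMap.1 hp
  obtain ⟨k1, k2⟩ := hL L le_rfl c hc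
  rcases List.mem_append.1 hp with hp | hp
  · obtain ⟨q, -, rfl⟩ := List.mem_map.1 hp
    simpa only [cmpr_quad, elim_inl, elim_inr] using k1 q
  · obtain ⟨k3, k4⟩ := k2 _ (Or.inl rfl)
    obtain ⟨k5, k6⟩ := k2 _ (Or.inr rfl)
    simp only [List.mem_cons, List.not_mem_nil, or_false] at hp
    rcases hp with rfl | rfl | rfl | rfl <;>
    simp only [sm_cons, sm_map, elim_inl, elim_inr, Par, if_true, Bool.false_eq_true, if_false] <;>
    linarith only [k3, k5, k6, k4]

theorem rOf_nodup {P : List (Cmp ν) × List (Pnt ν)} (h1 : ∀ c ∈ P.1, (c.1 ++ c.2).Nodup)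
    (h2 : ∀ p ∈ P.2, p.1.Nodup) : ∀ p ∈ rOf P, p.1.Nodup := by
  intro p hp
  rcases List.mem_append.1 hp with hp | hp
  · obtain ⟨p', hp', rfl⟩ := List.mem_map.1 hp
    exact (h2 p' hp').map inl_injective
  obtain ⟨c, hc, hp⟩ := List.mem_flatMap.1 hp
  have k := (h1 c hc).map (f := (inl : ν → RN ν)) inl_injective
  have k1 := (h1 c hc).of_append_left.map (f := (inl : ν → RN ν)) inl_injective
  have k2 := (h1 c hc).of_append_right.map (f := (inl : ν → RN ν)) inl_injective
  rcases List.mem_append.1 hp with hp | hp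
  · obtain ⟨q, -, rfl⟩ := List.mem_map.1 hp
    obtain ⟨_ | _, _ | _, _ | _, _ | _⟩ := q <;>
    simp [-List.map_append, List.nodup_append, k]
  · simp only [List.mem_cons, List.not_mem_nil, or_false] at hp
    rcases hp with rfl | rfl | rfl | rfl <;> simp [k1, k2]

end Pool.Agent.Work.MP_fae5c8_lc.ER
end

-- merged part: Pool.Agent.Work.MP_fae5c8_lc.ER.ParNet
section
/-! Patterns on the parabola are realised by the network; the final encoding. -/

namespace Pool.Agent.Work.MP_fae5c8_lc.ER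

open Real

variable {ν : Type}

theorem parnet_cosh (x : ℝ) : 1 + x ^ 2 / 2 ≤ cosh x := by
  have h : cosh x = 1 + 2 * sinh (x / 2) ^ 2 := by
    have := cosh_two_mul (x / 2)
    rw [show 2 * (x / 2) = x by ring, cosh_sq] at this
    linarith only [this]
  have h2 : (x / 2) ^ 2 ≤ sinh (x / 2) ^ 2 := by
    rw [sq_le_sq, abs_sinh]
    exact self_le_sinh_iff.2 (abs_nonneg _)
  linarith only [h, h2]

theorem parnet_point {T Y : ℝ} {l : Bool} (h : Par T Y l) : ∃ L₀ : ℝ, ∀ L, L₀ ≤ L → 0 < L →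
    heaviside (1 * sigmoid (T / L + -log 2) +
      -2 * sigmoid (T / L / 2 + Y / L ^ 2 / 8 + log 2) + 1) = l := by
  have key : ∀ L, 0 ≤ 1 * sigmoid (T / L + -log 2) +
      -2 * sigmoid (T / L / 2 + Y / L ^ 2 / 8 + log 2) + 1 ↔
      exp (Y / L ^ 2 / 8) ≤ cosh (T / L / 2) := by
    intro L
    rw [net_iff, cosh_eq, exp_add, exp_add, exp_add, exp_neg, exp_neg, exp_log two_pos,
      show T / L = T / L / 2 + T / L / 2 by ring, exp_add]
    have := exp_pos (T / L / 2)
    rw [add_halves, ← sub_nonneg (a := (_ + _) / 2), ← mul_nonneg_iff_of_pos_right this (b := _ - _),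
      ← mul_nonneg_iff_of_pos_right two_pos (b := _ * _)]
    apply iff_of_eq
    congr 1
    field_simp
    ring
  cases l
  · refine ⟨0, fun L _ hL => ?_⟩
    rw [heaviside, decide_eq_false_iff_not, key, not_le]
    refine (cosh_le_exp_half_sq _).trans_lt (exp_lt_exp.2 ?_)
    have h : T ^ 2 < Y := by simpa [Par] using h
    have : T ^ 2 / L ^ 2 < Y / L ^ 2 := div_lt_div_of_pos_right h (by positivity)
    rw [div_pow, div_pow]
    linarith only [this]
  · have h : Y < T ^ 2 := by simpa [Par] using h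
    refine ⟨max (|Y| + 1) (Y ^ 2 / (T ^ 2 - Y)), fun L hL _ => ?_⟩
    rw [heaviside, decide_eq_true_iff, key]
    have l1 := (le_max_left _ _).trans hL
    have l2 := (div_le_iff₀ (sub_pos.2 h)).1 ((le_max_right _ _).trans hL)
    have a1 := abs_nonneg Y
    have l3 : L ≤ L ^ 2 := by nlinarith
    have l4 : 0 < L ^ 2 := by linarith
    have b1 : |Y / L ^ 2 / 8| ≤ 1 := by
      rw [abs_div, abs_div, abs_of_pos l4, abs_of_pos (by norm_num : (0 : ℝ) < 8),
        div_le_one (by norm_num), div_le_iff₀ l4]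
      linarith
    have b2 := (abs_le.1 (abs_exp_sub_one_sub_id_le b1)).2
    refine le_trans ?_ (parnet_cosh _)
    have b3 : (Y / L ^ 2 / 8) ^ 2 ≤ (T ^ 2 - Y) / L ^ 2 / 8 := by
      rw [div_div, div_div, div_pow, div_le_div_iff₀ (by positivity) (by positivity)]
      have : Y ^ 2 ≤ (T ^ 2 - Y) * (L ^ 2 * 8) := by linarith only [l2, h, l3, mul_nonneg_of_nonpos_of_nonpos (Mathlib.Tactic.Linarith.sub_nonpos_of_le (sq_nonneg L)) (le_of_lt (Mathlib.Tactic.Linarith.sub_neg_of_lt h)), mul_nonneg_of_nonpos_of_nonpos (le_of_lt (Mathlib.Tactic.Linarith.sub_neg_of_lt h)) (Mathlib.Tactic.Linarith.sub_nonpos_of_le l3)]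
      linarith only [this, mul_nonneg_of_nonpos_of_nonpos (Mathlib.Tactic.Linarith.sub_nonpos_of_le (sq_nonneg L)) (Mathlib.Tactic.Linarith.sub_nonpos_of_le this)]
    have b4 : (T / L / 2) ^ 2 / 2 = (T ^ 2 - Y) / L ^ 2 / 8 + Y / L ^ 2 / 8 := by ring
    linarith only [b2, b3, b4]

theorem net_of_par {R : List (Pnt ν)} (h : PSat Par ([], R)) : NetSat R := by
  obtain ⟨τ, υ, -, h⟩ := h
  obtain ⟨L₀, hL⟩ := cmpr_big R _ fun p hp => parnet_point (h p hp)
  have k1 : ∀ (L : ℝ) (l : List ν), sm (fun a => τ a / L) l = sm τ l / L := by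
    intro L l; induction l with
    | nil => simp
    | cons a l ih => simp [ih]; ring
  have k2 : ∀ (L : ℝ) (l : List ν), sm (fun a => τ a / L / 2 + υ a / L ^ 2 / 8) l =
      sm τ l / L / 2 + sm υ l / L ^ 2 / 8 := by
    intro L l; induction l with
    | nil => simp
    | cons a l ih => simp [ih]; ring
  refine ⟨fun a => τ a / max L₀ 1, fun a => τ a / max L₀ 1 / 2 + υ a / max L₀ 1 ^ 2 / 8,
    -log 2, log 2, 1, 1, -2, fun p hp => ?_⟩
  rw [k1, k2]
  exact hL _ (le_max_left _ _) p hp (lt_max_of_lt_right one_pos)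

theorem fOf_length (R : List (Pnt ν)) : ∀ p ∈ (fOf R).2, p.1.length = (fOf R).1 := by
  intro p hp
  obtain ⟨p', -, rfl⟩ := List.mem_map.1 hp
  simp only [fOf, List.length_append, List.length_map, List.length_replicate]

theorem fOf_card (R : List (Pnt ν)) : (fOf R).2.length ≤ (fOf R).1 := by
  simp only [fOf, List.length_map]
  omega

open Classical in
theorem fOf_dot {k : ℕ} (cols : List ν) (m : ℕ) (w : Fin k → ℝ) (l : List ν) (hl : l.Nodup) :
    dot w ((cols.map fun c => decide (c ∈ l)) ++ List.replicate m false) =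
      sm (fun c => ∑ j : Fin k, if cols[(j : ℕ)]? = some c then w j else 0) l := by
  rw [sm, ← List.sum_toFinset _ hl, Finset.sum_comm, dot]
  refine Finset.sum_congr rfl fun j _ => ?_
  by_cases hj : (j : ℕ) < cols.length
  · rw [List.getD_append _ _ _ _ (by simpa using hj)]
    simp [hj]
  · rw [List.getD_append_right _ _ _ _ (by simpa using hj)]
    have : ∀ n, (List.replicate m false).getD n false = false := by
      intro n
      by_cases h : n < m <;> simp [h]
    rw [this, List.getElem?_eq_none (not_lt.1 hj)]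
    simp

theorem fOf_iff {R : List (Pnt ν)} (h : ∀ p ∈ R, p.1.Nodup) : Loadable (fOf R) ↔ NetSat R := by
  classical
  constructor
  · rintro ⟨w₁, w₂, b₁, b₂, a₀, a₁, a₂, H⟩
    refine ⟨fun c => ∑ j : Fin (fOf R).1,
        if (R.flatMap fun p => p.1)[(j : ℕ)]? = some c then w₁ j else 0,
      fun c => ∑ j : Fin (fOf R).1,
        if (R.flatMap fun p => p.1)[(j : ℕ)]? = some c then w₂ j else 0,
      b₁, b₂, a₀, a₁, a₂, fun p hp => ?_⟩
    have := H _ (List.mem_map_of_mem hp)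
    simp only at this
    rw [fOf_dot _ _ _ _ (h p hp), fOf_dot _ _ _ _ (h p hp)] at this
    exact this
  · rintro ⟨τ, υ, b₁, b₂, a₀, a₁, a₂, H⟩
    set cols := R.flatMap fun p => p.1 with hcols
    have key : ∀ (x : ν → ℝ) (c : ν), c ∈ cols → (∑ j : Fin (fOf R).1,
        if cols[(j : ℕ)]? = some c then
          (cols[(j : ℕ)]?.map fun d => if cols.idxOf d = j then x d else 0).getD 0 else 0) =
        x c := by
      intro x c hc
      have hi : cols.idxOf c < cols.length := List.idxOf_lt_length_iff.2 hc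
      rw [Finset.sum_eq_single ⟨cols.idxOf c, lt_of_lt_of_le hi (Nat.le_add_right _ _)⟩]
      · simp [hi]
      · intro j _ hj
        split_ifs with e
        · rw [e]
          have : ¬ cols.idxOf c = j := fun e' => hj (Fin.ext e'.symm)
          simp [this]
        · rfl
      · simp
    refine ⟨fun j => (cols[(j : ℕ)]?.map fun d => if cols.idxOf d = j then τ d else 0).getD 0,
      fun j => (cols[(j : ℕ)]?.map fun d => if cols.idxOf d = j then υ d else 0).getD 0,
      b₁, b₂, a₀, a₁, a₂, fun p hp => ?_⟩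
    obtain ⟨p', hp', rfl⟩ := List.mem_map.1 hp
    have k : ∀ x y : ν → ℝ, (∀ c ∈ cols, x c = y c) → sm x p'.1 = sm y p'.1 := by
      intro x y e
      unfold sm
      rw [List.map_congr_left fun c hc => e c (List.mem_flatMap.2 ⟨p', hp', hc⟩)]
    simp only
    rw [fOf_dot _ _ _ _ (h p' hp'), fOf_dot _ _ _ _ (h p' hp'), k _ _ (key τ), k _ _ (key υ)]
    exact H p' hp'

end Pool.Agent.Work.MP_fae5c8_lc.ER
end
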